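import Mathlib
import Pool.Agent.K4H34.AL.Alg

/-!
# Algebraic numbers fixed by automorphisms of the complex numbers
-/

set_option autoImplicit false
set_option linter.unusedSectionVars false

namespace Pool.Agent.Run7.h508.SQ

open Pool.Agent.K4H34.AL

/-- the automorphisms of the field of the algebraic numbers extend to the complex numbers -/
theorem exists_extend (τ : QB ≃ₐ[ℚ] QB) : ∃ σ : ℂ ≃+* ℂ, ∀ x : QB, σ (x : ℂ) = (τ x : ℂ) := by
  classical
  obtain ⟨ι, v, hv⟩ := exists_isTranscendenceBasis' QB ℂ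
  let S := Algebra.adjoin QB (Set.range v)
  have hS : IsAlgClosure S ℂ := IsAlgClosed.isAlgClosure_of_transcendence_basis v hv
  let e : S ≃+* S := (hv.1.aevalEquiv.symm.toRingEquiv.trans
    (MvPolynomial.mapEquiv ι τ.toRingEquiv)).trans hv.1.aevalEquiv.toRingEquiv
  refine ⟨IsAlgClosure.equivOfEquiv ℂ ℂ e, fun x => ?_⟩
  have h1 := IsAlgClosure.equivOfEquiv_algebraMap ℂ ℂ e (algebraMap QB S x)
  have h2 : e (algebraMap QB S x) = algebraMap QB S (τ x) := by
    change hv.1.aevalEquiv (MvPolynomial.mapEquiv ι τ.toRingEquiv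
      (hv.1.aevalEquiv.symm (algebraMap QB S x))) = _
    rw [AlgEquiv.commutes, MvPolynomial.mapEquiv_apply, MvPolynomial.algebraMap_eq,
      MvPolynomial.map_C, ← MvPolynomial.algebraMap_eq, AlgEquiv.commutes]
    rfl
  rw [h2] at h1
  exact h1

/-- an algebraic number which is fixed by all automorphisms over the subfield `F` -/
theorem mem_of_fixed (F : IntermediateField ℚ ℂ) (hF : F ≤ QB) {α : ℂ} (hα : α ∈ QB)
    (h : ∀ σ : ℂ ≃+* ℂ, (∀ x ∈ F, σ x = x) → σ α = α) : α ∈ F := by
  have hac : IsAlgClosure ℚ QB := algebraicClosure.isAlgClosure ℚ ℂ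
  have hg : IsGalois ℚ QB := IsAlgClosure.isGalois ℚ QB
  let F' : IntermediateField ℚ QB := IntermediateField.restrict hF
  have h1 : (⟨α, hα⟩ : QB) ∈ F' := by
    rw [← InfiniteGalois.fixedField_fixingSubgroup F', IntermediateField.mem_fixedField_iff]
    intro τ hτ
    obtain ⟨σ, hσ⟩ := exists_extend τ
    apply Subtype.ext
    rw [← hσ]
    refine h σ fun x hx => ?_
    have h2 : (⟨x, hF hx⟩ : QB) ∈ F' := (IntermediateField.mem_restrict hF _).mpr hx
    have h3 := hσ ⟨x, hF hx⟩
    rw [h3]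
    exact congrArg Subtype.val (((IntermediateField.mem_fixingSubgroup_iff _ _).mp hτ) _ h2)
  exact (IntermediateField.mem_restrict hF _).mp h1

end Pool.Agent.Run7.h508.SQ
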