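import Mathlib
import Pool.Agent.K4H34.NC.L2
import Pool.Agent.K4H74.ST.Exc

/-!
# Extensions whose inertia groups are `l`-groups
-/

set_option autoImplicit false
set_option linter.unusedSectionVars false

namespace Pool.Agent.Run7.h508.SQ

open NumberField NumberField.ComplexEmbedding Pool.Agent.R389 Pool.Agent.K4H74.ST
  Pool.Agent.K4H77.SL Pool.Agent.K4H34.ST Pool.Agent.K4H34.NC

/-- the element has `l`-power order -/
def LE (l : ℕ) {G : Type} [Group G] (g : G) : Prop := ∃ k : ℕ, g ^ (l ^ k) = 1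

lemma LE.map {l : ℕ} {G H : Type} [Group G] [Group H] {g : G} (h : LE l g) (f : G →* H) :
    LE l (f g) := by
  obtain ⟨k, hk⟩ := h
  exact ⟨k, by rw [← map_pow, hk, map_one]⟩

lemma LE.of_inj {l : ℕ} {G H : Type} [Group G] [Group H] {g : G} (f : G →* H)
    (hf : Function.Injective f) (h : LE l (f g)) : LE l g := by
  obtain ⟨k, hk⟩ := h
  exact ⟨k, hf (by rw [map_pow, hk, map_one])⟩

/-- the element has `l`-power order, and its `j`-th power is trivial -/
def LJ (l j : ℕ) {G : Type} [Group G] (g : G) : Prop := LE l g ∧ g ^ j = 1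

lemma LJ.map {l j : ℕ} {G H : Type} [Group G] [Group H] {g : G} (h : LJ l j g) (f : G →* H) :
    LJ l j (f g) := ⟨h.1.map f, by rw [← map_pow, h.2, map_one]⟩

lemma LJ.of_inj {l j : ℕ} {G H : Type} [Group G] [Group H] {g : G} (f : G →* H)
    (hf : Function.Injective f) (h : LJ l j (f g)) : LJ l j g :=
  ⟨h.1.of_inj f hf, hf (by rw [map_pow, h.2, map_one])⟩

lemma LJ.of_eq_one {l j : ℕ} {G : Type} [Group G] {g : G} (h : g = 1) : LJ l j g :=
  ⟨⟨0, by rw [h, one_pow]⟩, by rw [h, one_pow]⟩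

lemma LE.lj {l : ℕ} {G : Type} [Group G] {g : G} (h : LE l g) : LJ l 0 g := ⟨h, pow_zero g⟩

/-- the elements of the inertia groups, and of the decomposition groups of the primes above `m`,
have `l`-power orders, and their `j`-th powers are trivial -/
def LRam (l j m : ℕ) (K L : Type) [Field K] [Field L] [Algebra K L] : Prop :=
  ∀ P : Ideal (𝓞 L), P.IsMaximal → (∀ g ∈ inertia K P, LJ l j g) ∧
    ((m : 𝓞 L) ∈ P → ∀ g ∈ decomp K P, LJ l j g)

/-- the invariant is trivial on the faithful linear characters, with trivial `e`-th power, of the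
extensions as above of the totally complex fields -/
def TrivEll {M : Type} [CommGroup M] (A : ArtinInvariant M) (m l j e : ℕ) : Prop :=
  ∀ (K L : Type) [Field K] [NumberField K] [Field L] [NumberField L] [Algebra K L] [IsGalois K L],
    IsTotallyComplex K → LRam l j m K L →
    ∀ ψ : (L ≃ₐ[K] L) →* ℂˣ, Function.Injective ψ → ψ ^ e = 1 → A.val K L (lc ψ) = 1

section sub

variable {K E L : Type} [Field K] [NumberField K] [Field E] [NumberField E] [Field L]
  [NumberField L] [Algebra K E] [Algebra E L] [Algebra K L] [IsScalarTower K E L] [IsGalois K L]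
  [IsGalois K E]

lemma LRam.quot {l j m : ℕ} (h : LRam l j m K L) : LRam l j m K E := by
  intro P hP
  refine ⟨fun g hg => ?_, fun hm g hg => ?_⟩
  · obtain ⟨h0, Q, rfl, hQ, hQP, hhQ⟩ := lift_inertia (L := L) hP hg
    exact ((h Q hQ).1 h0 hhQ).map _
  · have iEL : IsGalois E L := IsGalois.tower_top_of_isGalois K E L
    obtain ⟨h0, Q, rfl, hQ, hQP, hhQ⟩ := lift_decomp (N := L) hP hg
    refine ((h Q hQ).2 ?_ h0 hhQ).map _
    have h2 : algebraMap (𝓞 E) (𝓞 L) (m : 𝓞 E) ∈ Q := by
      rw [← Ideal.mem_comap, hQP]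
      exact hm
    rwa [map_natCast] at h2

end sub

section base

variable {K L : Type} [Field K] [NumberField K] [Field L] [NumberField L] [Algebra K L]
  [IsGalois K L]

lemma LE.restrict {F : Type} [Field F] [Algebra K F] [Algebra F L] [IsScalarTower K F L] {l : ℕ}
    {g : L ≃ₐ[F] L} (h : LE l (g.restrictScalars K)) : LE l g := by
  obtain ⟨k, hk⟩ := h
  refine ⟨k, ?_⟩
  have h7 : ∀ (n : ℕ) (x : L), (g ^ n) x = ((g.restrictScalars K) ^ n) x := by
    intro n
    induction n with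
    | zero => intro x; rfl
    | succ n ih =>
      intro x
      rw [pow_succ, pow_succ]
      exact ih (g x)
  ext x
  rw [h7, hk]
  rfl

lemma pow_restrict {F : Type} [Field F] [Algebra K F] [Algebra F L] [IsScalarTower K F L] {n : ℕ}
    {g : L ≃ₐ[F] L} (h : (g.restrictScalars K) ^ n = 1) : g ^ n = 1 := by
  have h7 : ∀ (n : ℕ) (x : L), (g ^ n) x = ((g.restrictScalars K) ^ n) x := by
    intro n
    induction n with
    | zero => intro x; rfl
    | succ n ih =>
      intro x
      rw [pow_succ, pow_succ]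
      exact ih (g x)
  ext x
  rw [h7, h]
  rfl

lemma LRam.sub {l j m : ℕ} (h : LRam l j m K L) (F : Type) [Field F] [Algebra K F] [Algebra F L]
    [IsScalarTower K F L] : LRam l j m F L := by
  intro P hP
  refine ⟨fun g hg => ?_, fun hm g hg => ?_⟩
  · have h1 := (h P hP).1 (g.restrictScalars K) (fun x => hg x)
    exact ⟨LE.restrict (K := K) h1.1, pow_restrict (K := K) h1.2⟩
  · have h1 := (h P hP).2 hm (g.restrictScalars K) (fun x => hg x)
    exact ⟨LE.restrict (K := K) h1.1, pow_restrict (K := K) h1.2⟩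

theorem ell_all {M : Type} [CommGroup M] {A : ArtinInvariant M} {m l j e : ℕ}
    (hA : TrivEll A m l j e) (hK : IsTotallyComplex K) (hr : LRam l j m K L)
    (he : ∀ g : L ≃ₐ[K] L, g ^ e = 1) {χ : (L ≃ₐ[K] L) → ℂ}
    (hχ : IsChar χ) : A.val K L χ = 1 := by
  have hfinL : FiniteDimensional K L := Module.Finite.of_restrictScalars_finite ℚ K L
  have key : A.val K L χ ∈ (⊥ : Subgroup M) := by
    refine brauer_red ⊥ (fun U ψ => ?_) hχ
    rw [Subgroup.mem_bot]
    let F := IntermediateField.fixedField U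
    obtain ⟨E, i1, i2, i3, i4, i5, i6, θ, hθ, hψ⟩ := lin_red F L ψ
    have h1 : ψ = θ.comp (AlgEquiv.restrictNormalHom E) := by
      ext g
      rw [← hψ]
      rfl
    have hF : IsTotallyComplex F := isTotallyComplex_of_algebra K F
    have hrF : LRam l j m F L := hr.sub F
    have hfin : FiniteDimensional F E := Module.Finite.of_restrictScalars_finite ℚ F E
    have hfinF : FiniteDimensional F L := Module.Finite.of_restrictScalars_finite ℚ F L
    have hθe : θ ^ e = 1 := by
      apply MonoidHom.ext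
      intro y
      obtain ⟨g, rfl⟩ := AlgEquiv.restrictNormalHom_surjective (F := F) (K₁ := E) L y
      have h5 : g ^ e = 1 := pow_restrict (K := K) (he _)
      rw [MonoidHom.pow_apply, ← map_pow, ← map_pow, h5, map_one, map_one]
      rfl
    rw [h1, val_lin_res]
    exact hA F E hF (hrF.quot (E := E)) θ hθ hθe
  exact Subgroup.mem_bot.mp key

end base

/-- induction of characters of extensions whose inertia groups are `l`-groups -/
theorem l2' {Mg : Type} [CommGroup Mg] {A : ArtinInvariant Mg} {m l j e : ℕ}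
    (hA : TrivEll A m l j e) (N : Type) [Field N] [NumberField N] [IsGalois ℚ N]
    (V : Subgroup (N ≃ₐ[ℚ] N)) (hF : IsTotallyComplex (IntermediateField.fixedField V))
    (Γ : Type) [Group Γ] [Finite Γ] (κ : V →* Γ) (hκe : ∀ u, κ u ^ e = 1)
    (hgood1 : ∀ (u : V) (Q : Ideal (𝓞 N)), Q.IsMaximal → (u : N ≃ₐ[ℚ] N) ∈ decomp ℚ Q →
      (m : 𝓞 N) ∈ Q → LJ l j (κ u))
    (hgood2 : ∀ (u : V) (Q : Ideal (𝓞 N)), Q.IsMaximal → (u : N ≃ₐ[ℚ] N) ∈ inertia ℚ Q →
      LJ l j (κ u))
    (ζ : Γ → ℂ) (hζ : IsChar ζ) : ind V (fun u => ζ (κ u)) ∈ TT A (K := ℚ) (L := N) ⊥ := by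
  classical
  have hfin : FiniteDimensional ℚ N := inferInstance
  let F := IntermediateField.fixedField V
  let ε : V ≃* (N ≃ₐ[F] N) := IntermediateField.subgroupEquivAlgEquiv V
  have he : ∀ h : N ≃ₐ[F] N, (ε.symm h : N ≃ₐ[ℚ] N) = h.restrictScalars ℚ := by
    intro h
    obtain ⟨u, rfl⟩ := ε.surjective h
    rw [MulEquiv.symm_apply_apply]
    ext x
    rfl
  let ρ : (N ≃ₐ[F] N) →* Γ := κ.comp ε.symm.toMonoidHom
  have hind : ind V (fun u => ζ (κ u)) = indChar ℚ F N (fun g => ζ (ρ g)) :=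
    ind_fixed V _
  have hcharU : IsChar (fun g : N ≃ₐ[F] N => ζ (ρ g)) := Pool.Agent.K4H77.SL.IsChar.comp hζ ρ
  -- the field `E`
  let E : IntermediateField F N := IntermediateField.fixedField ρ.ker
  have hE : IsGalois F E := IsGalois.of_fixedField_normal_subgroup ρ.ker
  let π : (N ≃ₐ[F] N) →* (E ≃ₐ[F] E) := AlgEquiv.restrictNormalHom E
  have hπ : Function.Surjective π := AlgEquiv.restrictNormalHom_surjective N
  have hfinF : FiniteDimensional F N := Module.Finite.of_restrictScalars_finite ℚ F N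
  have hker : ∀ g : N ≃ₐ[F] N, π g = 1 ↔ ρ g = 1 := by
    intro g
    constructor
    · intro h
      have h1 : g ∈ E.fixingSubgroup := by
        rw [IntermediateField.mem_fixingSubgroup_iff]
        intro x hx
        have h2 := res_apply (L := E) g ⟨x, hx⟩
        change algebraMap E N (π g ⟨x, hx⟩) = _ at h2
        rw [h] at h2
        exact h2.symm
      rw [IntermediateField.fixingSubgroup_fixedField] at h1
      exact h1
    · intro h
      ext x
      have h2 := res_apply (L := E) g x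
      change algebraMap E N (π g x) = _ at h2
      change ((π g x : E) : N) = (x : N)
      exact h2.trans (x.2 ⟨g, h⟩)
  have hle : π.ker ≤ ρ.ker := fun g hg => (hker g).mp hg
  let ρ' : (E ≃ₐ[F] E) →* Γ := π.liftOfSurjective hπ ⟨ρ, hle⟩
  have hρ' : ∀ g, ρ' (π g) = ρ g := fun g => MonoidHom.liftOfRightInverse_comp_apply _ _ _ ⟨ρ, hle⟩ g
  have hinj : Function.Injective ρ' := by
    rw [injective_iff_map_eq_one]
    intro a ha
    obtain ⟨g, rfl⟩ := hπ a
    rw [hρ'] at ha
    exact (hker g).mpr ha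
  have hgi : ∀ (h : N ≃ₐ[F] N) (x : 𝓞 N), gi (ε.symm h : N ≃ₐ[ℚ] N) x = gi h x := by
    intro h x
    apply RingOfIntegers.ext
    rw [he]
    rfl
  have hdec : ∀ (h : N ≃ₐ[F] N) (Q : Ideal (𝓞 N)), h ∈ decomp F Q →
      (ε.symm h : N ≃ₐ[ℚ] N) ∈ decomp ℚ Q := by
    intro h Q hh x
    rw [hgi]
    exact hh x
  have hine : ∀ (h : N ≃ₐ[F] N) (Q : Ideal (𝓞 N)), h ∈ inertia F Q →
      (ε.symm h : N ≃ₐ[ℚ] N) ∈ inertia ℚ Q := by
    intro h Q hh x
    rw [hgi]
    exact hh x
  have hval : A.val F E (fun g => ζ (ρ' g)) = 1 := by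
    refine ell_all hA hF ?_ (fun a => ?_) (Pool.Agent.K4H77.SL.IsChar.comp hζ ρ')
    swap
    · obtain ⟨g, rfl⟩ := hπ a
      apply hinj
      rw [map_pow, hρ', map_one]
      exact hκe (ε.symm g)
    intro P hP
    refine ⟨fun g hg => ?_, fun hm g hg => ?_⟩
    · obtain ⟨h, Q, hhg, hQ, hQP, hhQ⟩ := lift_inertia (L := N) hP hg
      apply LJ.of_inj ρ' hinj
      rw [← hhg]
      change LJ l j (ρ' (π h))
      rw [hρ']
      exact hgood2 (ε.symm h) Q hQ (hine h Q hhQ)
    · obtain ⟨h, Q, hhg, hQ, hQP, hhQ⟩ := lift_decomp (N := N) hP hg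
      have hmQ : (m : 𝓞 N) ∈ Q := by
        have h1 : algebraMap (𝓞 E) (𝓞 N) (m : 𝓞 E) ∈ Q := by
          rw [← Ideal.mem_comap, hQP]
          exact hm
        rwa [map_natCast] at h1
      apply LJ.of_inj ρ' hinj
      rw [← hhg]
      change LJ l j (ρ' (π h))
      rw [hρ']
      exact hgood1 (ε.symm h) Q hQ (hdec h Q hhQ) hmQ
  have hval2 : A.val F N (fun g => ζ (ρ g)) = 1 := by
    rw [← hval, ← A.val_infl F E N _ (Pool.Agent.K4H77.SL.IsChar.comp hζ ρ')]
    congr 1
    funext g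
    rw [← hρ']
  have hval3 : A.val ℚ N (indChar ℚ F N (fun g => ζ (ρ g))) = 1 := by
    rw [A.val_ind ℚ F N _ hcharU]
    exact hval2
  have hch : IsChar (ind V (fun u => ζ (κ u))) :=
    Pool.Agent.K4H74.SC.isChar_ind V (Pool.Agent.K4H77.SL.IsChar.comp hζ κ)
  rw [mem_TT_char A hch, Subgroup.mem_bot, hind]
  exact hval3

end Pool.Agent.Run7.h508.SQ
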