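import Mathlib
import Pool.Agent.K4H34.NC.L1

/-!
# The `l`-local idempotents of an `l`-hyperelementary group, with control of the subgroups
-/

set_option autoImplicit false
set_option linter.unusedSectionVars false

namespace Pool.Agent.Run7.h508.SQ

open Pool.Agent.R389 Pool.Agent.K4H77.SL Pool.Agent.H302R2 Pool.Agent.H302R3 Pool.Agent.K4H34.NC
  MulAction Pool.Agent.H541R3.ART Pool.Agent.W446.AS

section count

variable {G : Type} [Group G] [Finite G]

/-- the fixed point counts are combinations of permutation characters of point stabilisers -/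
lemma fix_mem (X : Type) [MulAction G X] [Finite X] :
    (fun g : G => (Nat.card {x : X // g • x = x} : ℂ)) ∈ AddSubgroup.closure
      {f : G → ℂ | ∃ x : X, f = ind (stabilizer G x) (fun _ => (1 : ℂ))} := by
  classical
  have : Fintype G := Fintype.ofFinite _
  have : Fintype X := Fintype.ofFinite _
  let mk : X → Quotient (orbitRel G X) := Quotient.mk _
  have h1 : (fun g : G => (Nat.card {x : X // g • x = x} : ℂ))
      = ∑ ω : Quotient (orbitRel G X), ind (stabilizer G ω.out) (fun _ => (1 : ℂ)) := by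
    funext g
    rw [Finset.sum_apply]
    have h2 : (Nat.card {x : X // g • x = x} : ℂ) = ∑ x : X, if g • x = x then (1 : ℂ) else 0 := by
      rw [← Finset.sum_filter, Finset.sum_const, nsmul_eq_mul, mul_one,
        Nat.card_eq_fintype_card, Fintype.card_subtype]
    rw [h2, ← Finset.sum_fiberwise_of_maps_to (s := Finset.univ) (t := Finset.univ)
      (g := mk) (fun _ _ => Finset.mem_univ _)]
    refine Finset.sum_congr rfl fun ω _ => ?_
    rw [ind_eq]
    have h3 : ∀ y : G, ext (stabilizer G ω.out) (fun _ => (1 : ℂ)) (y⁻¹ * g * y)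
        = (fun x : X => if g • x = x then (1 : ℂ) else 0) (y • ω.out) := by
      intro y
      have h4 : y⁻¹ * g * y ∈ stabilizer G ω.out ↔ g • y • ω.out = y • ω.out := by
        rw [mem_stabilizer_iff, mul_smul, mul_smul, inv_smul_eq_iff]
      simp only
      by_cases h : y⁻¹ * g * y ∈ stabilizer G ω.out
      · rw [ext_mem _ _ h, if_pos (h4.mp h)]
      · rw [ext_not _ _ h, if_neg (fun h' => h (h4.mpr h'))]
    rw [Finset.sum_congr rfl (fun y _ => h3 y)]
    have hmk : ∀ y : G, mk (y • ω.out) = ω := by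
      intro y
      have h5 : mk (y • ω.out) = mk ω.out := Quotient.sound (orbitRel_apply.mpr ⟨y, rfl⟩)
      rw [h5]; exact Quotient.out_eq ω
    rw [← Finset.sum_fiberwise_of_maps_to (s := (Finset.univ : Finset G))
      (t := Finset.univ.filter (fun x => mk x = ω)) (g := fun y => y • ω.out)
      (fun y _ => Finset.mem_filter.mpr ⟨Finset.mem_univ _, hmk y⟩), Finset.mul_sum]
    refine Finset.sum_congr rfl fun x hx => ?_
    have hx1 : mk x = mk ω.out := by
      rw [(Finset.mem_filter.mp hx).2]; exact (Quotient.out_eq ω).symm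
    obtain ⟨z, hz⟩ := orbitRel_apply.mp (Quotient.exact hx1)
    simp only at hz
    rw [Finset.sum_congr rfl (g := fun _ => if g • x = x then (1 : ℂ) else 0)
      (fun y hy => by rw [(Finset.mem_filter.mp hy).2]), Finset.sum_const, nsmul_eq_mul]
    have hcard : (Finset.univ.filter (fun y : G => y • ω.out = x)).card
        = Nat.card (stabilizer G ω.out) := by
      rw [← Fintype.card_subtype, ← Nat.card_eq_fintype_card]
      refine Nat.card_congr ⟨fun y => ⟨z⁻¹ * y, ?_⟩, fun s => ⟨z * s, ?_⟩, ?_, ?_⟩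
      · rw [mem_stabilizer_iff, mul_smul, y.2, ← hz, inv_smul_smul]
      · rw [mul_smul, mem_stabilizer_iff.mp s.2, hz]
      · intro y; apply Subtype.ext; simp
      · intro s; apply Subtype.ext; simp
    rw [hcard, ← mul_assoc, inv_mul_cancel₀ card_ne, one_mul]
  rw [h1]
  exact sum_mem fun ω _ => AddSubgroup.subset_closure ⟨_, rfl⟩

/-- fixed point counts of finite sets with stabilisers of a given kind -/
def Cnt (Pr : Subgroup G → Prop) (f : G → ℕ) : Prop :=
  ∃ (X : Type) (_ : MulAction G X) (_ : Finite X),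
    (∀ x : X, Pr (stabilizer G x)) ∧ ∀ g : G, f g = Nat.card {x : X // g • x = x}

lemma Cnt.mul {Pr : Subgroup G → Prop} (hPr : ∀ V W, V ≤ W → Pr W → Pr V) {f f' : G → ℕ}
    (hf : Cnt Pr f) (hf' : Cnt Pr f') : Cnt Pr (fun g => f g * f' g) := by
  obtain ⟨X, _, _, h1, h2⟩ := hf
  obtain ⟨X', _, _, h1', h2'⟩ := hf'
  refine ⟨X × X', inferInstance, inferInstance, ?_, fun g => ?_⟩
  · rintro ⟨x, y⟩
    refine hPr _ (stabilizer G x) ?_ (h1 x)
    intro g hg
    rw [mem_stabilizer_iff] at hg ⊢
    exact congrArg Prod.fst hg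
  · simp only
    rw [h2, h2', ← Nat.card_prod]
    refine Nat.card_congr (Equiv.trans (Equiv.subtypeProdEquivProd).symm
      (Equiv.subtypeEquivRight fun x => ?_))
    rw [Prod.ext_iff]
    rfl

lemma Cnt.pow {Pr : Subgroup G → Prop} (hPr : ∀ V W, V ≤ W → Pr W → Pr V) {f : G → ℕ}
    (hf : Cnt Pr f) (n : ℕ) : Cnt Pr (fun g => f g ^ (n + 1)) := by
  induction n with
  | zero => simpa using hf
  | succ n ih =>
    have := ih.mul hPr hf
    simpa [pow_succ] using this

/-- the group generated by the permutation characters of the subgroups of a given kind -/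
def SolQ (Pr : Subgroup G → Prop) : AddSubgroup (G → ℂ) :=
  AddSubgroup.closure {f | ∃ V : Subgroup G, Pr V ∧ f = ind V (fun _ => (1 : ℂ))}

lemma SolQ.mono {Pr Qr : Subgroup G → Prop} (h : ∀ V, Pr V → Qr V) : SolQ Pr ≤ SolQ Qr := by
  refine AddSubgroup.closure_mono ?_
  rintro f ⟨V, hV, rfl⟩
  exact ⟨V, h V hV, rfl⟩

lemma Cnt.mem {Pr : Subgroup G → Prop} {f : G → ℕ} (hf : Cnt Pr f) :
    (fun g => (f g : ℂ)) ∈ SolQ Pr := by
  obtain ⟨X, _, _, hX, hfX⟩ := hf
  have h1 : (fun g => (f g : ℂ)) = fun g => (Nat.card {x : X // g • x = x} : ℂ) := by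
    funext g
    rw [hfX]
  rw [h1]
  refine (AddSubgroup.closure_mono ?_) (fix_mem (G := G) X)
  rintro f ⟨x, rfl⟩
  exact ⟨_, hX x, rfl⟩

end count

/-- the subgroups whose elements of order prime to `l` are in `B` -/
def Prt {U : Type} [Group U] (b : ℕ) (B : Subgroup U) (V : Subgroup U) : Prop := ∀ v ∈ V, v ^ b ∈ B

lemma Prt.mono {U : Type} [Group U] {b : ℕ} {B : Subgroup U} (V W : Subgroup U) (h : V ≤ W)
    (hW : Prt b B W) : Prt b B V := fun v hv => hW v (h hv)

/-- the indicator function of the set of the `u` with `u ^ b ∈ B` -/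
theorem ind_B' {U : Type} [Group U] [Finite U] {l : ℕ} (hl : l.Prime) {b : ℕ} (hb : Part l b U)
    (B : Subgroup U) [B.Normal] :
    (by classical exact (fun u : U => if u ^ b ∈ B then (1 : ℂ) else 0)) ∈
      satl l hl (SolQ (Prt b B)) := by
  classical
  have : Fintype U := Fintype.ofFinite U
  have : Fact l.Prime := ⟨hl⟩
  obtain ⟨P⟩ : Nonempty (Sylow l U) := inferInstance
  set π : U → ℕ := fun u => Nat.card {x : U ⧸ (B ⊔ (P : Subgroup U)) // u • x = x} with hπ
  have hcount : Cnt (Prt b B) π := by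
    refine ⟨U ⧸ (B ⊔ (P : Subgroup U)), inferInstance, inferInstance, fun x v hv => ?_,
      fun g => rfl⟩
    by_contra hcon
    exact L1x.fix_zero (fun v => (hb v).1) B P v hcon x (mem_stabilizer_iff.mp hv)
  have h0 : ∀ u : U, u ^ b ∉ B → π u = 0 := by
    intro u hu
    have : IsEmpty {x : U ⧸ (B ⊔ (P : Subgroup U)) // u • x = x} :=
      ⟨fun x => L1x.fix_zero (fun v => (hb v).1) B P u hu x.1 x.2⟩
    exact Nat.card_of_isEmpty
  have h1 : ∀ u : U, u ^ b ∈ B → ¬ l ∣ π u :=
    fun u hu => L1x.fix_ne hl (fun v => (hb v).2) B P u hu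
  let Q : Polynomial ℤ := ∏ g ∈ Finset.univ.filter (fun g : U => g ^ b ∈ B),
    (Polynomial.X - Polynomial.C (π g : ℤ))
  apply L1x.mem_satl_of_zsmul (N := Q.coeff 0)
  · rw [Polynomial.coeff_zero_eq_eval_zero, Polynomial.eval_prod]
    intro h
    obtain ⟨g, hg', hg⟩ := (Prime.dvd_finsetProd_iff (Nat.prime_iff_prime_int.mp hl) _).mp h
    simp only [Polynomial.eval_sub, Polynomial.eval_X, Polynomial.eval_C, zero_sub,
      dvd_neg] at hg
    exact h1 g (Finset.mem_filter.1 hg').2 (by exact_mod_cast hg)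
  · have h2 : Q.coeff 0 • (fun u : U => if u ^ b ∈ B then (1 : ℂ) else 0)
        = - ∑ i ∈ Finset.range Q.natDegree,
            Q.coeff (i + 1) • (fun g => ((π g ^ (i + 1) : ℕ) : ℂ)) := by
      funext x
      simp only [Pi.smul_apply, Pi.neg_apply, Finset.sum_apply, zsmul_eq_mul]
      by_cases hx : x ^ b ∈ B
      · have h2 : Q.eval (π x : ℤ) = 0 := by
          rw [Polynomial.eval_prod]
          exact Finset.prod_eq_zero (Finset.mem_filter.2 ⟨Finset.mem_univ x, hx⟩) (by simp)
        rw [Polynomial.eval_eq_sum_range, Finset.sum_range_succ'] at h2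
        have h3 : Q.coeff 0 = - ∑ i ∈ Finset.range Q.natDegree,
            Q.coeff (i + 1) * (π x : ℤ) ^ (i + 1) := by
          rw [pow_zero, mul_one] at h2
          linarith
        rw [if_pos hx, mul_one, h3]
        push_cast
        rfl
      · rw [if_neg hx, mul_zero, Finset.sum_eq_zero, neg_zero]
        intro i _
        simp [h0 x hx]
    rw [h2]
    exact neg_mem (sum_mem fun i _ => zsmul_mem (hcount.pow Prt.mono i).mem _)

lemma satl_mono {V : Type} [AddCommGroup V] {l : ℕ} {hl : l.Prime} {S T : AddSubgroup V}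
    (h : S ≤ T) : satl l hl S ≤ satl l hl T := by
  rintro f ⟨n, hn, hf⟩
  exact ⟨n, hn, h hf⟩

/-- the indicator function of the set of the `u` such that `u ^ b` generates `B` -/
theorem ind_gen' {U : Type} [Group U] [Finite U] {l : ℕ} (hl : l.Prime) {b : ℕ} (hb : Part l b U)
    (c : U) (hn : ∀ u : U, u * c * u⁻¹ ∈ Subgroup.zpowers c) :
    ∀ n : ℕ, ∀ B : Subgroup U, B ≤ Subgroup.zpowers c → Nat.card B = n →
      (by classical exact (fun u : U => if Subgroup.zpowers (u ^ b) = B then (1 : ℂ) else 0)) ∈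
        satl l hl (SolQ (Prt b B)) := by
  classical
  have hfinS : Finite (Subgroup U) := inferInstance
  have : Fintype (Subgroup U) := Fintype.ofFinite _
  intro n
  induction n using Nat.strong_induction_on with
  | _ n ih =>
    intro B hBc hB
    have hBn : B.Normal := by
      refine ⟨fun x hx u => ?_⟩
      obtain ⟨j, hj⟩ := hBc hx
      obtain ⟨i, hi⟩ := hn u
      have hj' : c ^ j = x := hj
      have hi' : c ^ i = u * c * u⁻¹ := hi
      have h1 : u * x * u⁻¹ = x ^ i := by
        rw [← hj', ← zpow_mul, mul_comm, zpow_mul, hi', conj_zpow]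
      rw [h1]
      exact Subgroup.zpow_mem _ hx i
    have h3 : (fun u : U => if Subgroup.zpowers (u ^ b) = B then (1 : ℂ) else 0)
        = (fun u : U => if u ^ b ∈ B then (1 : ℂ) else 0)
          - ∑ B' ∈ Finset.univ.filter (fun B' : Subgroup U => B' < B),
            (fun u : U => if Subgroup.zpowers (u ^ b) = B' then (1 : ℂ) else 0) := by
      funext u
      rw [Pi.sub_apply, Finset.sum_apply]
      rw [Finset.sum_ite_eq (Finset.univ.filter (fun B' : Subgroup U => B' < B))]
      simp only [Finset.mem_filter, Finset.mem_univ, true_and]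
      rw [← Subgroup.zpowers_le]
      by_cases h4 : Subgroup.zpowers (u ^ b) = B
      · rw [if_pos h4, if_pos h4.le, if_neg (by rw [h4]; exact lt_irrefl _), sub_zero]
      · rw [if_neg h4]
        by_cases h5 : Subgroup.zpowers (u ^ b) ≤ B
        · rw [if_pos h5, if_pos (lt_of_le_of_ne h5 h4), sub_self]
        · rw [if_neg h5, if_neg (fun h6 => h5 h6.le), sub_zero]
    rw [h3]
    refine sub_mem (ind_B' hl hb B) (sum_mem fun B' hB' => ?_)
    have h4 : B' < B := (Finset.mem_filter.mp hB').2
    have h5 : Nat.card B' < n := by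
      rw [← hB]
      exact Set.ncard_lt_ncard (by exact_mod_cast h4) (Set.toFinite _)
    exact satl_mono (SolQ.mono fun V hV v hv => h4.le (hV v hv)) (ih _ h5 B' (h4.le.trans hBc) rfl)

open L1x in
/-- **L1** with control of the subgroups -/
theorem l1' (G : Type) [Group G] [Finite G] (l : ℕ) (hl : l.Prime) (b : ℕ) (hb : Part l b G)
    (U : Subgroup G) (hU : HypP l U) (g : G) (hg : g ∈ U) (hgo : (orderOf g).Coprime l)
    (S : AddSubgroup (G → ℂ)) (F : G → ℂ) (ζ : U → ℂ)
    (hζ : ∀ u x : U, ζ (x * u * x⁻¹) = ζ u)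
    (hF : ∀ u : U, Subgroup.zpowers ((u : G) ^ b) = Subgroup.zpowers g → F u = ζ u)
    (hS : ∀ (V : Subgroup G) (hV : V ≤ U), (∀ v ∈ V, v ^ b ∈ Subgroup.zpowers g) →
      ind V (fun v => ζ ⟨(v : G), hV v.2⟩) ∈ S) :
    ind U (genl b g F U) ∈ satl l hl S := by
  classical
  obtain ⟨c, hc, hn, hp⟩ := hU
  set g' : U := ⟨g, hg⟩ with hg'
  have hgc : Subgroup.zpowers g' ≤ Subgroup.zpowers c := by
    rw [Subgroup.zpowers_le]
    obtain ⟨k, hk⟩ := hp g'
    have h1 : (orderOf g').Coprime (l ^ k) := by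
      have h2 : orderOf g' = orderOf g := by rw [← Subgroup.orderOf_coe]
      rw [h2]
      exact hgo.pow_right k
    have h2 : g' ∈ Subgroup.zpowers (g' ^ (l ^ k)) := by
      obtain ⟨m, hm⟩ := exists_pow_eq_self_of_coprime h1.symm
      exact ⟨m, by simpa using hm⟩
    exact (Subgroup.zpowers_le.2 hk) h2
  have h1 := ind_gen' hl (part_sub hb U) c hn _ (Subgroup.zpowers g') hgc rfl
  obtain ⟨n, hn0, h2⟩ := h1
  refine ⟨n, hn0, ?_⟩
  let m : (U → ℂ) →+ (G → ℂ) := AddMonoidHom.mk' (fun ψ => ind U (fun u => ψ u * ζ u)) (fun x y => by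
    rw [← ind_add]
    congr 1
    funext u
    change (x u + y u) * ζ u = x u * ζ u + y u * ζ u
    ring)
  have h3 : SolQ (Prt b (Subgroup.zpowers g')) ≤ S.comap m := by
    rw [SolQ, AddSubgroup.closure_le]
    rintro f ⟨V, hVp, rfl⟩
    rw [SetLike.mem_coe, AddSubgroup.mem_comap]
    have h4 : (fun u : U => ind V (fun _ => (1 : ℂ)) u * ζ u) = ind V (fun v => ζ (v : U)) := by
      funext u
      rw [← ind_mul V (fun _ => (1 : ℂ)) hζ u]
      simp only [one_mul]
    change ind U (fun u : U => ind V (fun _ => (1 : ℂ)) u * ζ u) ∈ S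
    rw [h4, ind_ind]
    have hV : V.map U.subtype ≤ U := by
      rintro x ⟨y, _, rfl⟩
      exact y.2
    have h5 : tr U V (fun v => ζ (v : U)) = fun v : V.map U.subtype => ζ ⟨(v : G), hV v.2⟩ := by
      funext v
      change ζ ((V.equivMapOfInjective U.subtype U.subtype_injective).symm v : U) = ζ ⟨(v : G), hV v.2⟩
      have h6 := (V.equivMapOfInjective U.subtype U.subtype_injective).apply_symm_apply v
      have h7 : ((V.equivMapOfInjective U.subtype U.subtype_injective).symm v : U) = ⟨(v : G), hV v.2⟩ := by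
        apply Subtype.ext
        have h8 : (((V.equivMapOfInjective U.subtype U.subtype_injective)
            ((V.equivMapOfInjective U.subtype U.subtype_injective).symm v) : V.map U.subtype) : G) = (v : G) := by
          rw [h6]
        rw [Subgroup.coe_equivMapOfInjective_apply] at h8
        exact h8
      rw [h7]
    rw [h5]
    refine hS _ hV ?_
    rintro x ⟨y, hy, rfl⟩
    obtain ⟨j, hj⟩ := hVp y hy
    refine ⟨j, ?_⟩
    have h6 : g' ^ j = y ^ b := hj
    exact congrArg Subtype.val h6
  have h4 := h3 h2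
  rw [AddSubgroup.mem_comap, map_nsmul] at h4
  have h5 : m (fun u : U => if Subgroup.zpowers (u ^ b) = Subgroup.zpowers g' then (1 : ℂ) else 0) =
      ind U (genl b g F U) := by
    change ind U (fun u : U => (if Subgroup.zpowers (u ^ b) = Subgroup.zpowers g' then (1 : ℂ) else 0) * ζ u) = _
    congr 1
    funext u
    have h6 : Subgroup.zpowers (u ^ b) = Subgroup.zpowers g' ↔
        Subgroup.zpowers ((u : G) ^ b) = Subgroup.zpowers g := by
      rw [← (Subgroup.map_injective U.subtype_injective).eq_iff, MonoidHom.map_zpowers, MonoidHom.map_zpowers]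
      rfl
    unfold genl
    by_cases h7 : Subgroup.zpowers ((u : G) ^ b) = Subgroup.zpowers g
    · rw [if_pos (h6.2 h7), if_pos h7, one_mul, hF u h7]
    · rw [if_neg (fun h8 => h7 (h6.1 h8)), if_neg h7, zero_mul]
  rw [h5] at h4
  exact h4

end Pool.Agent.Run7.h508.SQ
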