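import Mathlib
import Pool.Agent.K4H34.NC.Rho
import Pool.Agent.K4H34.NC.L3
import Pool.Agent.K4H34.NC.G1L
import Pool.Agent.Run7.h508.SQ.Cnt

/-!
# The local values of a character at a prime `l`
-/

set_option autoImplicit false
set_option linter.unusedSectionVars false

namespace Pool.Agent.Run7.h508.SQ

open NumberField NumberField.ComplexEmbedding Polynomial Pool.Agent.R389 Pool.Agent.K4H74.ST
  Pool.Agent.K4H77.SL Pool.Agent.H302R2 Pool.Agent.H302R3 Pool.Agent.K4H34.ST Pool.Agent.K4H34.NC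
open scoped Pointwise

section ctx

variable {L L₀ N₁ M : Type} [Field L] [NumberField L] [IsGalois ℚ L] [Field L₀] [NumberField L₀]
  [IsGalois ℚ L₀] [Field N₁] [NumberField N₁] [IsGalois ℚ N₁] [Field M] [NumberField M]
  [IsGalois ℚ M] [Algebra L₀ N₁] [Algebra N₁ M] [Algebra L M]

/-- two primes with decomposition elements which agree on `N₁` and are not trivial on `L₀` -/
theorem wd0 {s t : ℕ} (hst : s ∣ t) (hB : Schm L₀ N₁ t) {Q Q' : Ideal (𝓞 M)} (hQ : Q.IsMaximal)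
    (hQ' : Q'.IsMaximal) (hsQ : (s : 𝓞 M) ∈ Q) (htQ' : (t : 𝓞 M) ∈ Q') {σ σ' : M ≃ₐ[ℚ] M}
    (hσQ : σ ∈ decomp ℚ Q) (hσQ' : σ' ∈ decomp ℚ Q') (h1 : rq N₁ M σ = rq N₁ M σ')
    (h0 : rq L₀ N₁ (rq N₁ M σ) ≠ 1) :
    (s : 𝓞 M) ∈ Q' ∧ ∃ y : M ≃ₐ[ℚ] M, y • Q' = Q ∧ rq L₀ N₁ (rq N₁ M y) = 1 := by
  let _ : Algebra L₀ M := ((algebraMap N₁ M).comp (algebraMap L₀ N₁)).toAlgebra
  have htow : IsScalarTower L₀ N₁ M := IsScalarTower.of_algebraMap_eq fun x => rfl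
  have hgal : IsGalois L₀ M := IsGalois.tower_top_of_isGalois ℚ L₀ M
  have htQ : (t : 𝓞 M) ∈ Q := by
    obtain ⟨k, rfl⟩ := hst
    rw [Nat.cast_mul]
    exact Q.mul_mem_right _ hsQ
  have h2 := hB (rq N₁ M σ) _ _ (comap_max (E := N₁) hQ) (comap_max (E := N₁) hQ')
    ((nat_mem_comap t).mpr htQ) ((nat_mem_comap t).mpr htQ') (decomp_res hσQ)
    (h1 ▸ decomp_res hσQ') h0
  have hcomp : algebraMap (𝓞 L₀) (𝓞 M) = (algebraMap (𝓞 N₁) (𝓞 M)).comp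
      (algebraMap (𝓞 L₀) (𝓞 N₁)) := by
    apply RingHom.ext
    intro x
    apply RingOfIntegers.ext
    rfl
  have h3 : Q.comap (algebraMap (𝓞 L₀) (𝓞 M)) = Q'.comap (algebraMap (𝓞 L₀) (𝓞 M)) := by
    rw [hcomp, ← Ideal.comap_comap, ← Ideal.comap_comap]
    exact h2
  have hsQ' : (s : 𝓞 M) ∈ Q' := by
    rw [← nat_mem_comap (E := L₀), ← h3, nat_mem_comap]
    exact hsQ
  refine ⟨hsQ', ?_⟩
  let P := Q.comap (algebraMap (𝓞 L₀) (𝓞 M))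
  have hPm : P.IsMaximal := comap_max (E := L₀) hQ
  have hQp : Q.IsPrime := hQ.isPrime
  have hQp' : Q'.IsPrime := hQ'.isPrime
  have hl1 : Q.LiesOver P := ⟨rfl⟩
  have hl2 : Q'.LiesOver P := ⟨h3⟩
  have hfin : FiniteDimensional L₀ M := Module.Finite.of_restrictScalars_finite ℚ L₀ M
  obtain ⟨y, hy⟩ := Ideal.exists_smul_eq_of_isGaloisGroup P Q' Q (M ≃ₐ[L₀] M)
  refine ⟨y.restrictScalars ℚ, ?_, ?_⟩
  · rw [← hy]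
    ext x
    rw [Ideal.mem_pointwise_smul_iff_inv_smul_mem, Ideal.mem_pointwise_smul_iff_inv_smul_mem]
    have : ((y.restrictScalars ℚ)⁻¹ • x : 𝓞 M) = y⁻¹ • x := by
      apply RingOfIntegers.ext
      rfl
    rw [this]
  · rw [rq_eq_one]
    intro x
    apply (algebraMap N₁ M).injective
    rw [rq_apply]
    exact y.commutes x

/-- `x` is a local value at `τ` -/
def IsV (s b : ℕ) (L L₀ N₁ M : Type) [Field L] [NumberField L] [IsGalois ℚ L] [Field L₀]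
    [NumberField L₀] [IsGalois ℚ L₀] [Field N₁] [NumberField N₁] [IsGalois ℚ N₁] [Field M]
    [NumberField M] [IsGalois ℚ M] [Algebra L₀ N₁] [Algebra N₁ M] [Algebra L M]
    (τ : N₁ ≃ₐ[ℚ] N₁) (x : L ≃ₐ[ℚ] L) : Prop :=
  ∃ Q : Ideal (𝓞 M), Q.IsMaximal ∧ (s : 𝓞 M) ∈ Q ∧
    (∃ σ ∈ decomp ℚ Q, rq N₁ M σ = τ ^ b) ∧ rq L₀ N₁ (τ ^ b) ≠ 1 ∧
    ∃ σ ∈ decomp ℚ Q, rq L₀ N₁ (rq N₁ M σ) = rq L₀ N₁ τ ∧ rq L M σ = x

lemma IsV.unique {s t b : ℕ} (hst : s ∣ t) (hA : LocA L L₀ N₁ M s) (hB : Schm L₀ N₁ t)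
    {τ : N₁ ≃ₐ[ℚ] N₁} {x x' : L ≃ₐ[ℚ] L} (h : IsV s b L L₀ N₁ M τ x)
    (h' : IsV s b L L₀ N₁ M τ x') : ∃ y : L ≃ₐ[ℚ] L, x = y * x' * y⁻¹ := by
  obtain ⟨Q, hQ, hsQ, ⟨σ, hσ, hστ⟩, h0, σ₁, hσ₁, h1, rfl⟩ := h
  obtain ⟨Q', hQ', hsQ', ⟨σ', hσ', hστ'⟩, -, σ₁', hσ₁', h1', rfl⟩ := h'
  have htQ' : (t : 𝓞 M) ∈ Q' := by
    obtain ⟨k, rfl⟩ := hst
    rw [Nat.cast_mul]
    exact Q'.mul_mem_right _ hsQ'
  obtain ⟨-, y, hy, hy0⟩ := wd0 (L₀ := L₀) (N₁ := N₁) hst hB hQ hQ' hsQ htQ' hσ hσ'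
    (by rw [hστ, hστ']) (by rw [hστ]; exact h0)
  have h4 : y * σ₁' * y⁻¹ ∈ decomp ℚ Q := by
    rw [← hy]
    exact decomp_conj hσ₁'
  have h6 : rq L₀ N₁ (rq N₁ M (σ₁⁻¹ * (y * σ₁' * y⁻¹))) = 1 := by
    simp only [map_mul, map_inv, hy0, h1, h1']
    group
  have h7 := hA _ ⟨Q, hQ, hsQ, decomp_mul (decomp_inv hσ₁) h4⟩ h6
  refine ⟨rq L M y, ?_⟩
  rw [map_mul, map_inv, inv_mul_eq_one] at h7
  rw [h7, map_mul, map_mul, map_inv]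

lemma IsV.conj {s b : ℕ} {τ : N₁ ≃ₐ[ℚ] N₁} {x : L ≃ₐ[ℚ] L} (h : IsV s b L L₀ N₁ M τ x)
    (y : M ≃ₐ[ℚ] M) :
    IsV s b L L₀ N₁ M (rq N₁ M y * τ * (rq N₁ M y)⁻¹) (rq L M y * x * (rq L M y)⁻¹) := by
  obtain ⟨Q, hQ, hsQ, ⟨σ, hσ, hστ⟩, h0, σ₁, hσ₁, h1, rfl⟩ := h
  refine ⟨y • Q, smul_max hQ, nat_mem_smul hsQ, ⟨y * σ * y⁻¹, decomp_conj hσ, ?_⟩, ?_,
    y * σ₁ * y⁻¹, decomp_conj hσ₁, ?_, ?_⟩
  · rw [conj_pow, map_mul, map_mul, map_inv, hστ]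
  · rw [conj_pow, map_mul, map_mul, map_inv]
    intro h
    apply h0
    rw [mul_inv_eq_one] at h
    exact mul_eq_left.mp h
  · simp only [map_mul, map_inv, h1]
  · simp only [map_mul, map_inv]

open Classical in
/-- the local values -/
noncomputable def thB (s b : ℕ) (χ : (L ≃ₐ[ℚ] L) → ℂ) (L₀ N₁ M : Type) [Field L₀]
    [NumberField L₀] [IsGalois ℚ L₀] [Field N₁] [NumberField N₁] [IsGalois ℚ N₁] [Field M]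
    [NumberField M] [IsGalois ℚ M] [Algebra L₀ N₁] [Algebra N₁ M] [Algebra L M]
    (τ : N₁ ≃ₐ[ℚ] N₁) : ℂ :=
  if h : ∃ x : L ≃ₐ[ℚ] L, IsV s b L L₀ N₁ M τ x then χ h.choose - χ 1 else 0

variable {χ : (L ≃ₐ[ℚ] L) → ℂ} {s t b : ℕ}

lemma thB_eq (hχ : ∀ g x, χ (x * g * x⁻¹) = χ g) (hst : s ∣ t) (hA : LocA L L₀ N₁ M s)
    (hB : Schm L₀ N₁ t) {τ : N₁ ≃ₐ[ℚ] N₁} {x : L ≃ₐ[ℚ] L} (h : IsV s b L L₀ N₁ M τ x) :
    thB s b χ L₀ N₁ M τ = χ x - χ 1 := by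
  have h' : ∃ x : L ≃ₐ[ℚ] L, IsV s b L L₀ N₁ M τ x := ⟨x, h⟩
  rw [thB, dif_pos h']
  obtain ⟨y, hy⟩ := IsV.unique hst hA hB h'.choose_spec h
  rw [hy, hχ]

lemma thB_zero {τ : N₁ ≃ₐ[ℚ] N₁} (h : ¬ ∃ x : L ≃ₐ[ℚ] L, IsV s b L L₀ N₁ M τ x) :
    thB s b χ L₀ N₁ M τ = 0 := by
  rw [thB, dif_neg h]

lemma thB_class (hχ : ∀ g x, χ (x * g * x⁻¹) = χ g) (hst : s ∣ t) (hA : LocA L L₀ N₁ M s)
    (hB : Schm L₀ N₁ t) (τ x : N₁ ≃ₐ[ℚ] N₁) :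
    thB s b χ L₀ N₁ M (x * τ * x⁻¹) = thB s b χ L₀ N₁ M τ := by
  have hfin : FiniteDimensional ℚ M := inferInstance
  obtain ⟨y, rfl⟩ := AlgEquiv.restrictNormalHom_surjective (F := ℚ) (K₁ := N₁) M x
  change thB s b χ L₀ N₁ M (rq N₁ M y * τ * (rq N₁ M y)⁻¹) = _
  by_cases h : ∃ x : L ≃ₐ[ℚ] L, IsV s b L L₀ N₁ M τ x
  · obtain ⟨x, hx⟩ := h
    rw [thB_eq hχ hst hA hB (hx.conj y), thB_eq hχ hst hA hB hx, hχ]
  · rw [thB_zero h, thB_zero]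
    rintro ⟨x, hx⟩
    have h2 := hx.conj y⁻¹
    rw [map_inv] at h2
    have h3 : (rq N₁ M y)⁻¹ * (rq N₁ M y * τ * (rq N₁ M y)⁻¹) * (rq N₁ M y)⁻¹⁻¹ = τ := by group
    rw [h3] at h2
    exact h ⟨_, h2⟩

/-- the homomorphism given by a decomposition element -/
theorem key_rho' {l : ℕ} (hl : l.Prime) (hst : s ∣ t)
    (hA : LocA L L₀ N₁ M s) (hB : Schm L₀ N₁ t)
    {G : Type} [Group G] [Finite G] (π : G →* (N₁ ≃ₐ[ℚ] N₁)) {U : Subgroup G}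
    (hU : HypP l U) {g : G} (hgU : g ∈ U) (hg : (orderOf g).Coprime l)
    {σ : M ≃ₐ[ℚ] M} (hσ : Dec s σ) (h1 : rq N₁ M σ = π g) (h0 : rq L₀ N₁ (π g) ≠ 1)
    (hχ : ∀ g x, χ (x * g * x⁻¹) = χ g) :
    ∃ ρ : U →* (L ≃ₐ[ℚ] L), (∀ u : U, rq L₀ N₁ (π u) = 1 → ρ u = 1) ∧
      (∀ u : U, Subgroup.zpowers ((u : G) ^ b) = Subgroup.zpowers g →
        thB s b χ L₀ N₁ M (π u) = χ (ρ u) - χ 1) ∧
      ∃ QL : Ideal (𝓞 L), QL.IsMaximal ∧ (s : 𝓞 L) ∈ QL ∧ ∀ u, ρ u ∈ decomp ℚ QL := by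
  obtain ⟨Q, hQ, hsQ, hσQ⟩ := hσ
  have hP : (Q.comap (algebraMap (𝓞 N₁) (𝓞 M))).IsMaximal := comap_max (E := N₁) hQ
  have htP : (t : 𝓞 N₁) ∈ Q.comap (algebraMap (𝓞 N₁) (𝓞 M)) := by
    rw [nat_mem_comap]
    obtain ⟨k, rfl⟩ := hst
    rw [Nat.cast_mul]
    exact Q.mul_mem_right _ hsQ
  have hgP : π g ∈ decomp ℚ (Q.comap (algebraMap (𝓞 N₁) (𝓞 M))) := by
    rw [← h1]
    exact decomp_res hσQ
  have hdec : ∀ u ∈ U, rq L₀ N₁ (π u) ∈ decomp ℚ ((Q.comap (algebraMap (𝓞 N₁) (𝓞 M))).comap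
      (algebraMap (𝓞 L₀) (𝓞 N₁))) := by
    intro u hu
    obtain ⟨i, hi⟩ := hyp_conj hl hU hgU hg hu
    refine dec_of_conj hB (u := π g) ?_ hP htP hgP h0
    refine ⟨i, ?_⟩
    change (π u * π g * (π u)⁻¹) ^ i = π g
    rw [← map_inv, ← map_mul, ← map_mul, ← map_zpow]
    exact congrArg π hi
  obtain ⟨ρ, hρ⟩ := l3 L L₀ N₁ M s hA Q hQ hsQ U ((rq L₀ N₁).comp (π.comp U.subtype))
    (fun u => hdec u u.2)
  refine ⟨ρ, fun u hu => ?_, fun u hu => ?_, Q.comap (algebraMap (𝓞 L) (𝓞 M)),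
    comap_max (E := L) hQ, (nat_mem_comap s).mpr hsQ, fun u => ?_⟩
  · rw [hρ u 1 (decomp_one Q) (by rw [map_one, map_one]; exact hu.symm), map_one]
  swap
  · obtain ⟨σ₁, hσ₁, hσ₁0⟩ := lift_at (N₁ := N₁) hQ (hdec u u.2)
    rw [hρ u σ₁ hσ₁ hσ₁0]
    exact decomp_res hσ₁
  · obtain ⟨j, hj⟩ : (u : G) ^ b ∈ Subgroup.zpowers g := by
      rw [← hu]
      exact Subgroup.mem_zpowers _
    have hj' : g ^ j = (u : G) ^ b := hj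
    have e1 : rq N₁ M (σ ^ j) = (π u) ^ b := by rw [map_zpow, h1, ← map_zpow, hj', map_pow]
    have e2 : rq L₀ N₁ ((π u) ^ b) ≠ 1 := by
      intro h
      rw [← map_pow] at h
      exact h0 (map_eq_one_of_zpowers ((rq L₀ N₁).comp π) hu h)
    obtain ⟨σ₁, hσ₁, hσ₁0⟩ := lift_at (N₁ := N₁) hQ (hdec u u.2)
    have e3 : IsV s b L L₀ N₁ M (π u) (ρ u) := by
      refine ⟨Q, hQ, hsQ, ⟨σ ^ j, decomp_zpow hσQ j, e1⟩, e2, σ₁, hσ₁, hσ₁0, ?_⟩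
      exact (hρ u σ₁ hσ₁ hσ₁0).symm
    exact thB_eq hχ hst hA hB e3

/-- no local values -/
lemma thB_zero_of {G : Type} [Group G] (π : G →* (N₁ ≃ₐ[ℚ] N₁))
    {g u : G} (h : ¬ ∃ σ : M ≃ₐ[ℚ] M, rq N₁ M σ = π g ∧ Dec s σ ∧ rq L₀ N₁ (π g) ≠ 1)
    (hu : Subgroup.zpowers (u ^ b) = Subgroup.zpowers g) : thB s b χ L₀ N₁ M (π u) = 0 := by
  apply thB_zero
  rintro ⟨x, Q, hQ, hsQ, ⟨σ, hσ, hστ⟩, h0, -⟩
  apply h
  obtain ⟨k, hk⟩ : g ∈ Subgroup.zpowers (u ^ b) := by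
    rw [hu]
    exact Subgroup.mem_zpowers g
  have hk' : (u ^ b) ^ k = g := hk
  refine ⟨σ ^ k, by rw [map_zpow, hστ, ← map_pow, ← map_zpow, hk'],
    ⟨Q, hQ, hsQ, decomp_zpow hσ k⟩, fun h4 => h0 ?_⟩
  rw [← map_pow]
  exact map_eq_one_of_zpowers ((rq L₀ N₁).comp π) hu.symm h4

lemma thB_zero_one {τ : N₁ ≃ₐ[ℚ] N₁} (h : rq L₀ N₁ (τ ^ b) = 1) :
    thB s b χ L₀ N₁ M τ = 0 := by
  apply thB_zero
  rintro ⟨x, Q, hQ, hsQ, -, h0, -⟩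
  exact h0 h

/-- some multiple, by a number prime to `l`, of the `l`-local values is a virtual character -/
theorem thB_mem {l : ℕ} (hl : l.Prime) (hst : s ∣ t) (hA : LocA L L₀ N₁ M s)
    (hB : Schm L₀ N₁ t) (hb : Part l b (N₁ ≃ₐ[ℚ] N₁)) (hχc : IsChar χ) :
    (fun τ : N₁ ≃ₐ[ℚ] N₁ => thB s b χ L₀ N₁ M τ) ∈ satl l hl
      (AddSubgroup.closure {f : (N₁ ≃ₐ[ℚ] N₁) → ℂ |
        ∃ (V : Subgroup (N₁ ≃ₐ[ℚ] N₁)) (ψ : V →* ℂˣ), f = ind V (lc ψ)}) := by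
  have hfin : FiniteDimensional ℚ N₁ := inferInstance
  have hfinL : FiniteDimensional ℚ L := inferInstance
  have hχ : ∀ g x, χ (x * g * x⁻¹) = χ g := by
    obtain ⟨V, _, _, _, ρ, rfl⟩ := hχc
    intro g x
    exact ρ.char_conj g x
  obtain ⟨z, hz⟩ := char_one_int hχc
  refine g1l _ l hl b hb _ (fun τ x => thB_class hχ hst hA hB τ x) _ fun U hU g hgU hg => ?_
  by_cases h : ∃ σ : M ≃ₐ[ℚ] M, rq N₁ M σ = (MonoidHom.id (N₁ ≃ₐ[ℚ] N₁)) g ∧ Dec s σ ∧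
      rq L₀ N₁ ((MonoidHom.id (N₁ ≃ₐ[ℚ] N₁)) g) ≠ 1
  · obtain ⟨σ, h1, h2, h3⟩ := h
    obtain ⟨ρ, -, hρ, -⟩ := key_rho' (b := b) hl hst hA hB (MonoidHom.id _) hU hgU hg h2 h1 h3 hχ
    refine l1 _ l hl b hb U hU g hgU hg _ _ (fun u => χ (ρ u) - χ 1) ?_ ?_ ?_
    · intro u x
      simp only [map_mul, map_inv, hχ]
    · intro u hu
      exact hρ u hu
    · intro V hV
      have e1 : (fun v : V => χ (ρ ⟨(v : N₁ ≃ₐ[ℚ] N₁), hV v.2⟩) - χ 1)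
          = (fun v : V => χ (ρ (Subgroup.inclusion hV v))) - z • (lc (1 : V →* ℂˣ)) := by
        funext v
        rw [Pi.sub_apply, Pi.smul_apply, hz]
        simp [lc, Subgroup.inclusion]
      have hVH : HypP l V := hU.of_injective (Subgroup.inclusion hV)
        (Subgroup.inclusion_injective hV)
      have hVh : Hyper V := ⟨l, hl, hVH⟩
      have e2 := map_zsmul (indHom (k := ℂ) V) z (lc (1 : V →* ℂˣ))
      rw [indHom_apply, indHom_apply] at e2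
      have e3 : ind V (lc (1 : V →* ℂˣ)) ∈ AddSubgroup.closure {f : (N₁ ≃ₐ[ℚ] N₁) → ℂ |
          ∃ (V : Subgroup (N₁ ≃ₐ[ℚ] N₁)) (ψ : V →* ℂˣ), f = ind V (lc ψ)} :=
        AddSubgroup.subset_closure ⟨V, 1, rfl⟩
      rw [e1, ind_sub, e2]
      exact sub_mem (ind_hyper_mem hVh (Pool.Agent.K4H77.SL.IsChar.comp hχc
        (ρ.comp (Subgroup.inclusion hV)))) (zsmul_mem e3 z)
  · have h0 : genl b g (fun τ : N₁ ≃ₐ[ℚ] N₁ => thB s b χ L₀ N₁ M τ) U = 0 := by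
      funext x
      unfold genl
      split_ifs with hx
      · exact thB_zero_of (MonoidHom.id _) h hx
      · rfl
    rw [h0, ind_zero]
    exact zero_mem _

end ctx

end Pool.Agent.Run7.h508.SQ
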