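import Mathlib
import Pool.Agent.K4H34.NC.Core
import Pool.Agent.Run7.h508.SQ.Th
import Pool.Agent.Run7.h508.SQ.Ell

/-!
# One hyperelementary subgroup without complex conjugations
-/

set_option autoImplicit false
set_option linter.unusedSectionVars false

namespace Pool.Agent.Run7.h508.SQ

open NumberField NumberField.ComplexEmbedding Polynomial Pool.Agent.R389 Pool.Agent.K4H74.ST
  Pool.Agent.K4H77.SL Pool.Agent.H302R2 Pool.Agent.H302R3 Pool.Agent.K4H34.ST Pool.Agent.K4H34.NC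
open scoped Pointwise

lemma le_of_part {l b : ℕ} {G Γ : Type} [Group G] [Group Γ] (hb : Part l b G) (κ : G →* Γ) {u : G}
    (h : κ (u ^ b) = 1) : LE l (κ u) := by
  obtain ⟨k, hk⟩ := (hb u).2
  refine ⟨k, ?_⟩
  have h1 : κ u = κ (u * (u ^ b)⁻¹) := by
    rw [map_mul, map_inv, h, inv_one, mul_one]
  rw [h1, ← map_pow, hk, map_one]

section ctx

variable {L L₀ N₁ M N : Type} [Field L] [NumberField L] [IsGalois ℚ L] [Field L₀] [NumberField L₀]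
  [IsGalois ℚ L₀] [Field N₁] [NumberField N₁] [IsGalois ℚ N₁] [Field M] [NumberField M]
  [IsGalois ℚ M] [Field N] [NumberField N] [IsGalois ℚ N] [Algebra L₀ N₁] [Algebra N₁ M]
  [Algebra L M] [Algebra M N]

variable {Mg : Type} [CommGroup Mg] {A : ArtinInvariant Mg}

/-- decomposition elements of order prime to `l` -/
lemma all_dec {l t : ℕ} (hl : l.Prime) (hC : Schm M N t) {U : Subgroup (N ≃ₐ[ℚ] N)}
    (hU : HypP l U) {v : N ≃ₐ[ℚ] N} (hvU : v ∈ U) (hv : (orderOf v).Coprime l)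
    {Q : Ideal (𝓞 N)} (hQ : Q.IsMaximal) (htQ : (t : 𝓞 N) ∈ Q) (hvQ : v ∈ decomp ℚ Q)
    (hne : rq M N v ≠ 1) {u : N ≃ₐ[ℚ] N} (hu : u ∈ U) :
    rq M N u ∈ decomp ℚ (Q.comap (algebraMap (𝓞 M) (𝓞 N))) :=
  dec_of_conj hC (hyp_conj hl hU hvU hv hu) hQ htQ hvQ hne

lemma mem_of_dvd {F : Type} [Field F] [NumberField F] {s t : ℕ} (hst : s ∣ t) {Q : Ideal (𝓞 F)}
    (h : (s : 𝓞 F) ∈ Q) : (t : 𝓞 F) ∈ Q := by
  obtain ⟨k, rfl⟩ := hst
  rw [Nat.cast_mul]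
  exact Q.mul_mem_right _ h

/-- restriction to a subgroup whose decomposition elements at `s` are `l`-elements on `L` -/
lemma chi_ind {l j e b m s : ℕ} (hTE : TrivEll A m l j (2 * e)) (hms : m ∣ s)
    (hramL : ∀ P : Ideal (𝓞 L), P.IsMaximal → (∃ g ∈ inertia ℚ P, g ≠ 1) → (s : 𝓞 L) ∈ P)
    (heL : ∀ y : L ≃ₐ[ℚ] L, y ^ e = 1)
    (hJ : ∀ P : Ideal (𝓞 L), P.IsMaximal → (s : 𝓞 L) ∈ P → ∀ g ∈ decomp ℚ P, LE l g → g ^ j = 1)
    (hb : Part l b (N ≃ₐ[ℚ] N)) {χ : (L ≃ₐ[ℚ] L) → ℂ} (hχ : IsChar χ)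
    (r : (N ≃ₐ[ℚ] N) →* (L ≃ₐ[ℚ] L)) (hr : ∀ x, r x = rq L M (rq M N x))
    {V : Subgroup (N ≃ₐ[ℚ] N)} (hcx : ∀ c ∈ CC ℚ N, c ∉ V)
    (h : ∀ v ∈ V, ∀ Q : Ideal (𝓞 N), Q.IsMaximal → (s : 𝓞 N) ∈ Q → v ∈ decomp ℚ Q →
      r (v ^ b) = 1) :
    ind V (fun v => χ (r (v : N ≃ₐ[ℚ] N))) ∈ TT A (K := ℚ) (L := N) ⊥ := by
  have hfinL : FiniteDimensional ℚ L := inferInstance
  have hkey : ∀ (u : V) (Q : Ideal (𝓞 N)), Q.IsMaximal → (u : N ≃ₐ[ℚ] N) ∈ decomp ℚ Q →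
      (s : 𝓞 N) ∈ Q → LJ l j (r (u : N ≃ₐ[ℚ] N)) := by
    intro u Q hQ huQ hs
    have h1 : LE l (r (u : N ≃ₐ[ℚ] N)) := le_of_part hb r (h u u.2 Q hQ hs huQ)
    refine ⟨h1, hJ _ (comap_max (E := L) (comap_max (E := M) hQ)) ?_ _ ?_ h1⟩
    · rw [nat_mem_comap, nat_mem_comap]
      exact hs
    · rw [hr]
      exact decomp_res (decomp_res huQ)
  refine l2' hTE N V (fixed_complex V hcx) (L ≃ₐ[ℚ] L) (r.comp V.subtype) ?_ ?_ ?_ χ hχ
  · intro u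
    rw [mul_comm, pow_mul, heL, one_pow]
  · intro u Q hQ huQ hm
    exact hkey u Q hQ huQ (mem_of_dvd hms hm)
  · intro u Q hQ huQ
    by_cases hs : (s : 𝓞 N) ∈ Q
    · exact hkey u Q hQ (inertia_sub Q huQ) hs
    · have h1 : r (u : N ≃ₐ[ℚ] N) = 1 := by
        by_contra hne
        apply hs
        rw [← nat_mem_comap (E := M), ← nat_mem_comap (E := L)]
        apply hramL _ (comap_max (E := L) (comap_max (E := M) hQ))
        rw [hr] at hne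
        exact ⟨_, inertia_res (inertia_res huQ), hne⟩
      exact LJ.of_eq_one h1

/-- one hyperelementary subgroup without complex conjugations -/
theorem core_free {l j e b : ℕ} (hl : l.Prime) {m s t : ℕ} (hR : TrivOne A)
    (hTE : TrivEll A m l j (2 * e)) (hl2 : l = 2 → j = 0)
    (heL : ∀ y : L ≃ₐ[ℚ] L, y ^ e = 1)
    (hJ : ∀ P : Ideal (𝓞 L), P.IsMaximal → (s : 𝓞 L) ∈ P → ∀ g ∈ decomp ℚ P, LE l g → g ^ j = 1)
    (hms : m ∣ s) (hst : s ∣ t)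
    (hA : LocA L L₀ N₁ M s) (hB : Schm L₀ N₁ t) (hC : Schm M N t)
    (hramL : ∀ P : Ideal (𝓞 L), P.IsMaximal → (∃ g ∈ inertia ℚ P, g ≠ 1) → (s : 𝓞 L) ∈ P)
    (hram0 : ∀ P : Ideal (𝓞 L₀), (∃ g ∈ inertia ℚ P, g ≠ 1) → (t : 𝓞 L₀) ∈ P)
    (ε : (M ≃ₐ[ℚ] M) →* ℂˣ) (hε2 : ∀ σ, ε σ ^ 2 = 1) (η : 𝓞 M) (hεs : ∀ σ, Dec s σ → ε σ = 1)
    (hεi : ∀ (σ : M ≃ₐ[ℚ] M) (Q : Ideal (𝓞 M)), Q.IsMaximal → (t : 𝓞 M) ∉ Q →
        gi σ η - η ∈ Q → ε σ = 1)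
    (hb : Part l b (N ≃ₐ[ℚ] N)) {χ : (L ≃ₐ[ℚ] L) → ℂ} (hχ : IsChar χ)
    (r : (N ≃ₐ[ℚ] N) →* (L ≃ₐ[ℚ] L)) (hr : ∀ x, r x = rq L M (rq M N x))
    (π : (N ≃ₐ[ℚ] N) →* (N₁ ≃ₐ[ℚ] N₁)) (hπ : ∀ x, π x = rq N₁ M (rq M N x))
    {U : Subgroup (N ≃ₐ[ℚ] N)} (hU : HypP l U) {g : N ≃ₐ[ℚ] N} (hgU : g ∈ U)
    (hg : (orderOf g).Coprime l) (hcx : ∀ c ∈ CC ℚ N, c ∉ U) :
    ind U (genl b g (fun x => χ (r x) - ((ε (rq M N x) : ℂˣ) : ℂ) *
      thB s b χ L₀ N₁ M (π x)) U) ∈ satl l hl (TT A (K := ℚ) (L := N) ⊥) := by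
  have hfin : FiniteDimensional ℚ N := inferInstance
  have hfinM : FiniteDimensional ℚ M := inferInstance
  have hfinL : FiniteDimensional ℚ L := inferInstance
  have hχc : ∀ g x, χ (x * g * x⁻¹) = χ g := (IsChar.heil hχ).conj
  obtain ⟨z, hz⟩ := char_one_int hχ
  by_cases hcase : ∃ v ∈ Subgroup.zpowers g, ∃ Q : Ideal (𝓞 N), Q.IsMaximal ∧ (s : 𝓞 N) ∈ Q ∧
      v ∈ decomp ℚ Q ∧ rq M N v ≠ 1
  · obtain ⟨v, hvg, Q, hQ, hsQ, hvQ, hne⟩ := hcase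
    have hvU : v ∈ U := (Subgroup.zpowers_le.mpr hgU) hvg
    have hv : (orderOf v).Coprime l :=
      Nat.Coprime.coprime_dvd_left (orderOf_dvd_of_mem_zpowers hvg) hg
    have hall : ∀ u ∈ U, rq M N u ∈ decomp ℚ (Q.comap (algebraMap (𝓞 M) (𝓞 N))) :=
      fun u hu => all_dec hl hC hU hvU hv hQ (mem_of_dvd hst hsQ) hvQ hne hu
    have hQM : (Q.comap (algebraMap (𝓞 M) (𝓞 N))).IsMaximal := comap_max (E := M) hQ
    have hsM : (s : 𝓞 M) ∈ Q.comap (algebraMap (𝓞 M) (𝓞 N)) := (nat_mem_comap s).mpr hsQ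
    by_cases h0 : rq L₀ N₁ (π g) = 1
    · -- no local values
      have hgL : r g = 1 := by
        rw [hr]
        rw [hπ] at h0
        exact hA _ ⟨_, hQM, hsM, hall g hgU⟩ h0
      refine l1' _ l hl b hb U hU g hgU hg _ _ (fun u => χ (r u)) ?_ ?_ fun V hV hVb => ?_
      · intro u x
        simp only [Subgroup.coe_mul, Subgroup.coe_inv, map_mul, map_inv, hχc]
      · intro u hu
        have h1 : thB s b χ L₀ N₁ M (π (u : N ≃ₐ[ℚ] N)) = 0 := by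
          apply thB_zero_one
          rw [← map_pow]
          exact map_eq_one_of_zpowers ((rq L₀ N₁).comp π) hu.symm h0
        rw [h1, mul_zero, sub_zero]
      · refine chi_ind hTE hms hramL heL hJ hb hχ r hr (fun c hc hcV => hcx c hc (hV hcV)) ?_
        intro w hw Q' _ _ _
        obtain ⟨i, hi⟩ := hVb w hw
        have hi' : g ^ i = w ^ b := hi
        rw [← hi', map_zpow, hgL, one_zpow]
    · -- local values: the difference is constant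
      refine const_l l1 hl hb hR hU hgU hg (z := z) fun u hu => ?_
      have hε1 : ε (rq M N (u : N ≃ₐ[ℚ] N)) = 1 := hεs _ ⟨_, hQM, hsM, hall u u.2⟩
      have h1 : IsV s b L L₀ N₁ M (π (u : N ≃ₐ[ℚ] N)) (r u) := by
        refine ⟨_, hQM, hsM, ⟨rq M N ((u : N ≃ₐ[ℚ] N) ^ b), hall _ (U.pow_mem u.2 b), ?_⟩, ?_,
          rq M N (u : N ≃ₐ[ℚ] N), hall _ u.2, ?_, ?_⟩
        · rw [← map_pow, hπ]
        · rw [← map_pow]
          intro h
          exact h0 (map_eq_one_of_zpowers ((rq L₀ N₁).comp π) hu h)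
        · rw [hπ]
        · rw [hr]
      rw [thB_eq hχc hst hA hB h1, hε1, ← hz]
      simp
  have hone : ∀ w : N ≃ₐ[ℚ] N, w ^ b ∈ Subgroup.zpowers g → ∀ Q : Ideal (𝓞 N), Q.IsMaximal →
      (s : 𝓞 N) ∈ Q → w ∈ decomp ℚ Q → rq M N (w ^ b) = 1 := by
    intro w hw Q hQ hsQ hwQ
    by_contra hne
    exact hcase ⟨w ^ b, hw, Q, hQ, hsQ, decomp_pow hwQ b, hne⟩
  rw [genl_sub, ind_sub]
  refine sub_mem ?_ ?_
  · -- the part of `χ`
    refine l1' _ l hl b hb U hU g hgU hg _ _ (fun u => χ (r u)) ?_ (fun u _ => rfl)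
      fun V hV hVb => ?_
    · intro u x
      simp only [Subgroup.coe_mul, Subgroup.coe_inv, map_mul, map_inv, hχc]
    · refine chi_ind hTE hms hramL heL hJ hb hχ r hr (fun c hc hcV => hcx c hc (hV hcV)) ?_
      intro w hw Q hQ hsQ hwQ
      rw [hr, hone w (hVb w hw) Q hQ hsQ hwQ, map_one]
  · -- the part of the local values
    by_cases hw : ∃ σ : M ≃ₐ[ℚ] M, rq N₁ M σ = π g ∧ Dec s σ ∧ rq L₀ N₁ (π g) ≠ 1
    swap
    · refine const_l l1 hl hb hR hU hgU hg (z := 0) fun u hu => ?_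
      have h1 : thB s b χ L₀ N₁ M (π (u : N ≃ₐ[ℚ] N)) = 0 := thB_zero_of π hw hu
      rw [h1, mul_zero, Int.cast_zero]
    obtain ⟨σ, h1, h2, h3⟩ := hw
    obtain ⟨ρ, hρ1, hρ, QL, hQL, hsQL, hρQ⟩ := key_rho' (b := b) hl hst hA hB π hU hgU hg h2 h1 h3 hχc
    obtain ⟨Q₁, hQ₁, hsQ₁, hσQ₁⟩ := h2
    have hεf : Finite ε.range := by
      have : Set.Finite (Set.range ε) := Set.finite_range ε
      exact this
    refine l1' _ l hl b hb U hU g hgU hg _ _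
      (fun u => ((ε (rq M N (u : N ≃ₐ[ℚ] N)) : ℂˣ) : ℂ) * (χ (ρ u) - χ 1)) ?_ ?_
      fun V hV hVb => ?_
    · intro u x
      simp only [Subgroup.coe_mul, Subgroup.coe_inv, map_mul, map_inv, hχc]
      rw [mul_comm (ε (rq M N (x : N ≃ₐ[ℚ] N))), mul_inv_cancel_right]
    · intro u hu
      rw [hρ u hu]
    let κ : V →* ε.range × (L ≃ₐ[ℚ] L) :=
      ((ε.rangeRestrict).comp ((rq M N).comp V.subtype)).prod (ρ.comp (Subgroup.inclusion hV))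
    let ψ : ε.range × (L ≃ₐ[ℚ] L) →* ℂˣ := ε.range.subtype.comp (MonoidHom.fst _ _)
    have hζ0 : IsChar (fun y : ε.range × (L ≃ₐ[ℚ] L) =>
        χ (MonoidHom.snd ε.range (L ≃ₐ[ℚ] L) y)) :=
      Pool.Agent.K4H77.SL.IsChar.comp hχ (MonoidHom.snd ε.range (L ≃ₐ[ℚ] L))
    have hζ : IsChar (fun y : ε.range × (L ≃ₐ[ℚ] L) => ((ψ y : ℂˣ) : ℂ) * χ y.2) :=
      isChar_twist ψ hζ0
    have hζ' : IsChar (fun y : ε.range × (L ≃ₐ[ℚ] L) => ((ψ y : ℂˣ) : ℂ)) := IsChar.lc ψ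
    have hbV : Part l b V := hb.sub V
    have hbad : ∀ (u : V) (Q : Ideal (𝓞 N)), Q.IsMaximal → (u : N ≃ₐ[ℚ] N) ∈ decomp ℚ Q →
        (t : 𝓞 N) ∈ Q → LJ l j (κ u) := by
      intro u Q hQ huQ ht
      have hub : (u : N ≃ₐ[ℚ] N) ^ b ∈ Subgroup.zpowers g := hVb u u.2
      have hM1 : rq M N ((u : N ≃ₐ[ℚ] N) ^ b) = 1 := by
        by_contra hne
        have h5 : rq M N g ∈ decomp ℚ (Q.comap (algebraMap (𝓞 M) (𝓞 N))) :=
          all_dec hl hC hU (U.pow_mem (hV u.2) b) (hb _).1 hQ ht (decomp_pow huQ b) hne hgU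
        have h6 := (wd0 (L₀ := L₀) (N₁ := N₁) hst hB hQ₁ (comap_max (E := M) hQ) hsQ₁
          ((nat_mem_comap t).mpr ht) hσQ₁ h5 (by rw [h1, hπ]) (by rw [h1]; exact h3)).1
        exact hne (hone u hub Q hQ ((nat_mem_comap s).mp h6) huQ)
      have hLE : LE l (κ u) := by
        apply le_of_part hbV κ
        apply Prod.ext
        · apply Subtype.ext
          change ε (rq M N ((u : N ≃ₐ[ℚ] N) ^ b)) = 1
          rw [hM1, map_one]
        · change ρ (Subgroup.inclusion hV (u ^ b)) = 1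
          apply hρ1
          have h7 : π ((Subgroup.inclusion hV (u ^ b) : U) : N ≃ₐ[ℚ] N)
              = rq N₁ M (rq M N ((u : N ≃ₐ[ℚ] N) ^ b)) := hπ _
          rw [h7, hM1, map_one, map_one]
      refine ⟨hLE, ?_⟩
      have hLEr : LE l (ρ (Subgroup.inclusion hV u)) := hLE.map (MonoidHom.snd _ _)
      have hLEε : LE l (ε (rq M N (u : N ≃ₐ[ℚ] N))) :=
        (hLE.map (MonoidHom.fst _ _)).map ε.range.subtype
      apply Prod.ext
      · apply Subtype.ext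
        change (ε (rq M N (u : N ≃ₐ[ℚ] N))) ^ j = 1
        by_cases h2 : l = 2
        · rw [hl2 h2, pow_zero]
        · obtain ⟨k, hk⟩ := hLEε
          have h8 : ε (rq M N (u : N ≃ₐ[ℚ] N)) = 1 := unit_one hk (hε2 _)
            (Nat.Coprime.pow_left k ((Nat.coprime_primes hl Nat.prime_two).mpr h2))
          rw [h8, one_pow]
      · exact hJ QL hQL hsQL _ (hρQ _) hLEr
    have hpart : ∀ ζ : ε.range × (L ≃ₐ[ℚ] L) → ℂ, IsChar ζ →
        ind V (fun u => ζ (κ u)) ∈ TT A (K := ℚ) (L := N) ⊥ := by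
      intro ζ hζ
      refine l2' hTE N V (fixed_complex V fun c hc hcV => hcx c hc (hV hcV)) _ κ ?_ ?_ ?_ ζ hζ
      · intro u
        apply Prod.ext
        · apply Subtype.ext
          change (ε (rq M N (u : N ≃ₐ[ℚ] N))) ^ (2 * e) = 1
          rw [pow_mul, hε2, one_pow]
        · change (ρ (Subgroup.inclusion hV u)) ^ (2 * e) = 1
          rw [mul_comm, pow_mul, heL, one_pow]
      · intro u Q hQ huQ hm
        exact hbad u Q hQ huQ (mem_of_dvd hst (mem_of_dvd hms hm))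
      · intro u Q hQ huQ
        by_cases ht : (t : 𝓞 N) ∈ Q
        · exact hbad u Q hQ (inertia_sub Q huQ) ht
        apply LJ.of_eq_one
        apply Prod.ext
        · apply Subtype.ext
          change ε (rq M N (u : N ≃ₐ[ℚ] N)) = 1
          refine hεi _ (Q.comap (algebraMap (𝓞 M) (𝓞 N))) (comap_max hQ) ?_ (inertia_res huQ η)
          rw [nat_mem_comap]
          exact ht
        · change ρ (Subgroup.inclusion hV u) = 1
          apply hρ1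
          by_contra hne
          apply ht
          rw [← nat_mem_comap (E := M), ← nat_mem_comap (E := N₁), ← nat_mem_comap (E := L₀)]
          apply hram0
          have h7 : π ((Subgroup.inclusion hV u : U) : N ≃ₐ[ℚ] N)
            = rq N₁ M (rq M N (u : N ≃ₐ[ℚ] N)) := hπ _
          rw [h7] at hne
          exact ⟨_, inertia_res (inertia_res (inertia_res huQ)), hne⟩
    have e1 : (fun v : V => ((ε (rq M N ((⟨(v : N ≃ₐ[ℚ] N), hV v.2⟩ : U) : N ≃ₐ[ℚ] N)) : ℂˣ) : ℂ) *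
        (χ (ρ ⟨(v : N ≃ₐ[ℚ] N), hV v.2⟩) - χ 1))
        = (fun v : V => (fun y : ε.range × (L ≃ₐ[ℚ] L) => ((ψ y : ℂˣ) : ℂ) * χ y.2) (κ v))
          - z • (fun v : V => (fun y : ε.range × (L ≃ₐ[ℚ] L) => ((ψ y : ℂˣ) : ℂ)) (κ v)) := by
      funext v
      rw [Pi.sub_apply, Pi.smul_apply, hz, zsmul_eq_mul]
      change ((ε (rq M N (v : N ≃ₐ[ℚ] N)) : ℂˣ) : ℂ) * (χ (ρ (Subgroup.inclusion hV v)) - z)
        = ((ε (rq M N (v : N ≃ₐ[ℚ] N)) : ℂˣ) : ℂ) * χ (ρ (Subgroup.inclusion hV v))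
          - z * ((ε (rq M N (v : N ≃ₐ[ℚ] N)) : ℂˣ) : ℂ)
      ring
    have e2 := map_zsmul (indHom (k := ℂ) V) z
      (fun v : V => (fun y : ε.range × (L ≃ₐ[ℚ] L) => ((ψ y : ℂˣ) : ℂ)) (κ v))
    rw [indHom_apply, indHom_apply] at e2
    rw [e1, ind_sub, e2]
    exact sub_mem (hpart _ hζ) (zsmul_mem (hpart _ hζ') z)

end ctx

end Pool.Agent.Run7.h508.SQ
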