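import Mathlib
import Pool.Agent.K4H74.ST.Fin

/-!
# Twists of characters of `2`-power order inside `2`-extensions
-/

set_option autoImplicit false
set_option linter.unusedSectionVars false

namespace Pool.Agent.Run7.h508.SQ

open NumberField NumberField.ComplexEmbedding Pool.Agent.R389 Pool.Agent.K4H74.ST

/-- the Galois group is a `2`-group -/
def P2 (K L : Type) [Field K] [Field L] [Algebra K L] : Prop :=
  ∀ g : L ≃ₐ[K] L, ∃ k : ℕ, g ^ (2 ^ k) = 1

/-- a finite `2`-extension, Galois over the base, which contains square roots of given elements -/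
theorem exists_ext₂ (K L : Type) [Field K] [NumberField K] [Field L] [NumberField L] [Algebra K L]
    [IsGalois K L] (hP : P2 K L) (A : Finset L) :
    ∃ (N : Type) (_ : Field N) (_ : NumberField N) (_ : Algebra K N) (_ : Algebra L N)
      (_ : IsScalarTower K L N) (_ : IsGalois K N), P2 K N ∧
      ∀ a ∈ A, ∃ w : N, w * w = algebraMap L N a := by
  classical
  obtain ⟨N, i1, i2, i3, i4, i5, i6, hN⟩ := exists_ext K L A
  have hfin : FiniteDimensional K N := Module.Finite.of_restrictScalars_finite ℚ K N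
  let S : Set N := {x | ∃ y : L, x * x = algebraMap L N y}
  let T : IntermediateField K N := IntermediateField.adjoin K S
  have hres : ∀ (g : N ≃ₐ[K] N) (x : L), algebraMap L N (AlgEquiv.restrictNormalHom L g x)
      = g (algebraMap L N x) := fun g x => res_apply g x
  have hST : S ⊆ T := IntermediateField.subset_adjoin K S
  have hT1 : Normal K T := by
    rw [IntermediateField.normal_iff_forall_map_le']
    intro σ
    rw [IntermediateField.adjoin_map, IntermediateField.adjoin_le_iff]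
    rintro _ ⟨x, ⟨y, hy⟩, rfl⟩
    refine hST ⟨AlgEquiv.restrictNormalHom L σ y, ?_⟩
    rw [hres, ← hy, map_mul]
    rfl
  have hT2 : IsGalois K T := ⟨⟩
  have hL : ∀ y : L, algebraMap L N y ∈ T := fun y => hST ⟨y * y, by rw [map_mul]⟩
  let i : L →+* T := (algebraMap L N).codRestrict T.toSubfield.toSubring hL
  let _ : Algebra L T := i.toAlgebra
  have hi : ∀ y : L, ((algebraMap L T y : T) : N) = algebraMap L N y := fun y => rfl
  have htow : IsScalarTower K L T := IsScalarTower.of_algebraMap_eq fun x => by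
    apply Subtype.ext
    rw [hi, ← IsScalarTower.algebraMap_apply]
    rfl
  refine ⟨T, inferInstance, inferInstance, inferInstance, inferInstance, htow, hT2, ?_, ?_⟩
  · intro g
    obtain ⟨h, rfl⟩ := AlgEquiv.restrictNormalHom_surjective (F := K) (K₁ := T) N g
    obtain ⟨k, hk⟩ := hP (AlgEquiv.restrictNormalHom L h)
    refine ⟨k + 1, ?_⟩
    have h1 : ∀ x ∈ S, (h ^ (2 ^ k) * h ^ (2 ^ k)) x = x := by
      rintro x ⟨y, hy⟩
      have h2 : (h ^ (2 ^ k)) (x * x) = x * x := by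
        rw [hy, ← hres, map_pow, hk]
        rfl
      rcases pm_of_sq h2 with h3 | h3
      · change (h ^ (2 ^ k)) ((h ^ (2 ^ k)) x) = x
        rw [h3, h3]
      · change (h ^ (2 ^ k)) ((h ^ (2 ^ k)) x) = x
        rw [h3, map_neg, h3, neg_neg]
    have h2 : h ^ (2 ^ k) * h ^ (2 ^ k) ∈ T.fixingSubgroup := by
      rw [IntermediateField.mem_fixingSubgroup_iff]
      have h3 : T ≤ IntermediateField.fixedField (Subgroup.zpowers (h ^ (2 ^ k) * h ^ (2 ^ k))) := by
        rw [IntermediateField.adjoin_le_iff]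
        rintro x hx ⟨g, hg⟩
        have h4 : g ∈ MulAction.stabilizer (N ≃ₐ[K] N) x := by
          refine (Subgroup.zpowers_le.mpr ?_) hg
          rw [MulAction.mem_stabilizer_iff]
          exact h1 x hx
        exact h4
      intro x hx
      exact h3 hx ⟨_, Subgroup.mem_zpowers _⟩
    have h4 : h ^ (2 ^ (k + 1)) = h ^ (2 ^ k) * h ^ (2 ^ k) := by
      rw [← pow_add, pow_succ, mul_two]
    apply AlgEquiv.ext
    intro x
    rw [← map_pow, h4]
    apply (algebraMap T N).injective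
    rw [res_apply (K := K) (L := T) (N := N) (h ^ (2 ^ k) * h ^ (2 ^ k)) x]
    exact h2 x
  · intro a ha
    obtain ⟨w, hw⟩ := hN a ha
    refine ⟨⟨w, hST ⟨a, hw⟩⟩, ?_⟩
    apply Subtype.ext
    exact hw

section

variable {K L : Type} [Field K] [NumberField K] [Field L] [NumberField L] [Algebra K L]
  [IsGalois K L]

/-- **The extension for a linear character of `2`-power order.** -/
theorem exists_tower₂ (hP : P2 K L) (ψ : (L ≃ₐ[K] L) →* ℂˣ) (k : ℕ) (hψ : ∀ g, ψ g ^ (2 ^ k) = 1)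
    (hψC : ∀ c ∈ CC K L, ψ c = 1) (Y : Set (K →+* ℂ)) :
    ∃ (N : Type) (_ : Field N) (_ : NumberField N) (_ : Algebra K N) (_ : Algebra L N)
      (_ : IsScalarTower K L N) (_ : IsGalois K N), P2 K N ∧
      ∃ η : (N ≃ₐ[K] N) →* ℂˣ, Sg η ∧
        (∀ (φ : N →+* ℂ) (c : N ≃ₐ[K] N), IsConj φ c →
          (η c = -1 ↔ φ.comp (algebraMap K N) ∈ Y)) ∧
        lc (ψ.comp (AlgEquiv.restrictNormalHom L) * η) - lc (ψ.comp (AlgEquiv.restrictNormalHom L))
          - lc η + lc 1 ∈ JJ (CC K N) := by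
  classical
  let L₀ : IntermediateField K L := IntermediateField.fixedField ψ.ker
  have hL₀ : NumberField L₀ := inferInstance
  let S : Set (L₀ →+* ℂ) := {s | ∃ κ ∈ Y, s = ComplexEmbedding.lift L₀ κ}
  obtain ⟨α, hα⟩ := exists_sign L₀ S
  obtain ⟨N, i1, i2, i3, i4, i5, i6, hPN, hN⟩ := exists_ext₂ K L hP {(α : L), -1}
  obtain ⟨w, hw⟩ := hN (α : L) (by simp)
  obtain ⟨j, hj⟩ := hN (-1) (by simp)
  rw [map_neg, map_one] at hj
  refine ⟨N, i1, i2, i3, i4, i5, i6, hPN, ?_⟩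
  obtain ⟨s₀, hs₀, hX₀⟩ := odd_i (K := K) hj
  let π : (N ≃ₐ[K] N) →* (L ≃ₐ[K] L) := AlgEquiv.restrictNormalHom L
  have hπ : ∀ (g : N ≃ₐ[K] N) (x : L), algebraMap L N (π g x) = g (algebraMap L N x) :=
    fun g x => res_apply g x
  have hfin : FiniteDimensional K L := Module.Finite.of_restrictScalars_finite ℚ K L
  have hfinN : FiniteDimensional K N := Module.Finite.of_restrictScalars_finite ℚ K N
  have hker : ∀ h : L ≃ₐ[K] L, ψ h = 1 ↔ ∀ x : L₀, h x = x := by
    intro h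
    constructor
    · intro hh x
      exact x.2 ⟨h, hh⟩
    · intro hh
      have h1 : h ∈ L₀.fixingSubgroup := by
        rw [IntermediateField.mem_fixingSubgroup_iff]
        intro x hx
        exact hh ⟨x, hx⟩
      rw [IntermediateField.fixingSubgroup_fixedField] at h1
      exact h1
  let ψ' : (N ≃ₐ[K] N) →* ℂˣ := ψ.comp π
  have hkerα : ∀ g : N ≃ₐ[K] N, ψ' g = 1 → g (w * w) = w * w := by
    intro g hg
    rw [hw, ← hπ, (hker _).mp hg α]
  -- the real embeddings of `L₀`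
  let ρ : (N →+* ℂ) → (L₀ →+* ℂ) := fun φ => (φ.comp (algebraMap L N)).comp (algebraMap L₀ L)
  have hρ : ∀ (φ : N →+* ℂ) (c : N ≃ₐ[K] N), IsConj φ c → IsReal (ρ φ) := by
    intro φ c hφ
    have h1 := isConj_res (L := L) hφ
    have h2 : ψ (π c) = 1 := hψC _ (CC_res ⟨φ, hφ⟩)
    ext x
    have h3 := (hker _).mp h2 x
    change star (φ (algebraMap L N (x : L))) = φ (algebraMap L N (x : L))
    rw [← hφ.eq, ← hπ, h3]
  have hρw : ∀ φ : N →+* ℂ, φ (w * w) = ρ φ α := by
    intro φ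
    rw [hw]
    rfl
  have hρK : ∀ φ : N →+* ℂ, (ρ φ).comp (algebraMap K L₀) = φ.comp (algebraMap K N) := by
    intro φ
    ext x
    change φ (algebraMap L N (algebraMap L₀ L (algebraMap K L₀ x))) = φ (algebraMap K N x)
    rw [← IsScalarTower.algebraMap_apply K L₀ L, ← IsScalarTower.algebraMap_apply K L N]
  have key : ∀ (φ : N →+* ℂ) (c : N ≃ₐ[K] N), IsConj φ c → (sgn w c = -1 ↔ ρ φ ∈ S) := by
    intro φ c hφ
    have h1 := hρ φ c hφ
    have h2 := hα (ρ φ) h1
    have h3 : (φ (w * w)).im = 0 := by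
      rw [hρw, ← Complex.conj_eq_iff_im]
      exact RingHom.congr_fun h1 α
    constructor
    · intro h
      by_contra hcon
      have h4 := h2.2 hcon
      rw [← hρw] at h4
      rw [sgn_eq_neg] at h
      exact h (sqrt_pos hφ h3 h4)
    · intro h
      have h4 := h2.1 h
      rw [← hρw] at h4
      rw [sgn_eq_neg, sqrt_neg hφ h3 h4]
      intro h5
      have h6 : w = 0 := self_eq_neg.mp h5.symm
      rw [h6] at h4
      simp at h4
  have hres : ∀ (φ : N →+* ℂ), ρ φ ∈ S → φ.comp (algebraMap K N) ∈ Y ∧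
      ρ φ = ComplexEmbedding.lift L₀ (φ.comp (algebraMap K N)) := by
    rintro φ ⟨κ, hκ, h⟩
    have h1 : φ.comp (algebraMap K N) = κ := by
      rw [← hρK, h, ComplexEmbedding.lift_comp_algebraMap]
    rw [h1]
    exact ⟨hκ, h⟩
  have hφσ : ∀ (φ : N →+* ℂ) (σ : N ≃ₐ[K] N),
      (φ.comp (σ : N →+* N)).comp (algebraMap K N) = φ.comp (algebraMap K N) := by
    intro φ σ
    ext x
    change φ (σ (algebraMap K N x)) = _
    rw [AlgEquiv.commutes]
    rfl
  obtain ⟨η, hη, hηX, hrel⟩ := tower k (N ≃ₐ[K] N) (CC K N) (fun x hx g => CC_conj hx g) s₀ hs₀ hX₀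
    ψ' (fun g => hψ _) (fun x hx => hψC _ (CC_res hx)) (sgn w)
    (fun a b ha hb => sgn_mul (pm_of_sq (hkerα a ha)) (pm_of_sq (hkerα b hb)))
    (fun a _ => sgn_sg w a) (by
      rintro c ⟨φ, hφ⟩ σ τ hσ hτ
      have h1 := (hres _ ((key _ _ (hφ.comp σ)).mp hσ)).2
      have h2 := (hres _ ((key _ _ (hφ.comp τ)).mp hτ)).2
      rw [hφσ] at h1 h2
      have h3 := h1.trans h2.symm
      have h4 : ψ' (τ⁻¹ * σ) = 1 := by
        change ψ (π (τ⁻¹ * σ)) = 1
        rw [hker]
        intro x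
        have h5 : φ (σ (algebraMap L N (x : L))) = φ (τ (algebraMap L N (x : L))) :=
          RingHom.congr_fun h3 x
        apply (algebraMap L N).injective
        rw [hπ]
        change τ⁻¹ (σ (algebraMap L N (x : L))) = _
        rw [φ.injective h5]
        change (τ⁻¹ * τ) _ = _
        rw [inv_mul_cancel]
        rfl
      rw [map_mul, map_inv, inv_mul_eq_one] at h4
      exact h4.symm)
  refine ⟨η, hη, fun φ c hφ => ?_, hrel⟩
  rw [hηX c ⟨φ, hφ⟩]
  constructor
  · rintro ⟨σ, hσ⟩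
    have h1 := (hres _ ((key _ _ (hφ.comp σ)).mp hσ)).1
    rwa [hφσ] at h1
  · intro hY
    let κ : K →+* ℂ := φ.comp (algebraMap K N)
    let s : L₀ →+* ℂ := ComplexEmbedding.lift L₀ κ
    let sL : L →+* ℂ := ComplexEmbedding.lift L s
    let sN : N →+* ℂ := ComplexEmbedding.lift N sL
    have h1 : ρ sN = s := by
      change (sN.comp (algebraMap L N)).comp (algebraMap L₀ L) = s
      rw [ComplexEmbedding.lift_comp_algebraMap, ComplexEmbedding.lift_comp_algebraMap]
    have h2 : φ.comp (algebraMap K N) = sN.comp (algebraMap K N) := by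
      rw [← hρK sN, h1, ComplexEmbedding.lift_comp_algebraMap]
    obtain ⟨σ, hσ⟩ := ComplexEmbedding.exists_comp_symm_eq_of_comp_eq (k := K) φ sN h2
    refine ⟨σ.symm, (key _ _ (hφ.comp σ.symm)).mpr ?_⟩
    have h3 : (φ.comp ((σ.symm : N ≃ₐ[K] N) : N →+* N)) = sN := hσ
    rw [h3, h1]
    exact ⟨κ, hY, rfl⟩

/-- **Twisting by sign characters.** -/
theorem exists_twist₂ (hP : P2 K L) (ψ : (L ≃ₐ[K] L) →* ℂˣ) (k : ℕ) (hψ : ∀ g, ψ g ^ (2 ^ k) = 1)
    (Y : Set (K →+* ℂ)) :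
    ∃ (N : Type) (_ : Field N) (_ : NumberField N) (_ : Algebra K N) (_ : Algebra L N)
      (_ : IsScalarTower K L N) (_ : IsGalois K N), P2 K N ∧
      ∃ η ε : (N ≃ₐ[K] N) →* ℂˣ, Sg η ∧ Sg ε ∧
        (∀ (φ : N →+* ℂ) (c : N ≃ₐ[K] N), IsConj φ c →
          (η c = -1 ↔ φ.comp (algebraMap K N) ∈ Y)) ∧
        lc (ψ.comp (AlgEquiv.restrictNormalHom L) * η) - lc (ψ.comp (AlgEquiv.restrictNormalHom L))
          - lc (η * ε) + lc ε ∈ JJ (CC K N) := by
  classical
  let Y₁ : Set (K →+* ℂ) := {κ | ∃ (φ : L →+* ℂ) (c : L ≃ₐ[K] L), IsConj φ c ∧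
    φ.comp (algebraMap K L) = κ ∧ ψ c = -1}
  obtain ⟨a, ha⟩ := exists_sign K Y₁
  obtain ⟨N₁, i1, i2, i3, i4, i5, i6, hPN₁, hN₁⟩ := exists_ext₂ K L hP {algebraMap K L a}
  obtain ⟨w, hw⟩ := hN₁ (algebraMap K L a) (Finset.mem_singleton_self _)
  rw [← IsScalarTower.algebraMap_apply] at hw
  have hwf : ∀ g : N₁ ≃ₐ[K] N₁, g (w * w) = w * w := fun g => by rw [hw, AlgEquiv.commutes]
  let ε₁ : (N₁ ≃ₐ[K] N₁) →* ℂˣ := sgnHom w hwf
  have hε₁ : Sg ε₁ := sgnHom_sg w hwf
  let π₁ : (N₁ ≃ₐ[K] N₁) →* (L ≃ₐ[K] L) := AlgEquiv.restrictNormalHom L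
  have hψsq : ∀ (φ : L →+* ℂ) (c : L ≃ₐ[K] L), IsConj φ c → ψ c = 1 ∨ ψ c = -1 := by
    intro φ c hc
    have h1 : ψ c * ψ c = 1 := by rw [← map_mul, isConj_sq hc, map_one]
    have h2 : ((ψ c : ℂˣ) : ℂ) * ((ψ c : ℂˣ) : ℂ) = 1 := by
      rw [← Units.val_mul, h1, Units.val_one]
    rcases mul_self_eq_one_iff.mp h2 with h3 | h3
    · left; exact Units.ext h3
    · right; exact Units.ext (by rw [h3]; simp)
  have hεψ : ∀ c ∈ CC K N₁, ε₁ c = ψ (π₁ c) := by
    rintro c ⟨φ, hφ⟩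
    have hφL : IsConj (φ.comp (algebraMap L N₁)) (π₁ c) := isConj_res hφ
    let κ : K →+* ℂ := φ.comp (algebraMap K N₁)
    have hκ : (φ.comp (algebraMap L N₁)).comp (algebraMap K L) = κ := by
      ext x
      change φ (algebraMap L N₁ (algebraMap K L x)) = φ (algebraMap K N₁ x)
      rw [← IsScalarTower.algebraMap_apply K L N₁]
    have hκr : IsReal κ := hφ.isReal_comp
    have h1 := ha κ hκr
    have h2 : φ (w * w) = κ a := by rw [hw]; rfl
    have h3 : (φ (w * w)).im = 0 := by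
      rw [h2, ← Complex.conj_eq_iff_im]
      exact RingHom.congr_fun hκr a
    have hmem : κ ∈ Y₁ ↔ ψ (π₁ c) = -1 := by
      constructor
      · rintro ⟨φ', c', hc', hκ', hψ'⟩
        obtain ⟨σ, hσ⟩ := ComplexEmbedding.exists_comp_symm_eq_of_comp_eq (k := K)
          (φ.comp (algebraMap L N₁)) φ' (by rw [hκ, hκ'])
        have h4 := hφL.comp σ.symm
        have h5 : ((φ.comp (algebraMap L N₁)).comp ((σ.symm : L ≃ₐ[K] L) : L →+* L)) = φ' := hσ
        rw [h5] at h4
        have h6 := h4.ext hc'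
        rw [← hψ', ← h6, map_mul, map_mul, map_inv, mul_comm (ψ σ.symm)⁻¹, mul_assoc,
          inv_mul_cancel, mul_one]
      · intro h
        exact ⟨_, _, hφL, hκ, h⟩
    rcases hψsq _ _ hφL with h4 | h4
    · rw [h4]
      change sgn w c = 1
      have h5 : κ ∉ Y₁ := fun h => by
        rw [hmem, h4] at h
        exact neg_one_ne h.symm
      rw [sgn_eq_one]
      exact sqrt_pos hφ h3 (by rw [h2]; exact h1.2 h5)
    · rw [h4]
      change sgn w c = -1
      have h5 := h1.1 (hmem.mpr h4)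
      rw [← h2] at h5
      rw [sgn_eq_neg, sqrt_neg hφ h3 h5]
      intro h6
      have h7 : w = 0 := self_eq_neg.mp h6.symm
      rw [h7] at h5
      simp at h5
  let ψe : (N₁ ≃ₐ[K] N₁) →* ℂˣ := ψ.comp π₁ * ε₁
  have hψe : ∀ g, ψe g ^ (2 ^ (k + 1)) = 1 := by
    intro g
    change (ψ (π₁ g) * ε₁ g) ^ (2 ^ (k + 1)) = 1
    rw [mul_pow, pow_succ, pow_mul, hψ, one_pow, one_mul, mul_comm, pow_mul]
    rcases hε₁ g with h | h <;> rw [h] <;> simp
  have hψeC : ∀ c ∈ CC K N₁, ψe c = 1 := by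
    intro c hc
    change ψ (π₁ c) * ε₁ c = 1
    rw [← hεψ c hc]
    rcases hε₁ c with h | h <;> rw [h] <;> simp
  obtain ⟨N, j1, j2, j3, j4, j5, j6, hPN, η, hη, hηY, hrel⟩ := exists_tower₂ hPN₁ ψe (k + 1) hψe hψeC Y
  let iLN : L →+* N := (algebraMap N₁ N).comp (algebraMap L N₁)
  let _ : Algebra L N := iLN.toAlgebra
  have hLN : ∀ x, algebraMap L N x = algebraMap N₁ N (algebraMap L N₁ x) := fun x => rfl
  have hKLN : IsScalarTower K L N := by
    refine IsScalarTower.of_algebraMap_eq fun x => ?_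
    rw [hLN, ← IsScalarTower.algebraMap_apply K L N₁, ← IsScalarTower.algebraMap_apply K N₁ N]
  have hres : ∀ g : N ≃ₐ[K] N, π₁ (AlgEquiv.restrictNormalHom N₁ g)
      = AlgEquiv.restrictNormalHom L g := by
    intro g
    ext x
    apply (algebraMap L N).injective
    rw [res_apply, hLN, hLN]
    have h1 := res_apply (L := L) (AlgEquiv.restrictNormalHom N₁ g) x
    change algebraMap N₁ N (algebraMap L N₁ (AlgEquiv.restrictNormalHom L
      (AlgEquiv.restrictNormalHom N₁ g) x)) = _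
    rw [h1, res_apply]
  let ε : (N ≃ₐ[K] N) →* ℂˣ := ε₁.comp (AlgEquiv.restrictNormalHom N₁)
  have hε : Sg ε := fun g => hε₁ _
  refine ⟨N, j1, j2, j3, inferInstance, hKLN, j6, hPN, η, ε, hη, hε, hηY, ?_⟩
  have h1 := tw_JJ ε hrel
  convert h1 using 1
  funext g
  have h2 : ((ε g : ℂˣ) : ℂ) * ((ε g : ℂˣ) : ℂ) = 1 := by
    rcases hε g with h | h <;> rw [h] <;> simp
  have h3 : (ψe.comp (AlgEquiv.restrictNormalHom N₁)) g
      = ψ (AlgEquiv.restrictNormalHom L g) * ε g := by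
    rw [← hres]
    rfl
  simp only [Pi.add_apply, Pi.sub_apply, lc, MonoidHom.mul_apply, Units.val_mul, MonoidHom.one_apply,
    Units.val_one, h3]
  rw [MonoidHom.comp_apply]
  linear_combination (-((ψ (AlgEquiv.restrictNormalHom L g) : ℂˣ) : ℂ) * ((η g : ℂˣ) : ℂ)
    + ((ψ (AlgEquiv.restrictNormalHom L g) : ℂˣ) : ℂ)) * h2

end

end Pool.Agent.Run7.h508.SQ
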