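import Mathlib
import Pool.Agent.Run7.h508.SQ.Tw

/-!
# Inductive invariants on the linear characters of `2`-power order
-/

set_option autoImplicit false
set_option linter.unusedSectionVars false

namespace Pool.Agent.Run7.h508.SQ

open NumberField NumberField.ComplexEmbedding Pool.Agent.R389 Pool.Agent.K4H74.ST

variable {M : Type} [CommGroup M] (A : ArtinInvariant M)

/-- the invariant is trivial on the faithful linear characters of the cyclic `2`-extensions of the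
totally complex fields -/
def Triv2 : Prop :=
  ∀ (K L : Type) [Field K] [NumberField K] [Field L] [NumberField L] [Algebra K L] [IsGalois K L],
    IsTotallyComplex K → P2 K L → ∀ ψ : (L ≃ₐ[K] L) →* ℂˣ, Function.Injective ψ →
      A.val K L (lc ψ) = 1

/-- the invariant is trivial on the faithful linear characters, with trivial `e`-th power, of the
cyclic extensions of `2`-power degree `≥ 4`, unramified at infinity, of the fields which are neither
totally real nor totally complex -/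
def TrivMixedE (e : ℕ) : Prop :=
  ∀ (K L : Type) [Field K] [NumberField K] [Field L] [NumberField L] [Algebra K L] [IsGalois K L],
    ¬ IsTotallyReal K → ¬ IsTotallyComplex K →
      (∃ l : ℕ, Nat.card (L ≃ₐ[K] L) = 2 ^ (l + 2)) →
      (∀ (φ : L →+* ℂ) (c : L ≃ₐ[K] L), IsConj φ c → c = 1) →
      ∀ ψ : (L ≃ₐ[K] L) →* ℂˣ, Function.Injective ψ → ψ ^ e = 1 →
      A.val K L (lc ψ) = 1

section

variable {A}

variable {K L : Type} [Field K] [NumberField K] [Field L] [NumberField L] [Algebra K L]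
  [IsGalois K L]

lemma P2.exp (hP : P2 K L) : ∃ k : ℕ, ∀ g : L ≃ₐ[K] L, g ^ (2 ^ k) = 1 := by
  have hfin : FiniteDimensional K L := Module.Finite.of_restrictScalars_finite ℚ K L
  have hp : IsPGroup 2 (L ≃ₐ[K] L) := hP
  have : Fact (Nat.Prime 2) := ⟨Nat.prime_two⟩
  obtain ⟨l, hl⟩ := hp.exists_card_eq
  refine ⟨l, fun g => ?_⟩
  rw [← hl, pow_card_eq_one']

lemma P2.quot (hP : P2 K L) (E : Type) [Field E] [NumberField E] [Algebra K E] [Algebra E L]
    [IsScalarTower K E L] [IsGalois K E] : P2 K E := by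
  have hfin : FiniteDimensional K L := Module.Finite.of_restrictScalars_finite ℚ K L
  intro g
  obtain ⟨h, rfl⟩ := AlgEquiv.restrictNormalHom_surjective (F := K) (K₁ := E) L g
  obtain ⟨k, hk⟩ := hP h
  exact ⟨k, by rw [← map_pow, hk, map_one]⟩

lemma P2.sub (hP : P2 K L) (H : Subgroup (L ≃ₐ[K] L)) : P2 (IntermediateField.fixedField H) L := by
  intro g
  obtain ⟨k, hk⟩ := hP (g.restrictScalars K)
  refine ⟨k, ?_⟩
  have h7 : ∀ (n : ℕ) (x : L), (g ^ n) x = ((g.restrictScalars K) ^ n) x := by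
    intro n
    induction n with
    | zero => intro x; rfl
    | succ n ih =>
      intro x
      rw [pow_succ, pow_succ]
      exact ih (g x)
  ext x
  rw [h7, hk]
  rfl

/-- linear characters over totally complex fields -/
lemma val_complex₂ (hC : Triv2 A) (hP : P2 K L) (hK : IsTotallyComplex K)
    (ψ : (L ≃ₐ[K] L) →* ℂˣ) : A.val K L (lc ψ) = 1 := by
  obtain ⟨E, i1, i2, i3, i4, i5, i6, θ, hθ, hψ⟩ := lin_red K L ψ
  have h1 : ψ = θ.comp (AlgEquiv.restrictNormalHom E) := by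
    ext g
    rw [← hψ]
    rfl
  have hfin : FiniteDimensional K E := Module.Finite.of_restrictScalars_finite ℚ K E
  rw [h1, val_lin_res]
  exact hC K E hK (hP.quot E) θ hθ

lemma JJ_le₂ (hC : Triv2 A) (hP : P2 K L) : JJ (CC K L) ≤ TT A (K := K) (L := L) ⊥ := by
  rw [JJ, AddSubgroup.closure_le]
  rintro f ⟨H, ψ, hH, rfl⟩
  have hfin : FiniteDimensional K L := Module.Finite.of_restrictScalars_finite ℚ K L
  rw [SetLike.mem_coe, mem_TT_char A (IsChar.ind_lin H ψ), Subgroup.mem_bot]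
  obtain ⟨ψ', hψ'⟩ := ind_fixed_lin H ψ
  rw [hψ', A.val_ind K (IntermediateField.fixedField H) L (lc ψ') (IsChar.lc ψ')]
  exact val_complex₂ hC (hP.sub H) (fixed_complex H hH) ψ'

/-- the value does not change under twists by sign characters of an extension -/
lemma val_twist₂ (hR : TrivOne A) (hC : Triv2 A) (hP : P2 K L) (ψ : (L ≃ₐ[K] L) →* ℂˣ) (k : ℕ)
    (hψ : ∀ g, ψ g ^ (2 ^ k) = 1) (Y : Set (K →+* ℂ)) :
    ∃ (N : Type) (_ : Field N) (_ : NumberField N) (_ : Algebra K N) (_ : Algebra L N)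
      (_ : IsScalarTower K L N) (_ : IsGalois K N) (η : (N ≃ₐ[K] N) →* ℂˣ), P2 K N ∧ Sg η ∧
        (∀ (φ : N →+* ℂ) (c : N ≃ₐ[K] N), IsConj φ c →
          (η c = -1 ↔ φ.comp (algebraMap K N) ∈ Y)) ∧
        A.val K L (lc ψ) = A.val K N (lc (ψ.comp (AlgEquiv.restrictNormalHom L) * η)) := by
  obtain ⟨N, i1, i2, i3, i4, i5, i6, hPN, η, ε, hη, hε, hY, hrel⟩ := exists_twist₂ hP ψ k hψ Y
  refine ⟨N, i1, i2, i3, i4, i5, i6, η, hPN, hη, hY, ?_⟩
  have h1 := JJ_le₂ hC hPN hrel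
  let ψ' : (N ≃ₐ[K] N) →* ℂˣ := ψ.comp (AlgEquiv.restrictNormalHom L)
  have h2 : lc (ψ' * η) - lc ψ' - lc (η * ε) + lc ε
      = (lc (ψ' * η) + lc ε) - (lc ψ' + lc (η * ε)) := by abel
  change lc (ψ' * η) - lc ψ' - lc (η * ε) + lc ε ∈ _ at h1
  rw [h2] at h1
  have h3 := val_eq_of_sub A ((IsChar.lc _).add (IsChar.lc _)) ((IsChar.lc _).add (IsChar.lc _)) h1
  rw [A.val_add K N _ _ (IsChar.lc _) (IsChar.lc _), A.val_add K N _ _ (IsChar.lc _) (IsChar.lc _),
    val_sign hR hε, val_sign hR (hη.mul hε), mul_one, mul_one] at h3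
  rw [← val_lin_res (A := A) (N := N) ψ]
  exact h3.symm

/-- linear characters: the square of the value -/
lemma val_lin_sq₂ (hR : TrivOne A) (hC : Triv2 A) (hP : P2 K L) (ψ : (L ≃ₐ[K] L) →* ℂˣ) :
    A.val K L (lc ψ) ^ 2 = 1 := by
  obtain ⟨k, hk⟩ := hP.exp
  obtain ⟨ψ₂, hψ₂, h1⟩ : ∃ ψ₂ : (L ≃ₐ[K] L) →* ℂˣ, (∀ g, ψ₂ g ^ (2 ^ k) = 1) ∧
      A.val K L (lc ψ) = A.val K L (lc ψ₂) := ⟨ψ, fun g => by rw [← map_pow, hk, map_one], rfl⟩
  obtain ⟨N, i1, i2, i3, i4, i5, i6, η, hPN, hη, hY, h2⟩ := val_twist₂ hR hC hP ψ₂ k hψ₂ Set.univ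
  have hodd : ∀ c ∈ CC K N, η c = -1 := by
    rintro c ⟨φ, hφ⟩
    exact (hY φ c hφ).mpr (Set.mem_univ _)
  have hfinN : FiniteDimensional K N := Module.Finite.of_restrictScalars_finite ℚ K N
  have h3 := JJ_le₂ hC hPN (odd_JJ hη hodd (ψ₂.comp (AlgEquiv.restrictNormalHom L)))
  rw [mem_TT_char A ((IsChar.lc _).add (IsChar.lc _)), Subgroup.mem_bot,
    A.val_add K N _ _ (IsChar.lc _) (IsChar.lc _), ← h2, val_lin_res] at h3
  rw [h1, pow_two]
  exact h3

/-- linear characters over totally real fields -/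
lemma val_lin_real₂ (hR : TrivOne A) (hC : Triv2 A) (hP : P2 K L) (hO : TrivOdd A)
    (hK : IsTotallyReal K) (ψ : (L ≃ₐ[K] L) →* ℂˣ) : A.val K L (lc ψ) = 1 := by
  obtain ⟨k, hk⟩ := hP.exp
  obtain ⟨ψ₂, hψ₂, h1⟩ : ∃ ψ₂ : (L ≃ₐ[K] L) →* ℂˣ, (∀ g, ψ₂ g ^ (2 ^ k) = 1) ∧
      A.val K L (lc ψ) = A.val K L (lc ψ₂) := ⟨ψ, fun g => by rw [← map_pow, hk, map_one], rfl⟩
  let Y : Set (K →+* ℂ) := {κ | ∃ (φ : L →+* ℂ) (c : L ≃ₐ[K] L), IsConj φ c ∧
    φ.comp (algebraMap K L) = κ ∧ ψ₂ c = 1}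
  obtain ⟨N, i1, i2, i3, i4, i5, i6, η, hPN, hη, hY, h2⟩ := val_twist₂ hR hC hP ψ₂ k hψ₂ Y
  rw [h1, h2]
  refine hO K N hK _ fun φ c hφ => ?_
  have hφL : IsConj (φ.comp (algebraMap L N)) (AlgEquiv.restrictNormalHom L c) := isConj_res hφ
  have hκ : (φ.comp (algebraMap L N)).comp (algebraMap K L) = φ.comp (algebraMap K N) := by
    ext x
    change φ (algebraMap L N (algebraMap K L x)) = φ (algebraMap K N x)
    rw [← IsScalarTower.algebraMap_apply K L N]
  have h3 : ψ₂ (AlgEquiv.restrictNormalHom L c) = 1 ∨ ψ₂ (AlgEquiv.restrictNormalHom L c) = -1 := by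
    have h4 : ψ₂ (AlgEquiv.restrictNormalHom L c) * ψ₂ (AlgEquiv.restrictNormalHom L c) = 1 := by
      rw [← map_mul, isConj_sq hφL, map_one]
    have h5 : ((ψ₂ (AlgEquiv.restrictNormalHom L c) : ℂˣ) : ℂ)
        * ((ψ₂ (AlgEquiv.restrictNormalHom L c) : ℂˣ) : ℂ) = 1 := by
      rw [← Units.val_mul, h4, Units.val_one]
    rcases mul_self_eq_one_iff.mp h5 with h6 | h6
    · left; exact Units.ext h6
    · right; exact Units.ext (by rw [h6]; simp)
  have h7 : ψ₂ (AlgEquiv.restrictNormalHom L c) * η c = -1 := by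
    rcases h3 with h3 | h3
    · have h8 : η c = -1 := (hY φ c hφ).mpr ⟨_, _, hφL, hκ, h3⟩
      rw [h3, h8, one_mul]
    · have h8 : η c = 1 := by
        refine (hη c).resolve_right fun h9 => ?_
        obtain ⟨φ', c', hc', hκ', hψ'⟩ := (hY φ c hφ).mp h9
        have h10 := conj_same ψ₂ hφL hc' (by rw [hκ, hκ'])
        rw [h3, hψ'] at h10
        exact neg_one_ne h10
      rw [h3, h8, mul_one]
  rw [MonoidHom.mul_apply, MonoidHom.comp_apply, h7]

/-- linear characters over fields which are neither totally real nor totally complex -/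
lemma val_lin_mixed₂ {e : ℕ} (hR : TrivOne A) (hC : Triv2 A) (hP : P2 K L)
    (he : ∀ g : L ≃ₐ[K] L, g ^ e = 1) (hM : TrivMixedE A e)
    (hK : ¬ IsTotallyReal K) (hK' : ¬ IsTotallyComplex K) (ψ : (L ≃ₐ[K] L) →* ℂˣ) :
    A.val K L (lc ψ) = 1 := by
  by_cases hev : ¬ 2 ∣ e
  · have h1 : ∀ g : L ≃ₐ[K] L, g = 1 := by
      intro g
      obtain ⟨k, hk⟩ := hP g
      exact unit_one hk (he g) (Nat.Coprime.pow_left k ((Nat.Prime.coprime_iff_not_dvd Nat.prime_two).mpr hev))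
    apply val_sign hR
    intro g
    left
    rw [h1 g, map_one]
  rw [not_not] at hev
  obtain ⟨k, hk⟩ := hP.exp
  obtain ⟨ψ₂, hψ₂, hψe, h1⟩ : ∃ ψ₂ : (L ≃ₐ[K] L) →* ℂˣ, (∀ g, ψ₂ g ^ (2 ^ k) = 1) ∧
      (∀ g, ψ₂ g ^ e = 1) ∧ A.val K L (lc ψ) = A.val K L (lc ψ₂) :=
    ⟨ψ, fun g => by rw [← map_pow, hk, map_one], fun g => by rw [← map_pow, he, map_one], rfl⟩
  let Y : Set (K →+* ℂ) := {κ | ∃ (φ : L →+* ℂ) (c : L ≃ₐ[K] L), IsConj φ c ∧
    φ.comp (algebraMap K L) = κ ∧ ψ₂ c = -1}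
  obtain ⟨N, i1, i2, i3, i4, i5, i6, η, hPN, hη, hY, h2⟩ := val_twist₂ hR hC hP ψ₂ k hψ₂ Y
  rw [h1, h2]
  let ξ : (N ≃ₐ[K] N) →* ℂˣ := ψ₂.comp (AlgEquiv.restrictNormalHom L) * η
  have hξ : ∀ g, ξ g ^ (2 ^ (k + 1)) = 1 := by
    intro g
    change (ψ₂ (AlgEquiv.restrictNormalHom L g) * η g) ^ (2 ^ (k + 1)) = 1
    rw [mul_pow, pow_succ, pow_mul, hψ₂, one_pow, one_mul, mul_comm, pow_mul]
    rcases hη g with h | h <;> rw [h] <;> simp
  have hξe : ∀ g, ξ g ^ e = 1 := by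
    intro g
    change (ψ₂ (AlgEquiv.restrictNormalHom L g) * η g) ^ e = 1
    obtain ⟨e', rfl⟩ := hev
    rw [mul_pow, hψe, one_mul, pow_mul]
    rcases hη g with h | h <;> rw [h] <;> simp
  have hξC : ∀ (φ : N →+* ℂ) (c : N ≃ₐ[K] N), IsConj φ c → ξ c = 1 := by
    intro φ c hφ
    have hφL : IsConj (φ.comp (algebraMap L N)) (AlgEquiv.restrictNormalHom L c) := isConj_res hφ
    have hκ : (φ.comp (algebraMap L N)).comp (algebraMap K L) = φ.comp (algebraMap K N) := by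
      ext x
      change φ (algebraMap L N (algebraMap K L x)) = φ (algebraMap K N x)
      rw [← IsScalarTower.algebraMap_apply K L N]
    have h3 : ψ₂ (AlgEquiv.restrictNormalHom L c) = 1
        ∨ ψ₂ (AlgEquiv.restrictNormalHom L c) = -1 := by
      have h4 : ψ₂ (AlgEquiv.restrictNormalHom L c) * ψ₂ (AlgEquiv.restrictNormalHom L c) = 1 := by
        rw [← map_mul, isConj_sq hφL, map_one]
      have h5 : ((ψ₂ (AlgEquiv.restrictNormalHom L c) : ℂˣ) : ℂ)
          * ((ψ₂ (AlgEquiv.restrictNormalHom L c) : ℂˣ) : ℂ) = 1 := by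
        rw [← Units.val_mul, h4, Units.val_one]
      rcases mul_self_eq_one_iff.mp h5 with h6 | h6
      · left; exact Units.ext h6
      · right; exact Units.ext (by rw [h6]; simp)
    change ψ₂ (AlgEquiv.restrictNormalHom L c) * η c = 1
    rcases h3 with h3 | h3
    · have h8 : η c = 1 := by
        refine (hη c).resolve_right fun h9 => ?_
        obtain ⟨φ', c', hc', hκ', hψ'⟩ := (hY φ c hφ).mp h9
        have h10 := conj_same ψ₂ hφL hc' (by rw [hκ, hκ'])
        rw [h3, hψ'] at h10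
        exact neg_one_ne h10.symm
      rw [h3, h8, mul_one]
    · have h8 : η c = -1 := (hY φ c hφ).mpr ⟨_, _, hφL, hκ, h3⟩
      rw [h3, h8, neg_mul_neg, one_mul]
  obtain ⟨E, j1, j2, j3, j4, j5, j6, θ, hθ, hθξ⟩ := lin_red K N ξ
  have hfin : FiniteDimensional K E := Module.Finite.of_restrictScalars_finite ℚ K E
  have h3 : ξ = θ.comp (AlgEquiv.restrictNormalHom E) := by
    ext g
    rw [← hθξ]
    rfl
  change A.val K N (lc ξ) = 1
  rw [h3, val_lin_res]
  have hsur : Function.Surjective (AlgEquiv.restrictNormalHom (F := K) (K₁ := N) E) :=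
    AlgEquiv.restrictNormalHom_surjective N
  have hθp : ∀ g, θ g ^ (2 ^ (k + 1)) = 1 := by
    intro g
    obtain ⟨h, rfl⟩ := hsur g
    rw [hθξ]
    exact hξ h
  have hp : IsPGroup 2 (E ≃ₐ[K] E) := by
    intro g
    refine ⟨k + 1, hθ ?_⟩
    rw [map_pow, hθp, map_one]
  have : Fact (Nat.Prime 2) := ⟨Nat.prime_two⟩
  obtain ⟨l, hl⟩ := hp.exists_card_eq
  have hCE : ∀ (φ : E →+* ℂ) (c : E ≃ₐ[K] E), IsConj φ c → c = 1 := by
    intro φ c hφ
    let φ' : N →+* ℂ := ComplexEmbedding.lift N φ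
    have h4 : φ'.comp (algebraMap E N) = φ := ComplexEmbedding.lift_comp_algebraMap N φ
    have h5 : φ'.comp (algebraMap K N) = φ.comp (algebraMap K E) := by
      rw [← h4]
      ext x
      change φ' (algebraMap K N x) = φ' (algebraMap E N (algebraMap K E x))
      rw [← IsScalarTower.algebraMap_apply K E N]
    obtain ⟨c', hc'⟩ := exists_conj (K := K) (φ := φ') (by rw [h5]; exact hφ.isReal_comp)
    have h6 : IsConj (φ'.comp (algebraMap E N)) (AlgEquiv.restrictNormalHom E c') := isConj_res hc'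
    rw [h4] at h6
    have h7 := h6.ext hφ
    apply hθ
    rw [← h7, hθξ, map_one]
    exact hξC φ' c' hc'
  rcases Nat.lt_or_ge l 2 with hl2 | hl2
  · apply val_sign hR
    intro g
    have h8 : Nat.card (E ≃ₐ[K] E) ∣ 2 := by
      rw [hl]
      interval_cases l
      · simp
      · simp
    have h9 : θ g * θ g = 1 := by
      rw [← map_mul, ← pow_two]
      obtain ⟨b, hb⟩ := h8
      have h10 : g ^ 2 = 1 := by
        calc g ^ 2 = g ^ (Nat.card (E ≃ₐ[K] E) * b) := by rw [← hb]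
          _ = 1 := by rw [pow_mul, pow_card_eq_one', one_pow]
      rw [h10, map_one]
    have h5 : ((θ g : ℂˣ) : ℂ) * ((θ g : ℂˣ) : ℂ) = 1 := by
      rw [← Units.val_mul, h9, Units.val_one]
    rcases mul_self_eq_one_iff.mp h5 with h6 | h6
    · left; exact Units.ext h6
    · right; exact Units.ext (by rw [h6]; simp)
  · obtain ⟨l', rfl⟩ := Nat.exists_eq_add_of_le' hl2
    refine hM K E hK hK' ⟨l', hl⟩ hCE θ hθ ?_
    apply MonoidHom.ext
    intro g
    obtain ⟨h, rfl⟩ := hsur g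
    rw [MonoidHom.pow_apply, hθξ, hξe]
    rfl

end

/-- all linear characters of `2`-extensions -/
theorem val_two₂ {A : ArtinInvariant M} {e : ℕ} (hR : TrivOne A) (hC : Triv2 A) (hO : TrivOdd A)
    (hM : TrivMixedE A e) (K L : Type) [Field K] [NumberField K] [Field L] [NumberField L]
    [Algebra K L] [IsGalois K L] (hP : P2 K L) (he : ∀ g : L ≃ₐ[K] L, g ^ e = 1)
    (ψ : (L ≃ₐ[K] L) →* ℂˣ) :
    A.val K L (lc ψ) = 1 := by
  by_cases h1 : IsTotallyReal K
  · exact val_lin_real₂ hR hC hP hO h1 ψ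
  · by_cases h2 : IsTotallyComplex K
    · exact val_complex₂ hC hP h2 ψ
    · exact val_lin_mixed₂ hR hC hP he hM h1 h2 ψ

end Pool.Agent.Run7.h508.SQ
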