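import Mathlib
import Pool.Agent.K4H85.ST.Exact
import Pool.Agent.K4H34.ST.G2

/-!
# Characters of `2`-hyperelementary groups, with control of the kernels
-/

set_option autoImplicit false
set_option linter.unusedSectionVars false

namespace Pool.Agent.Run7.h508.SQ

open Pool.Agent.R389 Pool.Agent.K4H74.ST Pool.Agent.K4H85.ST
open Pool.Agent.H302R2 Pool.Agent.H302R3 Pool.Agent.H541R3.ART Pool.Agent.W446.AS

/-- characters which are induced from characters of the subgroups disjoint from `X` which factor
through the homomorphism `π` or through its composition with `τ` -/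
def JF {U Y : Type} [Group U] [Group Y] (X : Set U) (τ : U →* U) (π : U →* Y) :
    AddSubgroup (U → ℂ) :=
  AddSubgroup.closure {f | ∃ (S : Subgroup U) (Z : Subgroup Y) (κ : S →* Z) (ζ : Z → ℂ),
    (∀ x ∈ X, x ∉ S) ∧ ζ ∈ Irr Z ∧ ((∀ s, (κ s : Y) = π s) ∨ (∀ s, (κ s : Y) = π (τ s))) ∧
      f = ind S (fun s => ζ (κ s))}

/-- the case of irreducible characters of `Y` -/
theorem two_irr' {U Y : Type} [Group U] [Finite U] [Group Y] [Finite Y] {X : Set U}
    (C : Subgroup U) [C.Normal] (hCc : ∀ a b : C, a * b = b * a)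
    (hCo : Odd (Nat.card C)) (τ : U →* U) (hτ : ∀ u, (τ u)⁻¹ * u ∈ C) {π : U →* Y}
    (hπ : Function.Surjective π) (hinv : ∀ c ∈ X, ∀ a ∈ C, π (a * (c * a * c⁻¹)) = 1)
    {φ : Y → ℂ} (hφ : φ ∈ Irr Y) :
    (fun u => φ (π u)) - (fun u => φ (π (τ u))) ∈ JF X τ π := by
  obtain ⟨n, r, hr, rfl⟩ := exists_rep hφ
  let A : Subgroup Y := C.map π
  have hA : A.Normal := Subgroup.Normal.map inferInstance π hπ
  have hAc : ∀ a b : A, a * b = b * a := by
    rintro ⟨a, a', ha', rfl⟩ ⟨b, b', hb', rfl⟩
    apply Subtype.ext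
    change π a' * π b' = π b' * π a'
    rw [← map_mul, ← map_mul]
    exact congrArg π (congrArg Subtype.val (hCc ⟨a', ha'⟩ ⟨b', hb'⟩))
  obtain ⟨μ, v₀, H, hv₀, hμ, hH, ψ, hψ, hind⟩ := Pool.Agent.K4H85.ST.clifford_stab hr A hAc
  by_cases hμ1 : ∀ a : A, μ a = 1
  · let W : Submodule ℂ (Fin n → ℂ) :=
      { carrier := {v | ∀ a : A, r a v = v}
        add_mem' := by
          intro v w hv hw a
          rw [map_add, hv a, hw a]
        zero_mem' := by
          intro a
          rw [map_zero]
        smul_mem' := by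
          intro k v hv a
          rw [map_smul, hv a] }
    have hWm : ∀ v, v ∈ W ↔ ∀ a : A, r a v = v := fun v => Iff.rfl
    have hW : W = ⊤ := by
      rcases hr.2 W (by
        intro g v hv
        rw [hWm] at hv ⊢
        intro a
        have h2 : (a : Y) * g = g * (MulAut.conjNormal g⁻¹ a : A) := by
          rw [MulAut.conjNormal_apply]
          group
        rw [← Module.End.mul_apply, ← map_mul, h2, map_mul, Module.End.mul_apply, hv]) with h | h
      · exfalso
        apply hv₀
        have h1 : v₀ ∈ W := by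
          rw [hWm]
          intro a
          rw [hμ, hμ1, Units.val_one, one_smul]
        rwa [h, Submodule.mem_bot] at h1
      · exact h
    have h0 : (fun u => r.character (π u)) - (fun u => r.character (π (τ u))) = 0 := by
      funext u
      rw [Pi.sub_apply, Pi.zero_apply, sub_eq_zero]
      have h1 : r (π u) = r (π (τ u)) := by
        have h2 : π u = π (τ u) * π ((τ u)⁻¹ * u) := by
          rw [← map_mul]
          congr 1
          group
        rw [h2, map_mul]
        have h3 : r (π ((τ u)⁻¹ * u)) = 1 := by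
          refine LinearMap.ext fun v => ?_
          have h4 : v ∈ W := by rw [hW]; exact Submodule.mem_top
          exact (hWm v).mp h4 ⟨π ((τ u)⁻¹ * u), _, hτ u, rfl⟩
        rw [h3, mul_one]
      change LinearMap.trace ℂ _ (r (π u)) = LinearMap.trace ℂ _ (r (π (τ u)))
      rw [h1]
    rw [h0]
    exact zero_mem _
  · have hHX : ∀ c ∈ X, π c ∉ H := by
      intro c hc hcH
      apply hμ1
      rintro ⟨a, a', ha', rfl⟩
      have h1 := (hH (π c)).mp hcH ⟨π a', a', ha', rfl⟩
      have h2 : MulAut.conjNormal (π c) (⟨π a', a', ha', rfl⟩ : A) = (⟨π a', a', ha', rfl⟩ : A)⁻¹ := by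
        apply Subtype.ext
        rw [MulAut.conjNormal_apply]
        change π c * π a' * (π c)⁻¹ = (π a')⁻¹
        rw [eq_comm, inv_eq_iff_mul_eq_one, ← map_inv, ← map_mul, ← map_mul, ← map_mul]
        exact hinv c hc a' ha'
      rw [h2, map_inv] at h1
      have h3 : μ ⟨π a', a', ha', rfl⟩ ^ 2 = 1 := by
        rw [pow_two]
        nth_rw 1 [← h1]
        rw [inv_mul_cancel]
      have h4 : μ ⟨π a', a', ha', rfl⟩ ^ Nat.card C = 1 := by
        rw [← map_pow]
        have h5 : (⟨π a', a', ha', rfl⟩ : A) ^ Nat.card C = 1 := by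
          apply Subtype.ext
          change π a' ^ Nat.card C = 1
          rw [← map_pow]
          have h6 : a' ^ Nat.card C = 1 :=
            congrArg Subtype.val (pow_card_eq_one' (x := (⟨a', ha'⟩ : C)))
          rw [h6, map_one]
        rw [h5, map_one]
      exact unit_one h4 h3 (Nat.coprime_two_right.mpr hCo)
    have hAH : A ≤ H := by
      intro a ha
      rw [hH]
      intro b
      have h1 : MulAut.conjNormal a b = b := by
        apply Subtype.ext
        rw [MulAut.conjNormal_apply]
        have := congrArg Subtype.val (hAc ⟨a, ha⟩ b)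
        simp only [Subgroup.coe_mul] at this
        rw [this, mul_inv_cancel_right]
      rw [h1]
    let S : Subgroup U := H.comap π
    have hSX : ∀ c ∈ X, c ∉ S := fun c hc h => hHX c hc h
    have hCS : C ≤ S := fun a ha => hAH ⟨a, ha, rfl⟩
    have hψv : Virt ψ := AddSubgroup.subset_closure hψ
    let κ₁ : S →* H := MonoidHom.mk' (fun s => ⟨π (s : U), s.2⟩) (fun a b => by
      apply Subtype.ext
      exact map_mul π (a : U) (b : U))
    let κ₂ : S →* H := MonoidHom.mk' (fun s => ⟨π (τ (s : U)), tau_mem hCS hτ s.2⟩) (fun a b => by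
      apply Subtype.ext
      change π (τ ((a : U) * (b : U))) = π (τ (a : U)) * π (τ (b : U))
      rw [map_mul, map_mul])
    have h1 : (fun u => r.character (π u)) = ind S (fun s => ψ (κ₁ s)) := by
      have h2 := Pool.Agent.K4H34.ST.g3 U Y π hπ H ψ
      rw [hind]
      exact h2
    have h2 : (fun u => r.character (π (τ u))) = ind S (fun s => ψ (κ₂ s)) := by
      funext u
      have h3 : r.character (π (τ u)) = ind S (fun s => ψ (κ₁ s)) (τ u) := congrFun h1 (τ u)
      rw [h3, ind_tau hCS hτ (fun g x => (hψv.comp κ₁).conj g x)]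
      rfl
    rw [h1, h2]
    exact sub_mem
      (AddSubgroup.subset_closure ⟨S, H, κ₁, ψ, hSX, hψ, Or.inl fun _ => rfl, rfl⟩)
      (AddSubgroup.subset_closure ⟨S, H, κ₂, ψ, hSX, hψ, Or.inr fun _ => rfl, rfl⟩)

/-- the case of a virtual character of a group containing the image -/
theorem two_virt {U G : Type} [Group U] [Finite U] [Group G] [Finite G] {X : Set U}
    (C : Subgroup U) [C.Normal] (hCc : ∀ a b : C, a * b = b * a)
    (hCo : Odd (Nat.card C)) (τ : U →* U) (hτ : ∀ u, (τ u)⁻¹ * u ∈ C) (π : U →* G)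
    (hinv : ∀ c ∈ X, ∀ a ∈ C, π (a * (c * a * c⁻¹)) = 1) {χ : G → ℂ} (hχ : Virt χ) :
    (fun u => χ (π u)) - (fun u => χ (π (τ u))) ∈ JF X τ π.rangeRestrict := by
  let D : (π.range → ℂ) →+ (U → ℂ) := AddMonoidHom.mk'
    (fun g => (fun u => g (π.rangeRestrict u)) - (fun u => g (π.rangeRestrict (τ u))))
    (fun a b => by
      funext u
      simp only [Pi.sub_apply, Pi.add_apply]
      ring)
  have h2 : AddSubgroup.closure (Irr π.range) ≤ (JF X τ π.rangeRestrict).comap D := by
    rw [AddSubgroup.closure_le]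
    intro φ hφ
    rw [SetLike.mem_coe, AddSubgroup.mem_comap]
    refine two_irr' C hCc hCo τ hτ π.rangeRestrict_surjective ?_ hφ
    intro c hc a ha
    apply Subtype.ext
    exact hinv c hc a ha
  exact h2 (hχ.comp π.range.subtype)

end Pool.Agent.Run7.h508.SQ
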