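import Mathlib
import Pool.Agent.K4H34.NC.Asm
import Pool.Agent.Run7.h508.SQ.Core
import Pool.Agent.Run7.h508.SQ.TwoIrr
import Pool.Agent.Run7.h508.SQ.TwV

/-!
# One hyperelementary subgroup with complex conjugations
-/

set_option autoImplicit false
set_option linter.unusedSectionVars false

namespace Pool.Agent.Run7.h508.SQ

open NumberField NumberField.ComplexEmbedding Polynomial Pool.Agent.R389 Pool.Agent.K4H74.ST
  Pool.Agent.K4H77.SL Pool.Agent.H302R2 Pool.Agent.H302R3 Pool.Agent.K4H34.ST Pool.Agent.K4H34.NC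
open scoped Pointwise

lemma TT_mono {Mg : Type} [CommGroup Mg] {A : ArtinInvariant Mg} {K L : Type} [Field K]
    [NumberField K] [Field L] [NumberField L] [Algebra K L] [IsGalois K L] {P P' : Subgroup Mg}
    (h : P ≤ P') : TT A (K := K) (L := L) P ≤ TT A (K := K) (L := L) P' := by
  rintro f ⟨v, hv, hf⟩
  exact ⟨v, h hv, hf⟩

/-- the values on the linear characters of the `2`-extensions whose Galois groups have exponents
dividing `e` are in `P` -/
def In2 {Mg : Type} [CommGroup Mg] (A : ArtinInvariant Mg) (P : Subgroup Mg) (e : ℕ) : Prop :=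
  ∀ (K L : Type) [Field K] [NumberField K] [Field L] [NumberField L] [Algebra K L] [IsGalois K L],
    P2 K L → (∀ g : L ≃ₐ[K] L, g ^ e = 1) → ∀ ψ : (L ≃ₐ[K] L) →* ℂˣ, A.val K L (lc ψ) ∈ P

/-- characters which factor through a group of elements of `2`-power order -/
theorem two_img {Mg : Type} [CommGroup Mg] {A : ArtinInvariant Mg} {P : Subgroup Mg} {e : ℕ}
    (hP : In2 A P e) (N : Type) [Field N] [NumberField N] [IsGalois ℚ N]
    (V : Subgroup (N ≃ₐ[ℚ] N)) (Γ : Type) [Group Γ] [Finite Γ] (κ : V →* Γ)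
    (hκe : ∀ u, κ u ^ e = 1) (hκ : ∀ u, LE 2 (κ u)) (ζ : Γ → ℂ) (hζ : IsChar ζ) :
    ind V (fun u => ζ (κ u)) ∈ TT A (K := ℚ) (L := N) P := by
  classical
  have hfin : FiniteDimensional ℚ N := inferInstance
  let F := IntermediateField.fixedField V
  let ε : V ≃* (N ≃ₐ[F] N) := IntermediateField.subgroupEquivAlgEquiv V
  let ρ : (N ≃ₐ[F] N) →* Γ := κ.comp ε.symm.toMonoidHom
  have hind : ind V (fun u => ζ (κ u)) = indChar ℚ F N (fun g => ζ (ρ g)) :=
    ind_fixed V _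
  have hcharU : IsChar (fun g : N ≃ₐ[F] N => ζ (ρ g)) := Pool.Agent.K4H77.SL.IsChar.comp hζ ρ
  let E : IntermediateField F N := IntermediateField.fixedField ρ.ker
  have hE : IsGalois F E := IsGalois.of_fixedField_normal_subgroup ρ.ker
  let π : (N ≃ₐ[F] N) →* (E ≃ₐ[F] E) := AlgEquiv.restrictNormalHom E
  have hπ : Function.Surjective π := AlgEquiv.restrictNormalHom_surjective N
  have hfinF : FiniteDimensional F N := Module.Finite.of_restrictScalars_finite ℚ F N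
  have hker : ∀ g : N ≃ₐ[F] N, π g = 1 ↔ ρ g = 1 := by
    intro g
    constructor
    · intro h
      have h1 : g ∈ E.fixingSubgroup := by
        rw [IntermediateField.mem_fixingSubgroup_iff]
        intro x hx
        have h2 := res_apply (L := E) g ⟨x, hx⟩
        change algebraMap E N (π g ⟨x, hx⟩) = _ at h2
        rw [h] at h2
        exact h2.symm
      rw [IntermediateField.fixingSubgroup_fixedField] at h1
      exact h1
    · intro h
      ext x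
      have h2 := res_apply (L := E) g x
      change algebraMap E N (π g x) = _ at h2
      change ((π g x : E) : N) = (x : N)
      exact h2.trans (x.2 ⟨g, h⟩)
  have hle : π.ker ≤ ρ.ker := fun g hg => (hker g).mp hg
  let ρ' : (E ≃ₐ[F] E) →* Γ := π.liftOfSurjective hπ ⟨ρ, hle⟩
  have hρ' : ∀ g, ρ' (π g) = ρ g := fun g => MonoidHom.liftOfRightInverse_comp_apply _ _ _ ⟨ρ, hle⟩ g
  have hinj : Function.Injective ρ' := by
    rw [injective_iff_map_eq_one]
    intro a ha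
    obtain ⟨g, rfl⟩ := hπ a
    rw [hρ'] at ha
    exact (hker g).mpr ha
  have hP2 : P2 F E := by
    intro a
    obtain ⟨g, rfl⟩ := hπ a
    apply LE.of_inj ρ' hinj
    rw [hρ']
    exact hκ (ε.symm g)
  have hPe : ∀ a : E ≃ₐ[F] E, a ^ e = 1 := by
    intro a
    obtain ⟨g, rfl⟩ := hπ a
    apply hinj
    rw [map_pow, hρ', map_one]
    exact hκe (ε.symm g)
  have hval : A.val F E (fun g => ζ (ρ' g)) ∈ P :=
    brauer_red P (fun U ψ => hP _ _ (hP2.sub U) (fun g => pow_restrict (K := F) (hPe _)) ψ)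
      (Pool.Agent.K4H77.SL.IsChar.comp hζ ρ')
  have hval2 : A.val F N (fun g => ζ (ρ g)) ∈ P := by
    rw [← A.val_infl F E N _ (Pool.Agent.K4H77.SL.IsChar.comp hζ ρ')] at hval
    convert hval using 2
    funext g
    rw [← hρ']
  have hval3 : A.val ℚ N (indChar ℚ F N (fun g => ζ (ρ g))) ∈ P := by
    rw [A.val_ind ℚ F N _ hcharU]
    exact hval2
  have hch : IsChar (ind V (fun u => ζ (κ u))) :=
    Pool.Agent.K4H74.SC.isChar_ind V (Pool.Agent.K4H77.SL.IsChar.comp hζ κ)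
  rw [mem_TT_char A hch, hind]
  exact hval3

section ctx

variable {L L₀ N₁ M N : Type} [Field L] [NumberField L] [IsGalois ℚ L] [Field L₀] [NumberField L₀]
  [IsGalois ℚ L₀] [Field N₁] [NumberField N₁] [IsGalois ℚ N₁] [Field M] [NumberField M]
  [IsGalois ℚ M] [Field N] [NumberField N] [IsGalois ℚ N] [Algebra L₀ N₁] [Algebra N₁ M]
  [Algebra L M] [Algebra M N]

variable {Mg : Type} [CommGroup Mg] {A : ArtinInvariant Mg}

/-- an odd prime -/
theorem core_odd {l b : ℕ} (hl : l.Prime) (hl2 : l ≠ 2) {s : ℕ} (hR : TrivOne A)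
    (hN₁ : IsTotallyReal N₁) (hj : ∃ j : N, j * j = -1)
    (hcc : ∀ c ∈ CC ℚ N, ∀ g : N ≃ₐ[ℚ] N, g * c = c * g → rq M N g = 1 ∨ rq M N g = rq M N c)
    (ε : (M ≃ₐ[ℚ] M) →* ℂˣ)
    (hb : Part l b (N ≃ₐ[ℚ] N)) {χ : (L ≃ₐ[ℚ] L) → ℂ} (hχ : IsChar χ)
    (r : (N ≃ₐ[ℚ] N) →* (L ≃ₐ[ℚ] L)) (hr : ∀ x, r x = rq L M (rq M N x))
    (π : (N ≃ₐ[ℚ] N) →* (N₁ ≃ₐ[ℚ] N₁)) (hπ : ∀ x, π x = rq N₁ M (rq M N x))
    {U : Subgroup (N ≃ₐ[ℚ] N)} (hU : HypP l U) {g : N ≃ₐ[ℚ] N} (hgU : g ∈ U)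
    (hg : (orderOf g).Coprime l) (hc : ∃ c ∈ CC ℚ N, c ∈ U) :
    ind U (genl b g (fun x => χ (r x) - ((ε (rq M N x) : ℂˣ) : ℂ) *
      thB s b χ L₀ N₁ M (π x)) U) ∈ satl l hl (TT A (K := ℚ) (L := N) ⊥) := by
  have hfin : FiniteDimensional ℚ N := inferInstance
  have hfinM : FiniteDimensional ℚ M := inferInstance
  have hfinL : FiniteDimensional ℚ L := inferInstance
  obtain ⟨c, hc, hcU⟩ := hc
  have hcsq : c * c = 1 := by
    obtain ⟨φ, hφ⟩ := hc
    exact isConj_sq hφ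
  have hcase : ∀ x ∈ U, rq M N x = 1 ∨ rq M N x = rq M N c := fun x hx =>
    hcc c hc x (invol_central hl hl2 hU hcU hcsq (cc_ne_one hj hc) hx)
  have hc1 : rq N₁ M (rq M N c) = 1 := cc_real hN₁ (CC_res (CC_res hc))
  have h00 : IsChar (0 : (L ≃ₐ[ℚ] L) → ℂ) := IsChar.zero
  have hsq : ∀ x ∈ U, r x * r x = 1 := by
    intro x hx
    rw [hr]
    rcases hcase x hx with h | h
    · rw [h, map_one, mul_one]
    · rw [h, ← map_mul, ← map_mul, hcsq, map_one, map_one]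
  have hrb : ∀ x ∈ U, r (x ^ b) = r x := by
    intro x hx
    obtain ⟨k, hk⟩ := (hb x).2
    have h1 : r (x * (x ^ b)⁻¹) ^ (l ^ k) = 1 := by rw [← map_pow, hk, map_one]
    have h2 : r (x * (x ^ b)⁻¹) ^ 2 = 1 := by
      rw [pow_two]
      exact hsq _ (U.mul_mem hx (U.inv_mem (U.pow_mem hx b)))
    have h3 := unit_one h1 h2 (Nat.Coprime.pow_left k ((Nat.coprime_primes hl Nat.prime_two).mpr hl2))
    rw [map_mul, map_inv, mul_inv_eq_one] at h3
    exact h3.symm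
  obtain ⟨q, hq⟩ := rat_invol (IsChar.heil hχ) (hsq g hgU)
  obtain ⟨z, hz⟩ := rat_int (IsChar.heil hχ) (IsChar.heil h00) (r g)
    ⟨q, by rw [Pi.zero_apply, sub_zero]; exact hq⟩
  refine const_l l1 hl hb hR hU hgU hg (z := z) fun u hu => ?_
  have h1 := hz (r ((u : N ≃ₐ[ℚ] N) ^ b)) (zpowers_map r hu)
  rw [Pi.zero_apply, sub_zero, hrb _ u.2] at h1
  have h2 : rq L₀ N₁ ((π (u : N ≃ₐ[ℚ] N)) ^ b) = 1 := by
    rw [← map_pow, hπ]
    rcases hcase _ (U.pow_mem u.2 b) with h | h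
    · rw [h, map_one, map_one]
    · rw [h, hc1, map_one]
  rw [thB_zero_one h2, mul_zero, sub_zero]
  exact h1

/-- the centraliser condition for elements of odd order -/
lemma odd_inv (hcc : ∀ c ∈ CC ℚ N, ∀ g : N ≃ₐ[ℚ] N, g * c = c * g →
      rq M N g = 1 ∨ rq M N g = rq M N c)
    {U : Subgroup (N ≃ₐ[ℚ] N)} (hU : HypP 2 U) {c : N ≃ₐ[ℚ] N} (hc : c ∈ CC ℚ N) (hcU : c ∈ U)
    {y : N ≃ₐ[ℚ] N} (hyU : y ∈ U) (hy : (orderOf y).Coprime 2) :
    rq M N (y * (c * y * c⁻¹)) = 1 := by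
  have hcsq : c * c = 1 := by
    obtain ⟨φ, hφ⟩ := hc
    exact isConj_sq hφ
  have hci : c⁻¹ = c := inv_eq_of_mul_eq_one_left hcsq
  have hy' : (orderOf (c * y * c⁻¹)).Coprime 2 := by
    have h1 : orderOf (c * y * c⁻¹) = orderOf y :=
      orderOf_injective (MulAut.conj c).toMonoidHom (MulAut.conj c).injective y
    rw [h1]
    exact hy
  have hyU' : c * y * c⁻¹ ∈ U := U.mul_mem (U.mul_mem hcU hyU) (U.inv_mem hcU)
  have hcomm : y * (c * y * c⁻¹) = (c * y * c⁻¹) * y :=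
    hyp_comm Nat.prime_two hU hyU hy hyU' hy'
  have h4 : (y * (c * y * c⁻¹)) * c = c * (y * (c * y * c⁻¹)) := by
    have h5 : c * (y * (c * y * c⁻¹)) = (c * y * c⁻¹) * (c * (c * y * c⁻¹) * c⁻¹) * c := by group
    have h6 : c * (c * y * c⁻¹) * c⁻¹ = y := by
      have : c * (c * y * c⁻¹) * c⁻¹ = (c * c) * y * (c * c)⁻¹ := by group
      rw [this, hcsq]; group
    rw [h5, h6, ← hcomm]
  have h7 : rq M N (y * (c * y * c⁻¹)) ^ 2 = 1 := by
    rcases hcc c hc _ h4 with h | h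
    · rw [h, one_pow]
    · rw [h, ← map_pow, pow_two, hcsq, map_one]
  have h8 : rq M N (y * (c * y * c⁻¹)) ^ (orderOf y) = 1 := by
    have h9 : (y * (c * y * c⁻¹)) ^ (orderOf y) = 1 := by
      have h10 : Commute y (c * y * c⁻¹) := hcomm
      rw [h10.mul_pow, pow_orderOf_eq_one, one_mul, conj_pow, pow_orderOf_eq_one, mul_one,
        mul_inv_cancel]
    rw [← map_pow, h9, map_one]
  exact unit_one h8 h7 hy

end ctx

/-- the condition at the prime two: the restrictions of the character to the `2`-hyperelementary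
subgroups with complex conjugations -/
def TwoOK {Mg : Type} [CommGroup Mg] (A : ArtinInvariant Mg) (P : Subgroup Mg) (m : ℕ) (L : Type)
    [Field L] [NumberField L] [IsGalois ℚ L] (χ : (L ≃ₐ[ℚ] L) → ℂ) : Prop :=
  ∀ (N : Type) [Field N] [NumberField N] [IsGalois ℚ N] (r : (N ≃ₐ[ℚ] N) →* (L ≃ₐ[ℚ] L)),
    Function.Surjective r → (∀ c ∈ CC ℚ N, r c ∈ CC ℚ L) → ∀ V : Subgroup (N ≃ₐ[ℚ] N),
    HypP 2 V →
    (∀ c ∈ CC ℚ N, c ∈ V → ∀ y ∈ V, (orderOf y).Coprime 2 → r (y * (c * y * c⁻¹)) = 1) →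
    (∀ v ∈ V, ∀ Q : Ideal (𝓞 N), Q.IsMaximal → v ∈ inertia ℚ Q → LE 2 (r v)) →
    (∀ v ∈ V, ∀ Q : Ideal (𝓞 N), Q.IsMaximal → (m : 𝓞 N) ∈ Q → v ∈ decomp ℚ Q → LE 2 (r v)) →
    ind V (fun v => χ (r (v : N ≃ₐ[ℚ] N))) ∈ TT A (K := ℚ) (L := N) P

/-- an involution and its image under the retraction are conjugate -/
lemma tau_conj {U : Type} [Group U] [Finite U] {C : Subgroup U} (hCo : Odd (Nat.card C))
    {τ : U →* U} (hτ : ∀ u, (τ u)⁻¹ * u ∈ C) {c : U} (hc : c * c = 1) :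
    ∃ y, τ c = y * c * y⁻¹ := by
  obtain ⟨a, ha⟩ : ∃ a : U, a = c⁻¹ * τ c := ⟨_, rfl⟩
  have haC : a ∈ C := by
    have h1 := C.inv_mem (hτ c)
    rw [mul_inv_rev, inv_inv] at h1
    exact ha ▸ h1
  have hci : c⁻¹ = c := inv_eq_of_mul_eq_one_left hc
  have hτc : τ c = c * a := by rw [ha, mul_inv_cancel_left]
  have h2 : (c * a) * (c * a) = 1 := by rw [← hτc, ← map_mul, hc, map_one]
  have h3 : c * a * c⁻¹ = a⁻¹ := by
    rw [hci]
    exact eq_inv_of_mul_eq_one_left (by rw [← h2]; group)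
  obtain ⟨k, hk⟩ : Odd (orderOf a) := by
    have h4 : orderOf a ∣ Nat.card C := by
      have := orderOf_dvd_natCard (⟨a, haC⟩ : C)
      rwa [Subgroup.orderOf_mk] at this
    exact Odd.of_dvd_nat hCo h4
  have h5 : a ^ (k + 1) * a ^ (k + 1) = a := by
    rw [← pow_add, show k + 1 + (k + 1) = orderOf a + 1 by omega, pow_add, pow_orderOf_eq_one,
      one_mul, pow_one]
  have h6 : c * a ^ (k + 1) * c⁻¹ = (a ^ (k + 1))⁻¹ := by
    rw [← conj_pow, h3, inv_pow]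
  refine ⟨(a ^ (k + 1))⁻¹, ?_⟩
  have h7 : (a ^ (k + 1))⁻¹ * c = c * a ^ (k + 1) := by
    rw [← h6]
    group
  rw [h7, inv_inv, mul_assoc, h5, hτc]

/-- a `2`-hyperelementary subgroup with a complex conjugation: the whole character -/
theorem two_c_gen {Mg : Type} [CommGroup Mg] {A : ArtinInvariant Mg} {m : ℕ} {P : Subgroup Mg}
    (hTE : TrivEll A m 2 0 0) {L : Type} [Field L] [NumberField L] [IsGalois ℚ L]
    {χ : (L ≃ₐ[ℚ] L) → ℂ} (hχ : IsChar χ)
    (hQ : ∀ (N : Type) [Field N] [NumberField N] [IsGalois ℚ N] (V : Subgroup (N ≃ₐ[ℚ] N))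
      (κ : V →* (L ≃ₐ[ℚ] L)), (∀ u, LE 2 (κ u)) →
      (∀ u : V, (u : N ≃ₐ[ℚ] N) ∈ CC ℚ N → κ u ∈ CC ℚ L) →
      ind V (fun u => χ (κ u)) ∈ TT A (K := ℚ) (L := N) P) : TwoOK A P m L χ := by
  classical
  intro N _ _ _ r hrs hrc V hV hinv hin hle
  have hfin : FiniteDimensional ℚ N := inferInstance
  have hfinL : FiniteDimensional ℚ L := inferInstance
  obtain ⟨c₀, hcop, hcn, hpw⟩ := id hV
  let C : Subgroup V := Subgroup.zpowers c₀
  have hCn : C.Normal := ⟨fun x hx u => conj_zpowers hcn u hx⟩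
  have hCc : ∀ a b : C, a * b = b * a := zpowers_comm c₀
  have hCo : Odd (Nat.card C) := by
    rw [Nat.card_zpowers]
    exact Nat.coprime_two_right.mp hcop
  obtain ⟨τ, hτ, hτ2⟩ := Pool.Agent.K4H85.ST.exists_tau C hCo hpw
  let R : V →* (L ≃ₐ[ℚ] L) := r.comp V.subtype
  have h1 : (fun u => χ (R u)) - (fun u => χ (R (τ u)))
      ∈ JF {x : V | (x : N ≃ₐ[ℚ] N) ∈ CC ℚ N} τ R.rangeRestrict := by
    refine two_virt C hCc hCo τ hτ R ?_ hχ.virt
    intro c hc a ha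
    have h2 : (orderOf (a : N ≃ₐ[ℚ] N)).Coprime 2 := by
      rw [Subgroup.orderOf_coe]
      exact Nat.Coprime.coprime_dvd_left (orderOf_dvd_of_mem_zpowers ha) hcop
    exact hinv c hc c.2 a a.2 h2
  have h2 : JF {x : V | (x : N ≃ₐ[ℚ] N) ∈ CC ℚ N} τ R.rangeRestrict
      ≤ (TT A (K := ℚ) (L := N) P).comap (indHom V) := by
    rw [JF, AddSubgroup.closure_le]
    rintro f ⟨S, Z, κ, ζ, hS, hζ, hκ, rfl⟩
    rw [SetLike.mem_coe, AddSubgroup.mem_comap, indHom_apply, ind_ind]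
    let e : S ≃* S.map V.subtype := S.equivMapOfInjective V.subtype V.subtype_injective
    have he : ∀ u : S.map V.subtype, (((e.symm u : S) : V) : N ≃ₐ[ℚ] N) = u := by
      intro u
      obtain ⟨v, rfl⟩ := e.surjective u
      rw [MulEquiv.symm_apply_apply]
      rfl
    have hV' : ∀ u : S.map V.subtype, (u : N ≃ₐ[ℚ] N) ∈ V := by
      intro u
      rw [← he]
      exact ((e.symm u : S) : V).2
    have hLE : ∀ u : S.map V.subtype, LE 2 (r (u : N ≃ₐ[ℚ] N)) →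
        LE 2 ((κ.comp e.symm.toMonoidHom) u) := by
      intro u hu
      have h3 : LE 2 (((κ (e.symm u) : Z) : R.range)) := by
        rcases hκ with h | h
        · rw [h]
          apply LE.of_inj R.range.subtype (Subtype.val_injective)
          change LE 2 (r (((e.symm u : S) : V) : N ≃ₐ[ℚ] N))
          rw [he]
          exact hu
        · rw [h]
          exact (show LE 2 (τ ((e.symm u : S) : V)) from hτ2 _).map R.rangeRestrict
      exact LE.of_inj Z.subtype (Subtype.val_injective) h3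
    have hζ' : IsChar ζ := by
      obtain ⟨n, ρ, -, rfl⟩ := Pool.Agent.W446.AS.exists_rep hζ
      exact ⟨Fin n → ℂ, inferInstance, inferInstance, inferInstance, ρ, rfl⟩
    refine TT_mono bot_le (l2' (A := A) (m := m) hTE N (S.map V.subtype)
      (fixed_complex _ ?_) Z (κ.comp e.symm.toMonoidHom) (fun u => pow_zero _) ?_ ?_ ζ hζ')
    · rintro c hc ⟨x, hx, rfl⟩
      exact hS x hc hx
    · intro u Q hQ huQ hm
      exact (hLE u (hle u (hV' u) Q hQ hm huQ)).lj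
    · intro u Q hQ huQ
      exact (hLE u (hin u (hV' u) Q hQ huQ)).lj
  have h3 := h2 h1
  rw [AddSubgroup.mem_comap, map_sub, indHom_apply, indHom_apply] at h3
  have h4 : ind V (fun u => χ (R (τ u))) ∈ TT A (K := ℚ) (L := N) P := by
    refine hQ N V (R.comp τ) (fun u => (show LE 2 (τ u) from hτ2 u).map R) fun u hu => ?_
    have hu2 : u * u = 1 := by
      obtain ⟨φ, hφ⟩ := hu
      exact Subtype.ext (isConj_sq hφ)
    obtain ⟨y, hy⟩ := tau_conj hCo hτ hu2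
    change r ((τ u : V) : N ≃ₐ[ℚ] N) ∈ CC ℚ L
    rw [hy]
    exact hrc _ (CC_conj hu _)
  have h5 := add_mem h3 h4
  rw [sub_add_cancel] at h5
  exact h5

theorem two_c {Mg : Type} [CommGroup Mg] {A : ArtinInvariant Mg} {m e : ℕ} {P : Subgroup Mg}
    (hP : In2 A P e) (hTE : TrivEll A m 2 0 0) {L : Type} [Field L] [NumberField L] [IsGalois ℚ L]
    (heL : ∀ y : L ≃ₐ[ℚ] L, y ^ e = 1)
    {χ : (L ≃ₐ[ℚ] L) → ℂ} (hχ : IsChar χ) : TwoOK A P m L χ := by
  have hfinL : FiniteDimensional ℚ L := inferInstance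
  exact two_c_gen hTE hχ fun N _ _ _ V κ hκ _ =>
    two_img hP N V (L ≃ₐ[ℚ] L) κ (fun u => heL _) hκ χ hχ

section ctx2

variable {L L₀ N₁ M N : Type} [Field L] [NumberField L] [IsGalois ℚ L] [Field L₀] [NumberField L₀]
  [IsGalois ℚ L₀] [Field N₁] [NumberField N₁] [IsGalois ℚ N₁] [Field M] [NumberField M]
  [IsGalois ℚ M] [Field N] [NumberField N] [IsGalois ℚ N] [Algebra L₀ N₁] [Algebra N₁ M]
  [Algebra L M] [Algebra M N]

variable {Mg : Type} [CommGroup Mg] {A : ArtinInvariant Mg}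

/-- the prime two -/
theorem core_two {b m s t : ℕ} {P : Subgroup Mg} (hTE : TrivEll A m 2 0 0)
    (hms : m ∣ s) (hst : s ∣ t) (hC : Schm M N t)
    (hramL : ∀ P : Ideal (𝓞 L), P.IsMaximal → (∃ g ∈ inertia ℚ P, g ≠ 1) → (s : 𝓞 L) ∈ P)
    (hN₁ : IsTotallyReal N₁)
    (hcc : ∀ c ∈ CC ℚ N, ∀ g : N ≃ₐ[ℚ] N, g * c = c * g → rq M N g = 1 ∨ rq M N g = rq M N c)
    (ε : (M ≃ₐ[ℚ] M) →* ℂˣ) (hεs : ∀ σ, Dec s σ → ε σ = 1) (hεc : ∀ c ∈ CC ℚ M, ε c = -1)
    (hb : Part 2 b (N ≃ₐ[ℚ] N)) {χ : (L ≃ₐ[ℚ] L) → ℂ} (hχ : IsChar χ)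
    (hTO : TwoOK A P m L χ)
    (r : (N ≃ₐ[ℚ] N) →* (L ≃ₐ[ℚ] L)) (hr : ∀ x, r x = rq L M (rq M N x))
    (π : (N ≃ₐ[ℚ] N) →* (N₁ ≃ₐ[ℚ] N₁)) (hπ : ∀ x, π x = rq N₁ M (rq M N x))
    {U : Subgroup (N ≃ₐ[ℚ] N)} (hU : HypP 2 U) {g : N ≃ₐ[ℚ] N} (hgU : g ∈ U)
    (hg : (orderOf g).Coprime 2) (hc : ∃ c ∈ CC ℚ N, c ∈ U) :
    ind U (genl b g (fun x => χ (r x) - ((ε (rq M N x) : ℂˣ) : ℂ) *
      thB s b χ L₀ N₁ M (π x)) U) ∈ satl 2 Nat.prime_two (TT A (K := ℚ) (L := N) P) := by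
  have hfin : FiniteDimensional ℚ N := inferInstance
  have hfinM : FiniteDimensional ℚ M := inferInstance
  have hfinL : FiniteDimensional ℚ L := inferInstance
  have hχc : ∀ g x, χ (x * g * x⁻¹) = χ g := (IsChar.heil hχ).conj
  obtain ⟨c, hc, hcU⟩ := hc
  have hc1 : π c = 1 := by
    rw [hπ]
    exact cc_real hN₁ (CC_res (CC_res hc))
  have hπ1 : ∀ y ∈ U, (orderOf y).Coprime 2 → π y = 1 := by
    intro y hyU hy
    have h1 := odd_inv hcc hU hc hcU hyU hy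
    have h2 : π (y * (c * y * c⁻¹)) = 1 := by rw [hπ, h1, map_one]
    rw [map_mul, map_mul, map_mul, map_inv, hc1, one_mul, inv_one, mul_one] at h2
    have h3 : π y ^ (orderOf y) = 1 := by rw [← map_pow, pow_orderOf_eq_one, map_one]
    exact unit_one h3 (b := 2) (by rw [pow_two]; exact h2) hy
  have hone : ∀ v ∈ U, (orderOf v).Coprime 2 → ∀ Q : Ideal (𝓞 N), Q.IsMaximal → (s : 𝓞 N) ∈ Q →
      v ∈ decomp ℚ Q → rq M N v = 1 := by
    intro v hvU hv Q hQ hsQ hvQ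
    by_contra hne
    have h1 := all_dec Nat.prime_two hC hU hvU hv hQ (mem_of_dvd hst hsQ) hvQ hne hcU
    have h2 := hεs _ ⟨_, comap_max (E := M) hQ, (nat_mem_comap s).mpr hsQ, h1⟩
    have h3 := hεc (rq M N c) (CC_res hc)
    rw [h2] at h3
    exact neg_one_ne h3.symm
  refine l1' _ 2 Nat.prime_two b hb U hU g hgU hg _ _ (fun u => χ (r u)) ?_ ?_ fun V hV hVb => ?_
  · intro u x
    simp only [Subgroup.coe_mul, Subgroup.coe_inv, map_mul, map_inv, hχc]
  · intro u hu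
    have h2 : rq L₀ N₁ ((π (u : N ≃ₐ[ℚ] N)) ^ b) = 1 := by
      rw [← map_pow, hπ1 _ (U.pow_mem u.2 b) (hb _).1, map_one]
    rw [thB_zero_one h2, mul_zero, sub_zero]
  · by_cases hcV : ∃ c ∈ CC ℚ N, c ∈ V
    · have hrs : Function.Surjective r := by
        intro y
        obtain ⟨y1, rfl⟩ := AlgEquiv.restrictNormalHom_surjective (F := ℚ) (K₁ := L) M y
        obtain ⟨y2, rfl⟩ := AlgEquiv.restrictNormalHom_surjective (F := ℚ) (K₁ := M) N y1
        exact ⟨y2, hr y2⟩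
      have hle : ∀ v ∈ V, ∀ Q : Ideal (𝓞 N), Q.IsMaximal → (s : 𝓞 N) ∈ Q → v ∈ decomp ℚ Q →
          LE 2 (r v) := by
        intro v hv Q hQ hsQ hvQ
        apply le_of_part hb r
        rw [hr, hone (v ^ b) (U.pow_mem (hV hv) b) (hb v).1 Q hQ hsQ (decomp_pow hvQ b), map_one]
      refine hTO N r hrs (fun c hc => ?_) V
        (hU.of_injective (Subgroup.inclusion hV) (Subgroup.inclusion_injective hV))
        (fun c hc hcV y hyV hy => ?_) (fun v hv Q hQ hvQ => ?_)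
        (fun v hv Q hQ hm hvQ => hle v hv Q hQ (mem_of_dvd hms hm) hvQ)
      · rw [hr]
        exact CC_res (CC_res hc)
      · rw [hr, odd_inv hcc hU hc (hV hcV) (hV hyV) hy, map_one]
      · by_cases hs : (s : 𝓞 N) ∈ Q
        · exact hle v hv Q hQ hs (inertia_sub Q hvQ)
        · have h1 : r v = 1 := by
            by_contra hne
            apply hs
            rw [← nat_mem_comap (E := M), ← nat_mem_comap (E := L)]
            apply hramL _ (comap_max (E := L) (comap_max (E := M) hQ))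
            rw [hr] at hne
            exact ⟨_, inertia_res (inertia_res hvQ), hne⟩
          exact ⟨0, by rw [h1, one_pow]⟩
    · push Not at hcV
      refine TT_mono bot_le (chi_ind (l := 2) (j := 0) (e := 0) hTE hms hramL
        (fun y => pow_zero y) (fun _ _ _ g _ _ => pow_zero g) hb hχ r hr hcV ?_)
      intro w hw Q hQ hsQ hwQ
      rw [hr, hone _ (V.pow_mem hw b |> fun h => hV h) (hb w).1 Q hQ hsQ (decomp_pow hwQ b), map_one]

end ctx2

end Pool.Agent.Run7.h508.SQ
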