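import Mathlib
import Pool.Agent.Run7.h508.SQ.Core2

/-!
# Ramified primes
-/

set_option autoImplicit false
set_option linter.unusedSectionVars false

namespace Pool.Agent.Run7.h508.SQ

open NumberField NumberField.ComplexEmbedding Polynomial Pool.Agent.R389 Pool.Agent.K4H74.ST
  Pool.Agent.K4H77.SL Pool.Agent.H302R2 Pool.Agent.H302R3 Pool.Agent.K4H34.ST Pool.Agent.K4H34.NC
open scoped Pointwise

section fld

variable {N : Type} [Field N] [NumberField N] [IsGalois ℚ N]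

lemma inertia_conj {σ y : N ≃ₐ[ℚ] N} {Q : Ideal (𝓞 N)} (h : σ ∈ inertia ℚ Q) :
    y * σ * y⁻¹ ∈ inertia ℚ (y • Q) := by
  intro x
  have e1 : gi (y * σ * y⁻¹) x = y • gi σ (y⁻¹ • x) := by
    apply RingOfIntegers.ext
    rfl
  have e2 : gi (y * σ * y⁻¹) x - x = y • (gi σ (y⁻¹ • x) - y⁻¹ • x) := by
    rw [smul_sub, smul_inv_smul, e1]
  rw [e2, Ideal.smul_mem_pointwise_smul_iff]
  exact h _

end fld

/-- the integer which is divisible exactly by the ramified primes -/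
lemma exists_ram' (L : Type) [Field L] [NumberField L] [IsGalois ℚ L] :
    ∃ m : ℕ, m ≠ 0 ∧ (∀ P : Ideal (𝓞 L), P.IsMaximal → (∃ g ∈ inertia ℚ P, g ≠ 1) →
      (m : 𝓞 L) ∈ P) ∧
      ∀ P : Ideal (𝓞 L), P.IsMaximal → (m : 𝓞 L) ∈ P → ∃ g ∈ inertia ℚ P, g ≠ 1 := by
  classical
  have hfinL : FiniteDimensional ℚ L := inferInstance
  obtain ⟨m₀, hm₀, hram⟩ := exists_ram ℚ L
  let good : ℕ → Prop := fun p => ∃ P : Ideal (𝓞 L), P.IsMaximal ∧ (p : 𝓞 L) ∈ P ∧
    ∃ g ∈ inertia ℚ P, g ≠ 1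
  refine ⟨∏ p ∈ m₀.primeFactors.filter good, p, ?_, ?_, ?_⟩
  · rw [Finset.prod_ne_zero_iff]
    intro p hp
    exact (Nat.prime_of_mem_primeFactors (Finset.mem_filter.mp hp).1).ne_zero
  · intro P hP hg
    have h1 := hram P hg
    have hPp : P.IsPrime := hP.isPrime
    obtain ⟨p, hp, hpP⟩ : ∃ p ∈ m₀.primeFactors, (p : 𝓞 L) ∈ P := by
      have h2 : (m₀ : 𝓞 L) = ∏ p ∈ m₀.primeFactors, (p : 𝓞 L) ^ m₀.factorization p := by
        conv_lhs => rw [← Nat.prod_factorization_pow_eq_self hm₀]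
        rw [Finsupp.prod, Nat.cast_prod, Nat.support_factorization]
        exact Finset.prod_congr rfl fun p _ => Nat.cast_pow _ _
      rw [h2] at h1
      obtain ⟨p, hp, hpP⟩ := (hPp.prod_mem_iff).mp h1
      exact ⟨p, hp, hPp.mem_of_pow_mem _ hpP⟩
    have h3 : p ∈ m₀.primeFactors.filter good :=
      Finset.mem_filter.mpr ⟨hp, P, hP, hpP, hg⟩
    rw [← Finset.mul_prod_erase _ _ h3, Nat.cast_mul]
    exact P.mul_mem_right _ hpP
  · intro P hP hmP
    have hPp : P.IsPrime := hP.isPrime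
    rw [Nat.cast_prod] at hmP
    obtain ⟨p, hp, hpP⟩ := (hPp.prod_mem_iff).mp hmP
    obtain ⟨hp1, P', hP', hpP', g, hg, hg1⟩ := Finset.mem_filter.mp hp
    have hpp := Nat.prime_of_mem_primeFactors hp1
    have hP'p : P'.IsPrime := hP'.isPrime
    have hu : ∀ Q : Ideal (𝓞 L), Q.IsPrime → (p : 𝓞 L) ∈ Q →
        Q.comap (algebraMap ℤ (𝓞 L)) = Ideal.span {(p : ℤ)} := by
      intro Q hQ hpQ
      have hmax : (Ideal.span {(p : ℤ)}).IsMaximal :=
        PrincipalIdealRing.isMaximal_of_irreducible (Nat.prime_iff_prime_int.mp hpp).irreducible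
      refine (hmax.eq_of_le (Ideal.IsPrime.ne_top inferInstance) ?_).symm
      rw [Ideal.span_singleton_le_iff_mem, Ideal.mem_comap]
      simpa using hpQ
    have hl1 : P'.LiesOver (P.comap (algebraMap ℤ (𝓞 L))) := ⟨by
      rw [hu P hPp hpP]
      exact (hu P' hP'p hpP').symm⟩
    have hl2 : P.LiesOver (P.comap (algebraMap ℤ (𝓞 L))) := ⟨rfl⟩
    obtain ⟨y, hy⟩ := Ideal.exists_smul_eq_of_isGaloisGroup (P.comap (algebraMap ℤ (𝓞 L))) P' P
      (L ≃ₐ[ℚ] L)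
    refine ⟨y * g * y⁻¹, hy ▸ inertia_conj hg, ?_⟩
    intro h
    rw [mul_inv_eq_one] at h
    exact hg1 (mul_eq_left.mp h)
end Pool.Agent.Run7.h508.SQ
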