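import Mathlib
import Pool.Agent.Run7.h508.SQ.Ram

/-!
# Restrictions of induced characters
-/

set_option autoImplicit false
set_option linter.unusedSectionVars false

namespace Pool.Agent.Run7.h508.SQ

open NumberField NumberField.ComplexEmbedding Pool.Agent.R389 Pool.Agent.K4H74.ST
  Pool.Agent.K4H77.SL Pool.Agent.H302R2 Pool.Agent.H302R3 Pool.Agent.K4H34.ST Pool.Agent.K4H34.NC
open scoped Pointwise

section grp

variable {G : Type} [Group G] [Finite G]

/-- the permutation character of the cosets -/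
lemma ind_one_count (V : Subgroup G) (g : G) :
    ind V (fun _ => (1 : ℂ)) g = (Nat.card {x : G ⧸ V // g • x = x} : ℂ) := by
  classical
  have : Fintype G := Fintype.ofFinite _
  have : Fintype (G ⧸ V) := Fintype.ofFinite _
  rw [ind_eq]
  have h2 : (Nat.card {x : G ⧸ V // g • x = x} : ℂ)
      = ∑ x : G ⧸ V, if g • x = x then (1 : ℂ) else 0 := by
    rw [← Finset.sum_filter, Finset.sum_const, nsmul_eq_mul, mul_one,
      Nat.card_eq_fintype_card, Fintype.card_subtype]
  rw [h2, ← Finset.sum_fiberwise_of_maps_to (s := (Finset.univ : Finset G))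
    (t := (Finset.univ : Finset (G ⧸ V))) (g := fun y : G => (y : G ⧸ V))
    (fun _ _ => Finset.mem_univ _), Finset.mul_sum]
  refine Finset.sum_congr rfl fun q _ => ?_
  have h3 : ∀ y ∈ (Finset.univ : Finset G).filter (fun y : G => (y : G ⧸ V) = q),
      R389.ext V (fun _ => (1 : ℂ)) (y⁻¹ * g * y) = if g • q = q then (1 : ℂ) else 0 := by
    intro y hy
    have hy' : (y : G ⧸ V) = q := (Finset.mem_filter.mp hy).2
    have h4 : y⁻¹ * g * y ∈ V ↔ g • q = q := by
      rw [← hy']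
      change _ ↔ ((g * y : G) : G ⧸ V) = (y : G ⧸ V)
      rw [eq_comm, QuotientGroup.eq, mul_assoc]
    by_cases h : y⁻¹ * g * y ∈ V
    · rw [ext_mem _ _ h, if_pos (h4.mp h)]
    · rw [ext_not _ _ h, if_neg (fun h' => h (h4.mpr h'))]
  rw [Finset.sum_congr rfl h3, Finset.sum_const, nsmul_eq_mul]
  have hcard : ((Finset.univ : Finset G).filter (fun y : G => (y : G ⧸ V) = q)).card
      = Nat.card V := by
    obtain ⟨z, rfl⟩ := QuotientGroup.mk_surjective q
    rw [← Fintype.card_subtype, ← Nat.card_eq_fintype_card]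
    refine Nat.card_congr ⟨fun y => ⟨z⁻¹ * y, ?_⟩, fun s => ⟨z * s, ?_⟩, ?_, ?_⟩
    · exact QuotientGroup.eq.mp y.2.symm
    · rw [eq_comm, QuotientGroup.eq, inv_mul_cancel_left]
      exact s.2
    · intro y; apply Subtype.ext; simp
    · intro s; apply Subtype.ext; simp
  rw [hcard, ← mul_assoc, inv_mul_cancel₀ (by exact_mod_cast Nat.card_pos.ne'), one_mul]

/-- inducing the restriction of an induced function -/
theorem res_ind (W V : Subgroup G) (ξ : W → ℂ) (hξ : ∀ g x : W, ξ (x * g * x⁻¹) = ξ g)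
    (hF : ∀ g x : G, ind W ξ (x * g * x⁻¹) = ind W ξ g) :
    ind V (fun v => ind W ξ v) ∈ AddSubgroup.closure {f : G → ℂ | ∃ (S : Subgroup W) (x : G),
      (∀ s ∈ S, x⁻¹ * (s : G) * x ∈ V) ∧ f = ind (S.map W.subtype) (tr W S (fun s => ξ s))} := by
  classical
  have h1 : ∀ g x : G, ind V (fun _ => (1 : ℂ)) (x * g * x⁻¹) = ind V (fun _ => (1 : ℂ)) g := by
    intro g x
    rw [ind_one_count, ind_one_count]
    congr 1
    refine Nat.card_congr ⟨fun q => ⟨x⁻¹ • (q : G ⧸ V), ?_⟩, fun q => ⟨x • (q : G ⧸ V), ?_⟩, ?_, ?_⟩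
    · have h := q.2
      rw [mul_smul, mul_smul, ← eq_inv_smul_iff] at h
      exact h
    · have h := q.2
      rw [mul_smul, mul_smul, inv_smul_smul, h]
    · intro q; apply Subtype.ext; simp
    · intro q; apply Subtype.ext; simp
  let T : (W → ℂ) →+ (G → ℂ) := AddMonoidHom.mk' (fun u => ind W (fun w => u w * ξ w)) (fun a b => by
    rw [← ind_add]
    congr 1
    funext w
    change (a w + b w) * ξ w = a w * ξ w + b w * ξ w
    ring)
  have h2 : ind V (fun v => ind W ξ v)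
      = T (fun w : W => (Nat.card {x : G ⧸ V // w • x = x} : ℂ)) := by
    funext g
    have e1 := ind_mul V (fun _ => (1 : ℂ)) hF g
    simp only [one_mul] at e1
    rw [e1]
    have e2 := ind_mul W ξ h1 g
    rw [mul_comm, ← e2]
    change _ = ind W (fun w : W => (Nat.card {x : G ⧸ V // w • x = x} : ℂ) * ξ w) g
    congr 1
    funext w
    rw [ind_one_count, mul_comm]
    rfl
  rw [h2]
  have h3 : AddSubgroup.closure {f : W → ℂ | ∃ x : G ⧸ V,
      f = ind (MulAction.stabilizer W x) (fun _ => (1 : ℂ))} ≤ (AddSubgroup.closure {f : G → ℂ |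
      ∃ (S : Subgroup W) (x : G), (∀ s ∈ S, x⁻¹ * (s : G) * x ∈ V) ∧
        f = ind (S.map W.subtype) (tr W S (fun s => ξ s))}).comap T := by
    rw [AddSubgroup.closure_le]
    rintro f ⟨q, rfl⟩
    rw [SetLike.mem_coe, AddSubgroup.mem_comap]
    obtain ⟨y, rfl⟩ := QuotientGroup.mk_surjective q
    refine AddSubgroup.subset_closure ⟨MulAction.stabilizer W (y : G ⧸ V), y, ?_, ?_⟩
    · intro s hs
      have h4 : ((s : G) * y : G) = ((s : G) * y) := rfl
      have h5 : (((s : G) * y : G) : G ⧸ V) = (y : G ⧸ V) := hs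
      rw [eq_comm, QuotientGroup.eq] at h5
      rw [mul_assoc]
      exact h5
    · change ind W (fun w => ind (MulAction.stabilizer W (y : G ⧸ V)) (fun _ => (1 : ℂ)) w * ξ w) = _
      have h4 : (fun w : W => ind (MulAction.stabilizer W (y : G ⧸ V)) (fun _ => (1 : ℂ)) w * ξ w)
          = ind (MulAction.stabilizer W (y : G ⧸ V)) (fun s => ξ s) := by
        funext w
        rw [← ind_mul (MulAction.stabilizer W (y : G ⧸ V)) (fun _ => (1 : ℂ)) hξ w]
        simp only [one_mul]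
      rw [h4, ind_ind]
  exact h3 (fix_mem (G := W) (G ⧸ V))

end grp

lemma LE.conj {l : ℕ} {G : Type} [Group G] {g : G} (h : LE l g) (x : G) : LE l (x * g * x⁻¹) := by
  obtain ⟨k, hk⟩ := h
  exact ⟨k, by rw [conj_pow, hk, mul_one, mul_inv_cancel]⟩

lemma IsChar.cls {G : Type} [Group G] {χ : G → ℂ} (h : IsChar χ) (g x : G) :
    χ (x * g * x⁻¹) = χ g := by
  obtain ⟨V, _, _, _, ρ, rfl⟩ := h
  exact ρ.char_conj g x

/-- characters induced from subgroups without complex conjugations -/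
theorem two_cx {Mg : Type} [CommGroup Mg] {A : ArtinInvariant Mg} {m : ℕ}
    (hTE : TrivEll A m 2 0 0) {L : Type} [Field L] [NumberField L] [IsGalois ℚ L]
    (W : Subgroup (L ≃ₐ[ℚ] L)) (hW : ∀ c ∈ CC ℚ L, c ∉ W) {ξ : W → ℂ} (hξ : IsChar ξ) :
    TwoOK A ⊥ m L (ind W ξ) := by
  classical
  intro N _ _ _ r hrs hrc V hV hinv hin hle
  have hfin : FiniteDimensional ℚ N := inferInstance
  have hfinL : FiniteDimensional ℚ L := inferInstance
  let W' : Subgroup (N ≃ₐ[ℚ] N) := W.comap r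
  let ρ : W' →* W := MonoidHom.mk' (fun w => ⟨r (w : N ≃ₐ[ℚ] N), w.2⟩) (fun a b => by
    apply Subtype.ext
    exact map_mul r (a : N ≃ₐ[ℚ] N) (b : N ≃ₐ[ℚ] N))
  have h1 : (fun g => ind W ξ (r g)) = ind W' (fun w => ξ (ρ w)) := g3 _ _ r hrs W ξ
  have hξ' : IsChar (fun w : W' => ξ (ρ w)) := Pool.Agent.K4H77.SL.IsChar.comp hξ ρ
  have h2 : ind V (fun v => ind W ξ (r (v : N ≃ₐ[ℚ] N)))
      = ind V (fun v => ind W' (fun w => ξ (ρ w)) (v : N ≃ₐ[ℚ] N)) := by
    congr 1
    funext v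
    exact congrFun h1 (v : N ≃ₐ[ℚ] N)
  rw [h2]
  refine ((AddSubgroup.closure_le _).mpr ?_) (res_ind W' V (fun w => ξ (ρ w)) (IsChar.cls hξ')
    (IsChar.cls (Pool.Agent.K4H74.SC.isChar_ind W' hξ')))
  rintro f ⟨S, x, hS, rfl⟩
  rw [SetLike.mem_coe]
  let e : S ≃* S.map W'.subtype := S.equivMapOfInjective W'.subtype W'.subtype_injective
  have he : ∀ u : S.map W'.subtype, (((e.symm u : S) : W') : N ≃ₐ[ℚ] N) = u := by
    intro u
    obtain ⟨v, rfl⟩ := e.surjective u
    rw [MulEquiv.symm_apply_apply]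
    rfl
  have hu : ∀ u : S.map W'.subtype, x⁻¹ * (u : N ≃ₐ[ℚ] N) * x ∈ V := by
    intro u
    have := hS (e.symm u : S) (e.symm u : S).2
    rwa [he] at this
  let κ : S.map W'.subtype →* W := ρ.comp (S.subtype.comp e.symm.toMonoidHom)
  have hκ : ∀ u : S.map W'.subtype, ((κ u : W) : L ≃ₐ[ℚ] L) = r (u : N ≃ₐ[ℚ] N) := by
    intro u
    change r (((e.symm u : S) : W') : N ≃ₐ[ℚ] N) = _
    rw [he]
  have hLE : ∀ u : S.map W'.subtype, LE 2 (r (x⁻¹ * (u : N ≃ₐ[ℚ] N) * x)) → LE 2 (κ u) := by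
    intro u h
    apply LE.of_inj W.subtype Subtype.val_injective
    rw [Subgroup.coe_subtype, hκ]
    have h3 := h.conj (r x)
    rw [← map_mul, ← map_inv, ← map_mul] at h3
    have h4 : x * (x⁻¹ * (u : N ≃ₐ[ℚ] N) * x) * x⁻¹ = u := by group
    rwa [h4] at h3
  refine l2' (A := A) (m := m) hTE N (S.map W'.subtype)
    (fixed_complex _ ?_) W κ (fun u => pow_zero _) ?_ ?_ ξ hξ
  · rintro c hc ⟨w, hw, rfl⟩
    exact hW _ (hrc _ hc) w.2
  · intro u Q hQ huQ hm
    apply LE.lj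
    apply hLE
    have h3 := decomp_conj (y := x⁻¹) huQ
    rw [inv_inv] at h3
    exact hle _ (hu u) (x⁻¹ • Q) (smul_max hQ) (nat_mem_smul hm) h3
  · intro u Q hQ huQ
    apply LE.lj
    apply hLE
    have h3 := inertia_conj (y := x⁻¹) huQ
    rw [inv_inv] at h3
    exact hin _ (hu u) (x⁻¹ • Q) (smul_max hQ) h3

/-- induction from the Galois group over `K` -/
lemma indChar_eq (K N : Type) [Field K] [NumberField K] [Field N] [NumberField N] [Algebra K N]
    [IsGalois ℚ N] [IsGalois K N] :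
    ∃ (W : Subgroup (N ≃ₐ[ℚ] N)) (e : W ≃* (N ≃ₐ[K] N)),
      (∀ w : W, (e w).restrictScalars ℚ = (w : N ≃ₐ[ℚ] N)) ∧
      ∀ f : (N ≃ₐ[K] N) → ℂ, indChar ℚ K N f = ind W (fun w => f (e w)) := by
  classical
  have hfin : FiniteDimensional ℚ N := inferInstance
  let i : (N ≃ₐ[K] N) →* (N ≃ₐ[ℚ] N) := AlgEquiv.restrictScalarsHom ℚ
  have hi : Function.Injective i := AlgEquiv.restrictScalarsHom_injective ℚ
  let e : i.range ≃* (N ≃ₐ[K] N) := (MonoidHom.ofInjective hi).symm
  have he : ∀ w : i.range, (e w).restrictScalars ℚ = (w : N ≃ₐ[ℚ] N) := by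
    intro w
    have h1 : (MonoidHom.ofInjective hi) (e w) = w := (MonoidHom.ofInjective hi).apply_symm_apply w
    exact congrArg Subtype.val h1
  refine ⟨i.range, e, he, fun f => ?_⟩
  have hc : Nat.card (N ≃ₐ[K] N) = Nat.card i.range := Nat.card_congr e.symm.toEquiv
  funext g
  rw [ind, indChar, hc]
  congr 1
  refine finsum_congr fun x => ?_
  by_cases hx : x⁻¹ * g * x ∈ i.range
  · rw [ext_mem _ _ hx]
    rw [finsum_eq_single _ (e ⟨_, hx⟩)]
    · rw [finsum_eq_single _ (he ⟨_, hx⟩)]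
      intro h1 h2
      exact absurd rfl h2
    · intro h hh
      refine @finsum_of_isEmpty _ _ _ ⟨fun h1 => ?_⟩ _
      apply hh
      apply e.symm.injective
      rw [MulEquiv.symm_apply_apply]
      apply Subtype.ext
      have h2 := he (e.symm h)
      rw [MulEquiv.apply_symm_apply] at h2
      rw [← h2, h1]
  · rw [ext_not _ _ hx]
    apply finsum_eq_zero_of_forall_eq_zero
    intro h
    refine @finsum_of_isEmpty _ _ _ ⟨fun h1 => ?_⟩ _
    apply hx
    rw [← h1]
    have h2 := he (e.symm h)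
    rw [MulEquiv.apply_symm_apply] at h2
    rw [h2]
    exact (e.symm h).2

/-- the Galois group over a totally complex field does not contain complex conjugations -/
lemma no_cc {K N : Type} [Field K] [NumberField K] [Field N] [NumberField N] [Algebra K N]
    [IsGalois ℚ N] [IsGalois K N] (hK : IsTotallyComplex K) {W : Subgroup (N ≃ₐ[ℚ] N)}
    {e : W ≃* (N ≃ₐ[K] N)} (he : ∀ w : W, (e w).restrictScalars ℚ = (w : N ≃ₐ[ℚ] N)) :
    ∀ c ∈ CC ℚ N, c ∉ W := by
  rintro c ⟨φ, hφ⟩ hc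
  have h1 : ComplexEmbedding.IsReal (φ.comp (algebraMap K N)) := by
    ext x
    change star (φ (algebraMap K N x)) = φ (algebraMap K N x)
    rw [← hφ.eq]
    have h2 : c (algebraMap K N x) = algebraMap K N x := by
      have h3 := he ⟨c, hc⟩
      have h4 : c (algebraMap K N x) = (e ⟨c, hc⟩) (algebraMap K N x) := by
        conv_lhs => rw [show c = ((⟨c, hc⟩ : W) : N ≃ₐ[ℚ] N) from rfl, ← h3]
        rfl
      rw [h4]
      exact (e ⟨c, hc⟩).commutes x
    rw [h2]
  have h2 := hK.isComplex (InfinitePlace.mk (φ.comp (algebraMap K N)))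
  rw [← InfinitePlace.not_isReal_iff_isComplex, InfinitePlace.isReal_mk_iff] at h2
  exact h2 h1

end Pool.Agent.Run7.h508.SQ
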