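import Mathlib
import Pool.Agent.Run7.h508.SQ.Ram

/-!
# The main theorem over `ℚ`
-/

set_option autoImplicit false
set_option linter.unusedSectionVars false

namespace Pool.Agent.Run7.h508.SQ

open NumberField NumberField.ComplexEmbedding Polynomial Pool.Agent.R389 Pool.Agent.K4H74.ST
  Pool.Agent.K4H77.SL Pool.Agent.H302R2 Pool.Agent.H302R3 Pool.Agent.K4H34.ST Pool.Agent.K4H34.NC
open scoped Pointwise

/-- the main theorem over `ℚ`, at one prime -/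
theorem main_rat_l {Mg : Type} [CommGroup Mg] {A : ArtinInvariant Mg} {P : Subgroup Mg}
    {m l j e : ℕ} (hm : m ≠ 0) (hR : TrivOne A) (hO : TrivOdd A)
    (hTE : TrivEll A m l j (2 * e)) (hl2 : l = 2 → j = 0 ∧ e = 0)
    (L : Type) [Field L] [NumberField L] [IsGalois ℚ L] (heL : ∀ y : L ≃ₐ[ℚ] L, y ^ e = 1)
    (hJ : ∀ P : Ideal (𝓞 L), P.IsMaximal → ((∃ g ∈ inertia ℚ P, g ≠ 1) ∨ (m : 𝓞 L) ∈ P) →
      ∀ g ∈ decomp ℚ P, LE l g → g ^ j = 1)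
    {χ : (L ≃ₐ[ℚ] L) → ℂ} (hχ : IsChar χ) (hTO : l = 2 → TwoOK A P m L χ) (hl : l.Prime) :
    ∃ n : ℕ, ¬ l ∣ n ∧ A.val ℚ L χ ^ n ∈ P := by
  obtain ⟨m₀, hm₀, hram, hram'⟩ := exists_ram' L
  obtain ⟨s, hs'⟩ : ∃ s : ℕ, s = m * m₀ := ⟨_, rfl⟩
  have hs : s ≠ 0 := hs' ▸ mul_ne_zero hm hm₀
  obtain ⟨L₀, i1, i2, i3, hL₀, hloc⟩ := Pool.Agent.K4H36.TR.stA L s hs
  obtain ⟨t₀, ht₀, hramt⟩ := exists_ram ℚ L₀
  have h4s : 4 * s - 1 ≠ 0 := by omega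
  obtain ⟨t, htd⟩ : ∃ t : ℕ, t = s * (t₀ * (4 * s - 1)) := ⟨_, rfl⟩
  have ht : t ≠ 0 := htd ▸ mul_ne_zero hs (mul_ne_zero ht₀ h4s)
  obtain ⟨N₁, j1, j2, j3, j4, hN₁, hB⟩ := Pool.Agent.K4H36.TR.stR2 L₀ hL₀ t ht
  obtain ⟨M, k1, k2, k3, k4, k5, η, hη⟩ := c L N₁ s
  obtain ⟨ε, hε2, hεη, hεc, hεs, hεi⟩ := q s hs M η hη
  obtain ⟨N, l1, l2, l3, l4, l5, l6, hj, hcc, hC⟩ := exists_both ℚ M ht
  have h0 : l3 = DivisionRing.toRatAlgebra := Subsingleton.elim _ _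
  subst h0
  have hfin : FiniteDimensional ℚ N := inferInstance
  have hfinL : FiniteDimensional ℚ L := inferInstance
  have hχc : ∀ g x, χ (x * g * x⁻¹) = χ g := (IsChar.heil hχ).conj
  have hst : s ∣ t := htd ▸ dvd_mul_right _ _
  have hms : m ∣ s := hs' ▸ dvd_mul_right _ _
  have hA : LocA L L₀ N₁ M s := by
    rintro σ ⟨Q, hQ, hsQ, hσ⟩ h1
    rw [rq_eq_one]
    let _ : Algebra L₀ M := ((algebraMap N₁ M).comp (algebraMap L₀ N₁)).toAlgebra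
    refine hloc M σ Q hQ hsQ hσ fun x => ?_
    change σ (algebraMap N₁ M (algebraMap L₀ N₁ x)) = algebraMap N₁ M (algebraMap L₀ N₁ x)
    rw [← rq_apply, ← rq_apply, h1]
    rfl
  obtain ⟨b, hb⟩ := l0 (N ≃ₐ[ℚ] N) l hl
  obtain ⟨r, hr⟩ : ∃ r : (N ≃ₐ[ℚ] N) →* (L ≃ₐ[ℚ] L), ∀ x, r x = rq L M (rq M N x) :=
    ⟨(rq L M).comp (rq M N), fun _ => rfl⟩
  obtain ⟨π, hπ⟩ : ∃ π : (N ≃ₐ[ℚ] N) →* (N₁ ≃ₐ[ℚ] N₁), ∀ x, π x = rq N₁ M (rq M N x) :=
    ⟨(rq N₁ M).comp (rq M N), fun _ => rfl⟩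
  have hramL : ∀ P : Ideal (𝓞 L), P.IsMaximal → (∃ g ∈ inertia ℚ P, g ≠ 1) →
      (s : 𝓞 L) ∈ P := by
    intro P hPm hP
    rw [hs', Nat.cast_mul]
    exact P.mul_mem_left _ (hram P hPm hP)
  have hJs : ∀ P : Ideal (𝓞 L), P.IsMaximal → (s : 𝓞 L) ∈ P → ∀ g ∈ decomp ℚ P, LE l g →
      g ^ j = 1 := by
    intro P hP hs
    rw [hs', Nat.cast_mul] at hs
    rcases hP.isPrime.mem_or_mem hs with h | h
    · exact hJ P hP (Or.inr h)
    · exact hJ P hP (Or.inl (hram' P hP h))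
  have hram0 : ∀ P : Ideal (𝓞 L₀), (∃ g ∈ inertia ℚ P, g ≠ 1) → (t : 𝓞 L₀) ∈ P := by
    intro P hP
    have h1 : (t : 𝓞 L₀) = (s : 𝓞 L₀) * (((4 * s - 1 : ℕ) : 𝓞 L₀) * (t₀ : 𝓞 L₀)) := by
      rw [htd, Nat.cast_mul, Nat.cast_mul]
      ring
    rw [h1]
    exact P.mul_mem_left _ (P.mul_mem_left _ (hramt P hP))
  have hεs' : ∀ σ, Dec s σ → ε σ = 1 := by
    rintro σ ⟨Q, hQ, hsQ, hσ⟩
    exact hεs σ Q hQ hsQ hσ
  have hεi' : ∀ (σ : M ≃ₐ[ℚ] M) (Q : Ideal (𝓞 M)), Q.IsMaximal → (t : 𝓞 M) ∉ Q →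
      gi σ η - η ∈ Q → ε σ = 1 := by
    intro σ Q hQ htQ hσ
    refine hεi σ Q hQ ?_ hσ
    intro h4
    apply htQ
    have h1 : (t : 𝓞 M) = (s : 𝓞 M) * ((t₀ : 𝓞 M) * ((4 * s - 1 : ℕ) : 𝓞 M)) := by
      rw [htd, Nat.cast_mul, Nat.cast_mul]
    rw [h1]
    exact Q.mul_mem_left _ (Q.mul_mem_left _ h4)
  have hε2' : ∀ σ, ε σ ^ 2 = 1 := by
    intro σ
    rcases hε2 σ with h | h <;> rw [h] <;> simp
  have hεc' : ∀ c ∈ CC ℚ M, ε c = -1 := by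
    rintro c ⟨φ, hφ⟩
    exact hεc φ c hφ
  have hcore : ∀ (U : Subgroup (N ≃ₐ[ℚ] N)), HypP l U → ∀ g ∈ U, (orderOf g).Coprime l →
      ind U (genl b g (fun x => χ (r x) - ((ε (rq M N x) : ℂˣ) : ℂ) *
        thB s b χ L₀ N₁ M (π x)) U) ∈ satl l hl (TT A (K := ℚ) (L := N) P) := by
    intro U hU g hgU hg
    by_cases hcU : ∃ c ∈ CC ℚ N, c ∈ U
    · by_cases h2 : l = 2
      · obtain ⟨h3, h4⟩ := hl2 h2
        have h5 := hTO h2
        subst h2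
        rw [h3, h4, mul_zero] at hTE
        exact core_two hTE hms hst hC hramL hN₁ hcc ε hεs' hεc' hb hχ h5 r hr π hπ hU hgU hg hcU
      · exact satl_mono (TT_mono bot_le) (core_odd hl h2 hR hN₁ hj hcc ε hb hχ r hr π hπ hU hgU
          hg hcU)
    · push Not at hcU
      exact satl_mono (TT_mono bot_le) (core_free hl hR hTE (fun h => (hl2 h).1) heL hJs hms hst
        hA hB hC hramL hram0 ε hε2' η hεs' hεi' hb hχ r hr π hπ hU hgU hg hcU)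
  -- the totally odd part
  have hodd : (fun g : N ≃ₐ[ℚ] N => ((ε (rq M N g) : ℂˣ) : ℂ) * thB s b χ L₀ N₁ M (π g))
      ∈ satl l hl (TT A (K := ℚ) (L := N) P) := by
    let _ : Algebra N₁ N := ((algebraMap M N).comp (algebraMap N₁ M)).toAlgebra
    have hres : ∀ g : N ≃ₐ[ℚ] N, AlgEquiv.restrictNormalHom N₁ g = rq N₁ M (rq M N g) := by
      intro g
      ext x
      apply (algebraMap N₁ N).injective
      have h1 := rq_apply (E := N₁) (M := N) g x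
      rw [h1]
      change g (algebraMap M N (algebraMap N₁ M x))
        = algebraMap M N (algebraMap N₁ M (rq N₁ M (rq M N g) x))
      rw [rq_apply, rq_apply]
    have hbN : Part l b (N₁ ≃ₐ[ℚ] N₁) := by
      have hfin2 : FiniteDimensional ℚ M := inferInstance
      refine (hb.map (rq M N) ?_).map (rq N₁ M) ?_
      · exact AlgEquiv.restrictNormalHom_surjective (F := ℚ) (K₁ := M) N
      · exact AlgEquiv.restrictNormalHom_surjective (F := ℚ) (K₁ := N₁) M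
    have h1 := odd_l hO hl N N₁ hN₁ (ε.comp (rq M N)) (by
      intro c hc
      exact hεc' _ (CC_res (L := M) hc)) (fun τ => thB s b χ L₀ N₁ M τ)
      (thB_mem hl hst hA hB hbN hχ)
    have h2 : (fun g : N ≃ₐ[ℚ] N => ((ε (rq M N g) : ℂˣ) : ℂ) * thB s b χ L₀ N₁ M (π g))
        = (fun g => (((ε.comp (rq M N)) g : ℂˣ) : ℂ) *
          (fun τ => thB s b χ L₀ N₁ M τ) (AlgEquiv.restrictNormalHom N₁ g)) := by
      funext g
      rw [hres, hπ]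
      rfl
    rw [h2]
    exact satl_mono (TT_mono bot_le) h1
  -- the difference
  have hdif : (fun g : N ≃ₐ[ℚ] N => χ (r g) - ((ε (rq M N g) : ℂˣ) : ℂ) *
      thB s b χ L₀ N₁ M (π g)) ∈ satl l hl (TT A (K := ℚ) (L := N) P) := by
    refine g1l (N ≃ₐ[ℚ] N) l hl b hb _ ?_ _ hcore
    intro g x
    simp only [map_mul, map_inv, hχc]
    rw [thB_class hχc hst hA hB, mul_comm (ε (rq M N x)), mul_inv_cancel_right]
  have hsum : (fun g : N ≃ₐ[ℚ] N => χ (r g)) ∈ satl l hl (TT A (K := ℚ) (L := N) P) := by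
    have h1 := add_mem hdif hodd
    have h2 : ((fun g : N ≃ₐ[ℚ] N => χ (r g) - ((ε (rq M N g) : ℂˣ) : ℂ) *
      thB s b χ L₀ N₁ M (π g)) + fun g : N ≃ₐ[ℚ] N => ((ε (rq M N g) : ℂˣ) : ℂ) *
      thB s b χ L₀ N₁ M (π g)) = fun g : N ≃ₐ[ℚ] N => χ (r g) := by
      funext g
      simp only [Pi.add_apply]
      ring
    rwa [h2] at h1
  obtain ⟨n, hn, v, hv, h6⟩ := hsum
  let _ : Algebra L N := ((algebraMap M N).comp (algebraMap L M)).toAlgebra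
  have htow : IsScalarTower ℚ L N := inferInstance
  have hres : ∀ g : N ≃ₐ[ℚ] N, AlgEquiv.restrictNormalHom L g = rq L M (rq M N g) := by
    intro g
    ext x
    apply (algebraMap L N).injective
    have h1 := rq_apply (E := L) (M := N) g x
    rw [h1]
    change g (algebraMap M N (algebraMap L M x))
      = algebraMap M N (algebraMap L M (rq L M (rq M N g) x))
    rw [rq_apply, rq_apply]
  have h7 : (fun g : N ≃ₐ[ℚ] N => χ (r g))
      = fun g => χ (AlgEquiv.restrictNormalHom L g) := by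
    funext g
    rw [hres, hr]
  have h8 : IsChar (fun g : N ≃ₐ[ℚ] N => χ (AlgEquiv.restrictNormalHom L g)) :=
    Pool.Agent.K4H77.SL.IsChar.comp hχ _
  have h9 := Val.nsmul A (Val.of_char A h8) n
  rw [h7] at h6
  have h10 := h9.unique A h6
  rw [A.val_infl ℚ L N χ hχ] at h10
  exact ⟨n, hn, h10 ▸ hv⟩

/-- an element some power of which, with an exponent prime to `l`, is in `P`, for all `l` -/
lemma mem_of_all {Mg : Type} [CommGroup Mg] {P : Subgroup Mg} {x : Mg}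
    (h : ∀ l : ℕ, l.Prime → ∃ n : ℕ, ¬ l ∣ n ∧ x ^ n ∈ P) : x ∈ P := by
  have h1 : ∀ n : ℕ, x ^ n ∈ P ↔ ((x : Mg) : Mg ⧸ P) ^ n = 1 := by
    intro n
    rw [← QuotientGroup.mk_pow]
    exact (QuotientGroup.eq_one_iff _).symm
  have h2 : orderOf ((x : Mg) : Mg ⧸ P) = 1 := by
    by_contra hne
    obtain ⟨l, hl, hld⟩ := Nat.exists_prime_and_dvd hne
    obtain ⟨n, hn, hx⟩ := h l hl
    exact hn (hld.trans (orderOf_dvd_of_pow_eq_one ((h1 n).mp hx)))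
  rw [orderOf_eq_one_iff] at h2
  have h3 := (h1 1).mpr (by rw [h2, one_pow])
  rwa [pow_one] at h3

end Pool.Agent.Run7.h508.SQ
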