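import Mathlib
import Pool.Agent.Run7.h508.SQ.Main
import Pool.Agent.Run7.h508.SQ.Mack
import Pool.Agent.Run7.h508.SQ.TwV

/-!
# Inductive invariants of all Artin characters, exactly
-/

set_option autoImplicit false
set_option linter.unusedSectionVars false

namespace Pool.Agent.Run7.h508.SQ

open NumberField NumberField.ComplexEmbedding Pool.Agent.R389 Pool.Agent.K4H74.ST
  Pool.Agent.K4H77.SL Pool.Agent.K4H34.ST Pool.Agent.K4H34.NC

variable {Mg : Type} [CommGroup Mg] {A : ArtinInvariant Mg}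

lemma triv2_of_ell {m : ℕ} (h : TrivEll A m 2 0 0) : Triv2 A := by
  intro K L _ _ _ _ _ _ hK hP ψ hψ
  exact h K L hK (fun Q _ => ⟨fun g _ => LE.lj (hP g), fun _ g _ => LE.lj (hP g)⟩) ψ hψ
    (pow_zero ψ)

lemma in2_sq (hR : TrivOne A) (hC : Triv2 A) : In2 A (powMonoidHom 2 : Mg →* Mg).ker 0 := by
  intro K L _ _ _ _ _ _ hP _ ψ
  rw [MonoidHom.mem_ker, powMonoidHom_apply]
  exact val_lin_sq₂ hR hC hP ψ

lemma in2_mixed {e : ℕ} (hR : TrivOne A) (hC : Triv2 A) (hO : TrivOdd A) (hM : TrivMixedE A e) :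
    In2 A (⊥ : Subgroup Mg) e := by
  intro K L _ _ _ _ _ _ hP he ψ
  rw [Subgroup.mem_bot]
  exact val_two₂ hR hC hO hM K L hP he ψ

/-- the invariant is trivial on the basic characters, at the primes in `S` -/
def TrivEllS (A : ArtinInvariant Mg) (m : ℕ) (S : Set ℕ) : Prop :=
  ∀ l ∈ S, l.Prime → TrivEll A m l 0 0

/-- the prime `l` does not divide the orders of the decomposition groups of the ramified primes
and of the primes above `m` -/
def GoodAt (l m : ℕ) (N : Type) [Field N] [Algebra ℚ N] : Prop :=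
  ∀ P : Ideal (𝓞 N), P.IsMaximal → ((∃ g ∈ inertia ℚ P, g ≠ 1) ∨ (m : 𝓞 N) ∈ P) →
    ∀ g ∈ decomp ℚ P, LE l g → g = 1

/-- descent to the rational numbers -/
lemma down (K L : Type) [Field K] [NumberField K] [Field L] [NumberField L] [Algebra K L]
    [IsGalois K L] (N : Type) [Field N] [NumberField N] [IsGalois ℚ N] [Algebra L N]
    {χ : (L ≃ₐ[K] L) → ℂ} (hχ : IsChar χ) :
    ∃ (W : Subgroup (N ≃ₐ[ℚ] N)) (ξ : W → ℂ), IsChar ξ ∧
      A.val K L χ = A.val ℚ N (ind W ξ) ∧ (IsTotallyComplex K → ∀ c ∈ CC ℚ N, c ∉ W) := by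
  let _ : Algebra K N := ((algebraMap L N).comp (algebraMap K L)).toAlgebra
  have htow : IsScalarTower K L N := IsScalarTower.of_algebraMap_eq fun x => rfl
  have htow2 : IsScalarTower ℚ K N := inferInstance
  have hgal : IsGalois K N := IsGalois.tower_top_of_isGalois ℚ K N
  have h8 : IsChar (fun g : N ≃ₐ[K] N => χ (AlgEquiv.restrictNormalHom L g)) :=
    Pool.Agent.K4H77.SL.IsChar.comp hχ _
  obtain ⟨W, e, he, hW⟩ := indChar_eq K N
  refine ⟨W, fun w => χ (AlgEquiv.restrictNormalHom L (e w)), ?_, ?_, ?_⟩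
  · exact Pool.Agent.K4H77.SL.IsChar.comp h8 e.toMonoidHom
  · rw [← A.val_infl K L N χ hχ, ← A.val_ind ℚ K N _ h8, hW]
  · intro hK
    exact no_cc hK he

/-- all the primes at once -/
theorem gen_rat {m : ℕ} {P : Subgroup Mg} (hm : m ≠ 0) (hR : TrivOne A) (hO : TrivOdd A)
    {S : Set ℕ} (h2 : 2 ∈ S) (hTE : TrivEllS A m S) (N : Type) [Field N] [NumberField N]
    [IsGalois ℚ N] (hN : ∀ l : ℕ, l.Prime → l ∉ S → GoodAt l m N) {χ : (N ≃ₐ[ℚ] N) → ℂ}
    (hχ : IsChar χ) (hTO : TwoOK A P m N χ) : A.val ℚ N χ ∈ P := by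
  refine mem_of_all fun l hl => ?_
  by_cases hS : l ∈ S
  · exact main_rat_l (j := 0) (e := 0) hm hR hO (hTE l hS hl) (fun _ => ⟨rfl, rfl⟩) N
      (fun y => pow_zero y) (fun _ _ _ g _ _ => pow_zero g) hχ (fun _ => hTO) hl
  · have hl2 : l ≠ 2 := fun h => hS (h ▸ h2)
    have hTE' : TrivEll A m l 1 (2 * 0) := by
      intro K L _ _ _ _ _ _ hK hr ψ hψ _
      refine hTE 2 h2 Nat.prime_two K L hK (fun Q hQ => ⟨fun g hg => ?_, fun hmQ g hg => ?_⟩) ψ hψ
        (pow_zero ψ)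
      · exact LJ.of_eq_one (by rw [← pow_one g]; exact ((hr Q hQ).1 g hg).2)
      · exact LJ.of_eq_one (by rw [← pow_one g]; exact ((hr Q hQ).2 hmQ g hg).2)
    exact main_rat_l (j := 1) (e := 0) hm hR hO hTE' (fun h => absurd h hl2) N
      (fun y => pow_zero y) (fun Q hQ h g hg hLE => by rw [pow_one]; exact hN l hl hS Q hQ h g hg hLE)
      hχ (fun h => absurd h hl2) hl

section main

variable {m : ℕ} (hm : m ≠ 0) (hR : TrivOne A) (hO : TrivOdd A) {S : Set ℕ} (h2 : 2 ∈ S)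
  (hTE : TrivEllS A m S) (K L : Type) [Field K] [NumberField K] [Field L] [NumberField L]
  [Algebra K L] [IsGalois K L] (N : Type) [Field N] [NumberField N] [IsGalois ℚ N] [Algebra L N]
  (hN : ∀ l : ℕ, l.Prime → l ∉ S → GoodAt l m N) {χ : (L ≃ₐ[K] L) → ℂ} (hχ : IsChar χ)

include hm hR hO h2 hTE hN hχ

/-- **All characters, up to sign.** -/
theorem gen_sq : A.val K L χ ^ 2 = 1 := by
  obtain ⟨W, ξ, hξ, h1, -⟩ := down (A := A) K L N hχ
  have hF : FiniteDimensional ℚ N := inferInstance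
  have h3 : IsChar (ind W ξ) := Pool.Agent.K4H74.SC.isChar_ind W hξ
  have hE := hTE 2 h2 Nat.prime_two
  have h4 := gen_rat hm hR hO h2 hTE N hN h3
    (two_c (in2_sq hR (triv2_of_ell hE)) hE (fun y => pow_zero y) h3)
  rw [h1]
  rwa [MonoidHom.mem_ker, powMonoidHom_apply] at h4

/-- **All characters.** -/
theorem gen_mixed {e : ℕ} (heN : ∀ y : N ≃ₐ[ℚ] N, y ^ e = 1) (hM : TrivMixedE A e) :
    A.val K L χ = 1 := by
  obtain ⟨W, ξ, hξ, h1, -⟩ := down (A := A) K L N hχ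
  have hF : FiniteDimensional ℚ N := inferInstance
  have h3 : IsChar (ind W ξ) := Pool.Agent.K4H74.SC.isChar_ind W hξ
  have hE := hTE 2 h2 Nat.prime_two
  have h4 := gen_rat hm hR hO h2 hTE N hN h3
    (two_c (in2_mixed hR (triv2_of_ell hE) hO hM) hE heN h3)
  rw [h1]
  exact Subgroup.mem_bot.mp h4

/-- **The characters over the totally complex fields.** -/
theorem gen_cx (hK : IsTotallyComplex K) : A.val K L χ = 1 := by
  obtain ⟨W, ξ, hξ, h1, hW⟩ := down (A := A) K L N hχ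
  have hF : FiniteDimensional ℚ N := inferInstance
  have h3 : IsChar (ind W ξ) := Pool.Agent.K4H74.SC.isChar_ind W hξ
  have h4 := gen_rat hm hR hO h2 hTE N hN h3
    (two_cx (hTE 2 h2 Nat.prime_two) W (hW hK) hξ)
  rw [h1]
  exact Subgroup.mem_bot.mp h4

end main

/-- the invariant is trivial on the faithful linear characters, of order dividing `D`, of the
everywhere unramified extensions of the totally complex fields in which the primes above `m` split
completely -/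
def TrivUnr (A : ArtinInvariant Mg) (m D : ℕ) : Prop :=
  ∀ (K L : Type) [Field K] [NumberField K] [Field L] [NumberField L] [Algebra K L] [IsGalois K L],
    IsTotallyComplex K → (∀ P : Ideal (𝓞 L), P.IsMaximal → (∀ g ∈ inertia K P, g = 1) ∧
      ((m : 𝓞 L) ∈ P → ∀ g ∈ decomp K P, g = 1)) →
    ∀ ψ : (L ≃ₐ[K] L) →* ℂˣ, Function.Injective ψ → ψ ^ D = 1 → A.val K L (lc ψ) = 1

/-- **All characters, up to roots of unity, with control of the exponents.** -/
theorem gen_exp {m : ℕ} (hm : m ≠ 0) (hR : TrivOne A) (hO : TrivOdd A) (K L : Type) [Field K]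
    [NumberField K] [Field L] [NumberField L] [Algebra K L] [IsGalois K L] (N : Type) [Field N]
    [NumberField N] [IsGalois ℚ N] [Algebra L N] {e : ℕ} (heN : ∀ y : N ≃ₐ[ℚ] N, y ^ e = 1)
    (hTU : TrivUnr A m (2 * e)) {l : ℕ} (hl : l.Prime) (hl2 : l ≠ 2) (hN : GoodAt l m N)
    {χ : (L ≃ₐ[K] L) → ℂ} (hχ : IsChar χ) : ∃ n : ℕ, ¬ l ∣ n ∧ A.val K L χ ^ n = 1 := by
  obtain ⟨W, ξ, hξ, h1, -⟩ := down (A := A) K L N hχ
  have hF : FiniteDimensional ℚ N := inferInstance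
  have h3 : IsChar (ind W ξ) := Pool.Agent.K4H74.SC.isChar_ind W hξ
  have hTE : TrivEll A m l 1 (2 * e) := by
    intro K L _ _ _ _ _ _ hK hr ψ hψ hψe
    refine hTU K L hK (fun Q hQ => ⟨fun g hg => ?_, fun hmQ g hg => ?_⟩) ψ hψ hψe
    · rw [← pow_one g]
      exact ((hr Q hQ).1 g hg).2
    · rw [← pow_one g]
      exact ((hr Q hQ).2 hmQ g hg).2
  obtain ⟨n, hn, h4⟩ := main_rat_l (P := ⊥) (j := 1) hm hR hO hTE (fun h => absurd h hl2) N heN
    (fun Q hQ h g hg hLE => by rw [pow_one]; exact hN Q hQ h g hg hLE) h3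
    (fun h => absurd h hl2) hl
  exact ⟨n, hn, by rw [h1]; exact Subgroup.mem_bot.mp h4⟩

end Pool.Agent.Run7.h508.SQ
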