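import Mathlib
import Pool.Agent.Run7.h508.SQ.Gen

/-!
# Galois groups in which the subgroups with complex conjugations have no quotient of order four
-/

set_option autoImplicit false
set_option linter.unusedSectionVars false

namespace Pool.Agent.Run7.h508.SQ

open NumberField NumberField.ComplexEmbedding Pool.Agent.R389 Pool.Agent.K4H74.ST
  Pool.Agent.K4H77.SL Pool.Agent.H302R2 Pool.Agent.H302R3 Pool.Agent.K4H34.ST Pool.Agent.K4H34.NC

variable {Mg : Type} [CommGroup Mg] {A : ArtinInvariant Mg}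

/-- no subgroup which contains a complex conjugation has a cyclic quotient of order `4` -/
def NoC4 (L : Type) [Field L] [NumberField L] [IsGalois ℚ L] : Prop :=
  ∀ H : Subgroup (L ≃ₐ[ℚ] L), (∃ c ∈ CC ℚ L, c ∈ H) → ∀ ψ : H →* ℂˣ, ψ ^ 4 = 1 → ψ ^ 2 = 1

lemma NoC4.sq {L : Type} [Field L] [NumberField L] [IsGalois ℚ L] (h : NoC4 L)
    {H : Subgroup (L ≃ₐ[ℚ] L)} (hc : ∃ c ∈ CC ℚ L, c ∈ H) (ψ : H →* ℂˣ) {k : ℕ}
    (hψ : ψ ^ (2 ^ k) = 1) : ψ ^ 2 = 1 := by
  induction k with
  | zero =>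
    rw [pow_zero, pow_one] at hψ
    rw [hψ]
    apply MonoidHom.ext
    intro x
    rw [MonoidHom.pow_apply, MonoidHom.one_apply, one_pow]
  | succ k ih =>
    cases k with
    | zero => simpa using hψ
    | succ k =>
      apply ih
      have h1 := h H hc (ψ ^ (2 ^ k)) (by
        rw [← pow_mul, ← hψ]
        congr 1
        rw [pow_succ, pow_succ]
        ring)
      rw [← pow_mul] at h1
      rw [pow_succ]
      exact h1

/-- characters of `2`-groups of automorphisms -/
theorem two_img_star (hR : TrivOne A) (hC : Triv2 A) {L : Type} [Field L] [NumberField L]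
    [IsGalois ℚ L] (hL : NoC4 L) (N : Type) [Field N] [NumberField N] [IsGalois ℚ N]
    (V : Subgroup (N ≃ₐ[ℚ] N)) (κ : V →* (L ≃ₐ[ℚ] L)) (hκ : ∀ u, LE 2 (κ u))
    (hcc : ∀ u : V, (u : N ≃ₐ[ℚ] N) ∈ CC ℚ N → κ u ∈ CC ℚ L) (ζ : (L ≃ₐ[ℚ] L) → ℂ)
    (hζ : IsChar ζ) :
    ind V (fun u => ζ (κ u)) ∈ TT A (K := ℚ) (L := N) ⊥ := by
  classical
  have hfin : FiniteDimensional ℚ N := inferInstance
  have hfinL : FiniteDimensional ℚ L := inferInstance
  let F := IntermediateField.fixedField V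
  let ε : V ≃* (N ≃ₐ[F] N) := IntermediateField.subgroupEquivAlgEquiv V
  let ρ : (N ≃ₐ[F] N) →* (L ≃ₐ[ℚ] L) := κ.comp ε.symm.toMonoidHom
  have hind : ind V (fun u => ζ (κ u)) = indChar ℚ F N (fun g => ζ (ρ g)) :=
    ind_fixed V _
  have hcharU : IsChar (fun g : N ≃ₐ[F] N => ζ (ρ g)) := Pool.Agent.K4H77.SL.IsChar.comp hζ ρ
  let E : IntermediateField F N := IntermediateField.fixedField ρ.ker
  have hE : IsGalois F E := IsGalois.of_fixedField_normal_subgroup ρ.ker
  let π : (N ≃ₐ[F] N) →* (E ≃ₐ[F] E) := AlgEquiv.restrictNormalHom E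
  have hπ : Function.Surjective π := AlgEquiv.restrictNormalHom_surjective N
  have hfinF : FiniteDimensional F N := Module.Finite.of_restrictScalars_finite ℚ F N
  have hker : ∀ g : N ≃ₐ[F] N, π g = 1 ↔ ρ g = 1 := by
    intro g
    constructor
    · intro h
      have h1 : g ∈ E.fixingSubgroup := by
        rw [IntermediateField.mem_fixingSubgroup_iff]
        intro x hx
        have h2 := res_apply (L := E) g ⟨x, hx⟩
        change algebraMap E N (π g ⟨x, hx⟩) = _ at h2
        rw [h] at h2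
        exact h2.symm
      rw [IntermediateField.fixingSubgroup_fixedField] at h1
      exact h1
    · intro h
      ext x
      have h2 := res_apply (L := E) g x
      change algebraMap E N (π g x) = _ at h2
      change ((π g x : E) : N) = (x : N)
      exact h2.trans (x.2 ⟨g, h⟩)
  have hle : π.ker ≤ ρ.ker := fun g hg => (hker g).mp hg
  let ρ' : (E ≃ₐ[F] E) →* (L ≃ₐ[ℚ] L) := π.liftOfSurjective hπ ⟨ρ, hle⟩
  have hρ' : ∀ g, ρ' (π g) = ρ g := fun g => MonoidHom.liftOfRightInverse_comp_apply _ _ _ ⟨ρ, hle⟩ g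
  have hinj : Function.Injective ρ' := by
    rw [injective_iff_map_eq_one]
    intro a ha
    obtain ⟨g, rfl⟩ := hπ a
    rw [hρ'] at ha
    exact (hker g).mpr ha
  have hP2 : P2 F E := by
    intro a
    obtain ⟨g, rfl⟩ := hπ a
    apply LE.of_inj ρ' hinj
    rw [hρ']
    exact hκ (ε.symm g)
  have hCC : ∀ c ∈ CC F E, ρ' c ∈ CC ℚ L := by
    rintro c ⟨φ, hφ⟩
    let φ' : N →+* ℂ := ComplexEmbedding.lift N φ
    have h4 : φ'.comp (algebraMap E N) = φ := ComplexEmbedding.lift_comp_algebraMap N φ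
    have h5 : φ'.comp (algebraMap F N) = φ.comp (algebraMap F E) := by
      rw [← h4]
      ext x
      change φ' (algebraMap F N x) = φ' (algebraMap E N (algebraMap F E x))
      rw [← IsScalarTower.algebraMap_apply F E N]
    obtain ⟨c', hc'⟩ := exists_conj (K := F) (φ := φ') (by rw [h5]; exact hφ.isReal_comp)
    have h6 : IsConj (φ'.comp (algebraMap E N)) (π c') := isConj_res hc'
    rw [h4] at h6
    have h7 : π c' = c := h6.ext hφ
    rw [← h7, hρ']
    apply hcc
    refine ⟨φ', ?_⟩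
    ext x
    have h3 := hc'.eq x
    have h4 : ((ε.symm c' : V) : N ≃ₐ[ℚ] N) x = c' x := by
      have h5 : ∀ h : V, (ε h) x = (h : N ≃ₐ[ℚ] N) x := fun h => rfl
      rw [← h5, MulEquiv.apply_symm_apply]
    change star (φ' x) = φ' (((ε.symm c' : V) : N ≃ₐ[ℚ] N) x)
    rw [h4, h3]
  have hval : A.val F E (fun g => ζ (ρ' g)) ∈ (⊥ : Subgroup Mg) := by
    refine brauer_red ⊥ (fun U ψ => ?_) (Pool.Agent.K4H77.SL.IsChar.comp hζ ρ')
    rw [Subgroup.mem_bot]
    have hPU : P2 (IntermediateField.fixedField U) E := hP2.sub U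
    by_cases hcx : IsTotallyComplex (IntermediateField.fixedField U)
    · exact val_complex₂ hC hPU hcx ψ
    · have h1 : ∃ c ∈ CC F E, c ∈ U := by
        by_contra h
        push Not at h
        exact hcx (fixed_complex U h)
      obtain ⟨c, hc, hcU⟩ := h1
      let e : U ≃* U.map ρ' := U.equivMapOfInjective ρ' hinj
      let e' : U ≃* (E ≃ₐ[IntermediateField.fixedField U] E) :=
        IntermediateField.subgroupEquivAlgEquiv U
      let ψ' : U.map ρ' →* ℂˣ := ψ.comp (e'.toMonoidHom.comp e.symm.toMonoidHom)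
      obtain ⟨k, hk⟩ := hPU.exp
      have h2 : ψ' ^ (2 ^ k) = 1 := by
        apply MonoidHom.ext
        intro y
        change ψ (e' (e.symm y)) ^ (2 ^ k) = 1
        rw [← map_pow, hk, map_one]
      have h3 := hL.sq ⟨ρ' c, hCC c hc, Subgroup.mem_map_of_mem ρ' hcU⟩ ψ' h2
      apply val_sign hR
      intro g
      have h4 : ψ g ^ 2 = 1 := by
        have h5 := DFunLike.congr_fun h3 (e (e'.symm g))
        change ψ (e' (e.symm (e (e'.symm g)))) ^ 2 = 1 at h5
        rwa [MulEquiv.symm_apply_apply, MulEquiv.apply_symm_apply] at h5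
      have h5 : ((ψ g : ℂˣ) : ℂ) * ((ψ g : ℂˣ) : ℂ) = 1 := by
        rw [← Units.val_mul, ← pow_two, h4, Units.val_one]
      rcases mul_self_eq_one_iff.mp h5 with h6 | h6
      · left; exact Units.ext h6
      · right; exact Units.ext (by rw [h6]; simp)
  have hval2 : A.val F N (fun g => ζ (ρ g)) ∈ (⊥ : Subgroup Mg) := by
    rw [← A.val_infl F E N _ (Pool.Agent.K4H77.SL.IsChar.comp hζ ρ')] at hval
    convert hval using 2
    funext g
    rw [← hρ']
  have hval3 : A.val ℚ N (indChar ℚ F N (fun g => ζ (ρ g))) ∈ (⊥ : Subgroup Mg) := by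
    rw [A.val_ind ℚ F N _ hcharU]
    exact hval2
  have hch : IsChar (ind V (fun u => ζ (κ u))) :=
    Pool.Agent.K4H74.SC.isChar_ind V (Pool.Agent.K4H77.SL.IsChar.comp hζ κ)
  rw [mem_TT_char A hch, hind]
  exact hval3

/-- the condition at the prime two -/
theorem two_c_star {m : ℕ} (hR : TrivOne A) (hTE : TrivEll A m 2 0 0) {L : Type} [Field L]
    [NumberField L] [IsGalois ℚ L] (hL : NoC4 L) {χ : (L ≃ₐ[ℚ] L) → ℂ} (hχ : IsChar χ) :
    TwoOK A ⊥ m L χ :=
  two_c_gen hTE hχ fun N _ _ _ V κ hκ hcc =>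
    two_img_star hR (triv2_of_ell hTE) hL N V κ hκ hcc χ hχ

/-- **All characters of some Galois groups.** -/
theorem gen_star {m : ℕ} (hm : m ≠ 0) (hR : TrivOne A) (hO : TrivOdd A) {S : Set ℕ} (h2 : 2 ∈ S)
    (hTE : TrivEllS A m S) (K L : Type) [Field K] [NumberField K] [Field L] [NumberField L]
    [Algebra K L] [IsGalois K L] (N : Type) [Field N] [NumberField N] [IsGalois ℚ N] [Algebra L N]
    (hN : ∀ l : ℕ, l.Prime → l ∉ S → GoodAt l m N) {χ : (L ≃ₐ[K] L) → ℂ} (hχ : IsChar χ)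
    (hNo : NoC4 N) : A.val K L χ = 1 := by
  obtain ⟨W, ξ, hξ, h1, -⟩ := down (A := A) K L N hχ
  have hF : FiniteDimensional ℚ N := inferInstance
  have h3 : IsChar (ind W ξ) := Pool.Agent.K4H74.SC.isChar_ind W hξ
  have h4 := gen_rat hm hR hO h2 hTE N hN h3 (two_c_star hR (hTE 2 h2 Nat.prime_two) hNo h3)
  rw [h1]
  exact Subgroup.mem_bot.mp h4

/-- **The characters of the totally real extensions.** -/
theorem gen_real {m : ℕ} (hm : m ≠ 0) (hR : TrivOne A) (hO : TrivOdd A)
    (hTE : TrivEllS A m Set.univ) (K L : Type) [Field K] [NumberField K] [Field L] [NumberField L]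
    [Algebra K L] [IsGalois K L] (hL : IsTotallyReal L) {χ : (L ≃ₐ[K] L) → ℂ} (hχ : IsChar χ) :
    A.val K L χ = 1 := by
  classical
  have hK : IsTotallyReal K := IsTotallyReal.of_algebra K L
  obtain ⟨N, i1, i2, i3, i4, i5, i6, hN⟩ := exists_ext K L {-1}
  obtain ⟨j, hj⟩ := hN (-1) (by simp)
  rw [map_neg, map_one] at hj
  obtain ⟨s, hs, hsc⟩ := odd_i (K := K) hj
  have hfin : FiniteDimensional K N := Module.Finite.of_restrictScalars_finite ℚ K N
  let χ' : (N ≃ₐ[K] N) → ℂ := fun g => χ (AlgEquiv.restrictNormalHom L g)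
  have hχ' : IsChar χ' := Pool.Agent.K4H77.SL.IsChar.comp hχ _
  have hsχ : IsChar (fun g => ((s g : ℂˣ) : ℂ) * χ' g) := isChar_twist s hχ'
  -- the totally odd part
  have h1 : A.val K N (fun g => ((s g : ℂˣ) : ℂ) * χ' g) = 1 := by
    have h2 := Pool.Agent.K4H74.SO.val_odd hO K N L hK hL s hsc hχ
    rw [mem_TT_char A hsχ, Subgroup.mem_bot] at h2
    exact h2
  -- the sum
  have h3 : A.val K N (χ' + fun g => ((s g : ℂˣ) : ℂ) * χ' g) = 1 := by
    have hφ : ∃ φ : N →+* ℂ, True := ⟨Classical.arbitrary _, trivial⟩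
    obtain ⟨φ, -⟩ := hφ
    have hreal : IsReal (φ.comp (algebraMap K N)) := by
      have h4 := hK.isReal (InfinitePlace.mk (φ.comp (algebraMap K N)))
      rwa [InfinitePlace.isReal_mk_iff] at h4
    obtain ⟨c, hc⟩ := exists_conj (K := K) hreal
    have hsc' : s c = -1 := hsc c ⟨φ, hc⟩
    have h4 := ind_two' hs hsc' 1
    have h5 : (χ' + fun g => ((s g : ℂˣ) : ℂ) * χ' g) = ind s.ker (fun v => χ' v) := by
      funext g
      have h6 := ind_mul s.ker (fun _ => (1 : ℂ)) (IsChar.cls hχ') g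
      simp only [one_mul] at h6
      rw [h6]
      have h7 := congrFun h4 g
      have h8 : ind s.ker (fun _ => (1 : ℂ)) g = 1 + ((s g : ℂˣ) : ℂ) := by
        rw [← one_mul s] at h7 ⊢
        simpa [lc] using h7
      rw [h8, Pi.add_apply]
      ring
    rw [h5]
    have h9 : ∀ c ∈ CC K N, c ∉ s.ker := by
      intro c hc h
      rw [MonoidHom.mem_ker, hsc c hc] at h
      exact neg_one_ne h
    have h10 := fixed_complex s.ker h9
    have h11 : IsChar (fun g : N ≃ₐ[IntermediateField.fixedField s.ker] N =>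
        χ' ((IntermediateField.subgroupEquivAlgEquiv s.ker).symm g : s.ker)) :=
      Pool.Agent.K4H77.SL.IsChar.comp hχ'
        (s.ker.subtype.comp (IntermediateField.subgroupEquivAlgEquiv s.ker).symm.toMonoidHom)
    rw [ind_fixed s.ker (fun v => χ' v),
      A.val_ind K (IntermediateField.fixedField s.ker) N _ h11]
    obtain ⟨N', j1, j2, j3, j4⟩ := Pool.Agent.K4H34.ST.exists_gal N
    exact gen_cx hm hR hO (Set.mem_univ 2) hTE _ N N' (fun l _ h => absurd (Set.mem_univ l) h)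
      h11 h10
  rw [A.val_add K N _ _ hχ' hsχ, h1, mul_one, A.val_infl K L N χ hχ] at h3
  exact h3

end Pool.Agent.Run7.h508.SQ
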