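import Mathlib
import Pool.Agent.K4H34.AL.Comb
import Pool.Agent.Run7.h508.SQ.Star
import Pool.Agent.Run7.h508.SQ.Fix

/-!
# Exact relations
-/

set_option autoImplicit false
set_option linter.unusedSectionVars false

namespace Pool.Agent.Run7.h508.SQ

open NumberField Pool.Agent.K4H74 Pool.Agent.K4H74.SK Pool.Agent.K4H34.AL
open Pool.Agent.K4H74.ST (ArtinInvariant TrivOne TrivOdd)

section quot

variable {M : Type} [CommGroup M] (A : ArtinInvariant M) (T : Pair → Prop)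

/-- the subgroup generated by the values on the family -/
def clos : Subgroup M := Subgroup.closure {y : M | ∃ x : Pair, T x ∧ y = pval A x}

/-- the invariant modulo its values on the family -/
def qInv : ArtinInvariant (M ⧸ clos A T) := mapInv (QuotientGroup.mk' (clos A T)) A

variable {A T}

lemma qInv_one {x : Pair} (hx : T x) : (qInv A T).val x.1.K x.1.L x.2 = 1 :=
  (QuotientGroup.eq_one_iff (N := clos A T) _).mpr (Subgroup.subset_closure ⟨x, hx, rfl⟩)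

lemma form_of {E : Ext} {χ : G E → ℂ} {n : ℕ} (h : (qInv A T).val E.K E.L χ ^ n = 1) :
    ∃ (r : ℕ) (x : Fin r → Pair) (k : Fin r → ℤ), (∀ i, T (x i)) ∧
      pval A ⟨E, χ⟩ ^ n = ∏ i, pval A (x i) ^ k i := by
  refine closure_form A T ?_
  have h6 : (qInv A T).val E.K E.L χ = QuotientGroup.mk' (clos A T) (pval A ⟨E, χ⟩) := rfl
  rw [h6, ← map_pow] at h
  exact (QuotientGroup.eq_one_iff _).mp h

lemma q_trivOne (h1 : ∀ (K : Type) [Field K] [NumberField K], T ⟨⟨K, K⟩, fun _ => 1⟩) :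
    TrivOne (qInv A T) := by
  intro K _ _
  exact qInv_one (h1 K)

lemma q_trivOdd (h2 : ∀ E : Ext, IsTotallyReal E.K → ∀ ψ : G E →* ℂˣ,
    (∀ t : G E, IsCC t → ψ t = -1) → T ⟨E, lin ψ⟩) : TrivOdd (qInv A T) := by
  intro K L _ _ _ _ _ _ hK ψ hψ
  refine qInv_one (T := T) (h2 ⟨K, L⟩ hK ψ ?_)
  rintro t ⟨φ, hφ⟩
  refine hψ φ t ?_
  ext x
  exact (hφ x).symm

/-- the third hypothesis -/
def HypEll (T : Pair → Prop) (m : ℕ) : Prop :=
  ∀ (E : Ext) (l : ℕ), l.Prime → IsTotallyComplex E.K →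
    (∀ P : Ideal (𝓞 E.L), P.IsMaximal →
      (∀ g ∈ K4H77.SL.inertia E.K P, ∃ k : ℕ, g ^ (l ^ k) = 1) ∧
        ((m : 𝓞 E.L) ∈ P → ∀ g ∈ K4H77.SL.decomp E.K P, ∃ k : ℕ, g ^ (l ^ k) = 1)) →
      ∀ ψ : G E →* ℂˣ, Function.Injective ψ → T ⟨E, lin ψ⟩

lemma q_trivEll {m : ℕ} (h3 : HypEll T m) : TrivEllS (qInv A T) m Set.univ := by
  intro l _ hl K L _ _ _ _ _ _ hK hr ψ hψ _
  exact qInv_one (h3 ⟨K, L⟩ l hl hK (fun P hP => ⟨fun g hg => ((hr P hP).1 g hg).1,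
    fun hm g hg => ((hr P hP).2 hm g hg).1⟩) ψ hψ)

lemma q_trivMixed (h4 : ∀ E : Ext, ¬ IsTotallyReal E.K → ¬ IsTotallyComplex E.K →
    (∃ k : ℕ, Nat.card (G E) = 2 ^ (k + 2)) → (∀ t : G E, IsCC t → t = 1) →
    ∀ ψ : G E →* ℂˣ, Function.Injective ψ → T ⟨E, lin ψ⟩) : TrivMixedE (qInv A T) 0 := by
  intro K L _ _ _ _ _ _ hK hK' hl hc ψ hψ _
  refine qInv_one (h4 ⟨K, L⟩ hK hK' hl ?_ ψ hψ)
  rintro t ⟨φ, hφ⟩
  refine hc φ t ?_
  ext x
  exact (hφ x).symm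

end quot

section full

variable {c : Pair → ℂ} (hc : IsLeading c)

/-- a number `A(χ, φ)` -/
def IsSN (c : Pair → ℂ) (x : Pair) (a : ℂ) : Prop :=
  ∃ Λ : Y x.1 →ₗ[ℂ] Y x.1, IsStarkMap Λ ∧ IsA c Λ x.2 a

include hc in
/-- automorphisms which fix the values of the character -/
lemma sigma_fix {x : Pair} (hx : IsChr x.2) {σ : ℂ ≃+* ℂ} (hσ : ∀ g, σ (x.2 g) = x.2 g) {a : ℂ}
    (ha : IsSN c x a) {d : ℂˣ} (hd : IsDefect c σ x.2 d) : σ a = d * a := by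
  obtain ⟨Λ, hΛ, h⟩ := ha
  have h1 : (fun g => σ (x.2 g)) = x.2 := funext hσ
  exact hd Λ hΛ a a h (by rw [h1]; exact h)

include hc in
lemma chr_mem {x : Pair} (hx : IsChr x.2) (g : G x.1) : x.2 g ∈ QB := by
  have hG : Finite (G x.1) := inferInstanceAs (Finite (x.1.L ≃ₐ[x.1.K] x.1.L))
  exact isChar_mem (isChr_iff.mp hx) g

/-- all the relations -/
theorem rel_full {y : Pair} (hy : IsChr y.2) {n r : ℕ} {x : Fin r → Pair} {k : Fin r → ℤ}
    (hx : ∀ i, IsChr (x i).2)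
    (h : pval (allInv hc) y ^ n = ∏ i, pval (allInv hc) (x i) ^ k i) :
    (∀ s : ℂ, 1 < s.re → ∀ (l : ℂ) (l' : Fin r → ℂ), HasSum (logTerm y.2 s) l →
      (∀ i, HasSum (logTerm (x i).2 s) (l' i)) → n * l = ∑ i, k i * l' i) ∧
    c y ^ n = ∏ i, c (x i) ^ k i ∧
    (∀ (σ : ℂ ≃+* ℂ) (d : ℂˣ) (d' : Fin r → ℂˣ), IsDefect c σ y.2 d →
      (∀ i, IsDefect c σ (x i).2 (d' i)) → d ^ n = ∏ i, d' i ^ k i) ∧
    ∀ (a : ℂ) (a' : Fin r → ℂ), IsSN c y a → (∀ i, IsSN c (x i) (a' i)) →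
      ∃ α : ℂ, α ∈ IntermediateField.adjoin ℚ (Set.range y.2 ∪ ⋃ i, Set.range (x i).2) ∧
        a ^ n = α * ∏ i, a' i ^ k i := by
  obtain ⟨r1, r2, r3, r4⟩ := all_rel hc h
  have hdef : ∀ (σ : ℂ ≃+* ℂ) (d : ℂˣ) (d' : Fin r → ℂˣ), IsDefect c σ y.2 d →
      (∀ i, IsDefect c σ (x i).2 (d' i)) → d ^ n = ∏ i, d' i ^ k i := by
    intro σ d d' hd hd'
    have h1 := r3 σ
    rw [pval_defect hc σ hy hd] at h1
    rw [h1]
    exact Finset.prod_congr rfl fun i _ => by rw [pval_defect hc σ (hx i) (hd' i)]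
  refine ⟨fun s hs l l' hl hl' => log_rel r1 hs hl hl', ?_, hdef, ?_⟩
  · have h1 := congrArg (Units.val) r2
    rw [Units.val_pow_eq_pow_val, pval_lead hc hy, Units.coe_prod] at h1
    rw [h1]
    exact Finset.prod_congr rfl fun i _ => by
      rw [Units.val_zpow_eq_zpow_val, pval_lead hc (hx i)]
  · intro a a' ha0' hai'
    obtain ⟨Λ, hΛ, ha⟩ := id ha0'
    choose Λ' hΛ' ha' using id hai'
    have ha0 : a ≠ 0 := isA_ne hc hy hΛ ha
    have ha0' : ∀ i, a' i ≠ 0 := fun i => isA_ne hc (hx i) (hΛ' i) (ha' i)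
    have e1 : pval (algInv (leadInv hc)) y = (Units.mk0 a ha0 : ℂˣ) :=
      pval_alg hc hy hΛ ha
    have e2 : ∀ i, pval (algInv (leadInv hc)) (x i) = (Units.mk0 (a' i) (ha0' i) : ℂˣ) :=
      fun i => pval_alg hc (hx i) (hΛ' i) (ha' i)
    have h1 : ((Units.mk0 a ha0 ^ n : ℂˣ) : ℂˣ ⧸ algU)
        = ((∏ i, Units.mk0 (a' i) (ha0' i) ^ k i : ℂˣ) : ℂˣ ⧸ algU) := by
      change (QuotientGroup.mk' algU) _ = (QuotientGroup.mk' algU) _
      rw [map_pow, map_prod]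
      change ((Units.mk0 a ha0 : ℂˣ) : ℂˣ ⧸ algU) ^ n = _
      rw [← e1, r4]
      exact Finset.prod_congr rfl fun i _ => by rw [map_zpow, e2]; rfl
    rw [QuotientGroup.eq, mem_algU] at h1
    obtain ⟨P, hP⟩ : ∃ P : ℂˣ, P = ∏ i, Units.mk0 (a' i) (ha0' i) ^ k i := ⟨_, rfl⟩
    rw [← hP] at h1
    have hPv : (P : ℂ) = ∏ i, a' i ^ k i := by
      rw [hP, Units.coe_prod]
      exact Finset.prod_congr rfl fun i _ => by
        rw [Units.val_zpow_eq_zpow_val, Units.val_mk0]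
    have hα : a ^ n = (((P⁻¹ * Units.mk0 a ha0 ^ n : ℂˣ)) : ℂ) * ∏ i, a' i ^ k i := by
      rw [← hPv, ← Units.val_mul, mul_comm, mul_inv_cancel_left, Units.val_pow_eq_pow_val,
        Units.val_mk0]
    obtain ⟨α, hαd⟩ : ∃ α : ℂ, α = (((P⁻¹ * Units.mk0 a ha0 ^ n : ℂˣ)) : ℂ) := ⟨_, rfl⟩
    rw [← hαd] at hα
    have hαQ : α ∈ QB := by
      have h2 : P⁻¹ * Units.mk0 a ha0 ^ n = ((Units.mk0 a ha0 ^ n)⁻¹ * P)⁻¹ := by
        rw [mul_inv_rev, inv_inv]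
      rw [mem_QB, hαd, h2, Units.val_inv_eq_inv_val]
      exact h1.inv
    refine ⟨α, mem_of_fixed _ ?_ hαQ ?_, hα⟩
    · rw [IntermediateField.adjoin_le_iff]
      rintro z (⟨g, rfl⟩ | hz)
      · exact chr_mem hc hy g
      · obtain ⟨i, g, rfl⟩ := Set.mem_iUnion.mp hz
        exact chr_mem hc (hx i) g
    · intro σ hσ
      obtain ⟨d, hd, -⟩ := existsUnique_defect hc σ hy
      choose d' hd' _ using fun i => existsUnique_defect hc σ (hx i)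
      have h2 := hdef σ d d' hd hd'
      have h3 : σ a = d * a := sigma_fix hc hy (fun g => hσ _
        (IntermediateField.subset_adjoin _ _ (Or.inl ⟨g, rfl⟩))) ⟨Λ, hΛ, ha⟩ hd
      have h4 : ∀ i, σ (a' i) = d' i * a' i := fun i => sigma_fix hc (hx i) (fun g => hσ _
        (IntermediateField.subset_adjoin _ _ (Or.inr (Set.mem_iUnion.mpr ⟨i, g, rfl⟩))))
        ⟨Λ' i, hΛ' i, ha' i⟩ (hd' i)
      have h5 := congrArg σ hα
      rw [map_pow, map_mul, map_prod, h3, mul_pow, hα] at h5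
      have h6 : ∏ i, σ (a' i ^ k i) = (∏ i, ((d' i : ℂˣ) : ℂ) ^ k i) * ∏ i, a' i ^ k i := by
        rw [← Finset.prod_mul_distrib]
        exact Finset.prod_congr rfl fun i _ => by rw [map_zpow₀, h4, mul_zpow]
      have h7 : ((d : ℂˣ) : ℂ) ^ n = ∏ i, ((d' i : ℂˣ) : ℂ) ^ k i := by
        have h8 := congrArg Units.val h2
        rw [Units.val_pow_eq_pow_val, Units.coe_prod] at h8
        rw [h8]
        exact Finset.prod_congr rfl fun i _ => by rw [Units.val_zpow_eq_zpow_val]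
      rw [h6, ← h7] at h5
      have h9 : ((d : ℂˣ) : ℂ) ^ n * ∏ i, a' i ^ k i ≠ 0 :=
        mul_ne_zero (pow_ne_zero _ d.ne_zero)
          (Finset.prod_ne_zero_iff.mpr fun i _ => zpow_ne_zero _ (ha0' i))
      apply mul_right_cancel₀ h9
      rw [← h5]
      ring

end full

end Pool.Agent.Run7.h508.SQ
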